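import Pool.Agent.Work.MP_71c844_lc.GR.Main

/-!
# Block GR: the choice of the parameters
-/

namespace Pool.Agent.GR

open Finset Pool.Agent.GapLim Pool.Agent.LayCirc
open Pool.Agent.NegLim (gval numNot lowSets)

lemma hasCl_iff {v : ℕ} (k : ℕ) (x : Finset (Sym2 (Fin v))) :
    HasCl k x ↔ ¬ (SimpleGraph.fromEdgeSet {e | inp (idp v) x e = true}).CliqueFree k := by
  have hin : ∀ e, inp (idp v) x e = decide (e ∈ x) := fun e => rfl
  unfold SimpleGraph.CliqueFree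
  push Not
  unfold HasCl
  constructor
  · rintro ⟨K, hK, hcl⟩
    refine ⟨K, ?_⟩
    rw [SimpleGraph.isNClique_iff]
    refine ⟨?_, hK⟩
    intro a ha b hb hab
    rw [SimpleGraph.fromEdgeSet_adj]
    refine ⟨?_, hab⟩
    rw [Set.mem_ofPred_eq, hin, decide_eq_true_eq]
    exact hcl a ha b hb hab
  · rintro ⟨K, hK⟩
    rw [SimpleGraph.isNClique_iff] at hK
    refine ⟨K, hK.2, ?_⟩
    intro a ha b hb hab
    have := hK.1 ha hb hab
    rw [SimpleGraph.fromEdgeSet_adj, Set.mem_ofPred_eq, hin, decide_eq_true_eq] at this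
    exact this.1

/-- the arithmetic of the choice of `R` -/
lemma par_exp {v b L K' S R : ℕ} (hb : 2 ≤ b) (hL : 2 ≤ L) (hvL : v < 2 ^ L)
    (hκ : 64 * b ^ 2 ≤ v) (hK' : K' + 1 ≤ 2 * L) (hS : S + 1 ≤ 2 ^ b) (hR : R = 10 * b * L) :
    2 ^ K' * ((S + 1) * ((v * 2 ^ (K' + 1) + 1) ^ (2 * b) * (64 * b ^ 2 + 1) ^ (2 * b))) ≤ 2 ^ R := by
  have h1 : 2 ^ K' ≤ 2 ^ (2 * L) := Nat.pow_le_pow_right (by norm_num) (by omega)
  have h2 : v * 2 ^ (K' + 1) + 1 ≤ 2 ^ (3 * L) := by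
    have h3 : 2 ^ (K' + 1) ≤ 2 ^ (2 * L) := Nat.pow_le_pow_right (by norm_num) hK'
    have h4 : v * 2 ^ (K' + 1) ≤ (2 ^ L - 1) * 2 ^ (2 * L) := Nat.mul_le_mul (by omega) h3
    have h5 : (2 ^ L - 1) * 2 ^ (2 * L) + 1 ≤ 2 ^ (3 * L) := by
      have h6 : 1 ≤ 2 ^ L := Nat.one_le_two_pow
      have h7 : (2 ^ L - 1) * 2 ^ (2 * L) = 2 ^ (3 * L) - 2 ^ (2 * L) := by
        rw [Nat.sub_mul, one_mul]
        congr 1
        rw [← pow_add]
        congr 1
        ring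
      have h8 : 1 ≤ 2 ^ (2 * L) := Nat.one_le_two_pow
      have h9 : 2 ^ (2 * L) ≤ 2 ^ (3 * L) := Nat.pow_le_pow_right (by norm_num) (by omega)
      omega
    omega
  have h3 : 64 * b ^ 2 + 1 ≤ 2 ^ L := by omega
  calc 2 ^ K' * ((S + 1) * ((v * 2 ^ (K' + 1) + 1) ^ (2 * b) * (64 * b ^ 2 + 1) ^ (2 * b)))
      ≤ 2 ^ (2 * L) * (2 ^ b * ((2 ^ (3 * L)) ^ (2 * b) * (2 ^ L) ^ (2 * b))) := by gcongr
    _ = 2 ^ (2 * L + (b + (3 * L * (2 * b) + L * (2 * b)))) := by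
        rw [← pow_mul, ← pow_mul, ← pow_add, ← pow_add, ← pow_add]
    _ ≤ 2 ^ R := by
        apply Nat.pow_le_pow_right (by norm_num)
        rw [hR]
        nlinarith

theorem gap_main (I : Items) (v s k w D Z M S : ℕ) (hv : 2 ≤ v) (hs : 1 ≤ s) (hw : 1 ≤ w)
    (hZ : v ^ 2 ≤ Z ^ D) (hk : (64 * (w + 1) ^ 2) ^ D ≤ k)
    (c : Circuit (Sym2 (Fin v)) S) (o : Fin S) (hS : S < 2 ^ w)
    (hM : (∀ x : ℕ → (Sym2 (Fin v) → Bool), Monotone x →
        (Set.range fun i => pattern c (x i)).ncard ≤ M) ∨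
      wires c + numMixing c + 1 ≤ M ∨ (FormulaLike c ∧ wires c + numArb c + 1 ≤ M))
    (hyes : ∀ x : Sym2 (Fin v) → Bool,
      ¬ (SimpleGraph.fromEdgeSet {e | x e = true}).CliqueFree s → val c x o = true)
    (hno : ∀ x : Sym2 (Fin v) → Bool,
      (SimpleGraph.fromEdgeSet {e | x e = true}).CliqueFree k → val c x o = false) :
    v ^ 2 < 2 ^ 26 * M * s ^ 2 * Z ^ 2 * (64 * (w + 1) ^ 2) ^ (2 * D) * (w + 1) ^ 4 *
      (Nat.log 2 v + 1) ^ 3 := by
  -- names for the parameters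
  obtain ⟨b, hb⟩ : ∃ b, b = w + 1 := ⟨_, rfl⟩
  obtain ⟨L, hL⟩ : ∃ L, L = Nat.log 2 v + 1 := ⟨_, rfl⟩
  obtain ⟨κ, hκ⟩ : ∃ κ, κ = 64 * b ^ 2 := ⟨_, rfl⟩
  rw [← hb] at hk ⊢
  rw [← hL]
  have hb2 : 2 ≤ b := by omega
  have hL2 : 2 ≤ L := by
    have : 1 ≤ Nat.log 2 v := Nat.log_pos (by norm_num) hv
    omega
  have hvL : v < 2 ^ L := by rw [hL]; exact Nat.lt_pow_succ_log_self (by norm_num) v
  have hD1 : 1 ≤ D := by
    by_contra h
    have hD : D = 0 := by omega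
    rw [hD, pow_zero] at hZ
    nlinarith
  have hZ1 : 1 ≤ Z := by
    by_contra h
    have hZ0 : Z = 0 := by omega
    rw [hZ0, zero_pow (by omega)] at hZ
    nlinarith
  have hM1 : 1 ≤ M := by
    rcases hM with h | h | h
    · have h1 := h (fun _ _ => true) monotone_const
      rw [Set.range_const, Set.ncard_singleton] at h1
      exact h1
    · omega
    · omega
  by_contra hcon
  push Not at hcon
  rw [← hκ] at hcon
  have hκ1 : 1 ≤ κ := by rw [hκ]; have : 1 ≤ b ^ 2 := Nat.one_le_pow _ _ (by omega); omega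
  have hκDv : κ ^ D ≤ v := by
    have h1 : κ ^ (2 * D) ≤ v ^ 2 := by
      refine le_trans ?_ hcon
      have h2 : 1 ≤ 2 ^ 26 * M * s ^ 2 * Z ^ 2 := Nat.one_le_iff_ne_zero.mpr (by positivity)
      have h3 : 1 ≤ b ^ 4 := Nat.one_le_pow _ _ (by omega)
      have h4 : 1 ≤ L ^ 3 := Nat.one_le_pow _ _ (by omega)
      calc κ ^ (2 * D) = 1 * κ ^ (2 * D) * 1 * 1 := by ring
        _ ≤ 2 ^ 26 * M * s ^ 2 * Z ^ 2 * κ ^ (2 * D) * b ^ 4 * L ^ 3 := by gcongr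
    rw [mul_comm 2 D, pow_mul] at h1
    exact (Nat.pow_le_pow_iff_left (by norm_num)).mp h1
  have hκv : κ ≤ v := (Nat.le_self_pow (by omega) κ).trans hκDv
  have hκD1 : 1 ≤ κ ^ D := Nat.one_le_pow _ _ (by omega)
  -- the parameters
  obtain ⟨R, hR⟩ : ∃ R, R = 10 * b * L := ⟨_, rfl⟩
  obtain ⟨q, hq⟩ : ∃ q, q = v / s := ⟨_, rfl⟩
  obtain ⟨X, hX⟩ : ∃ X, X = 16 * b * R * κ ^ D * Z := ⟨_, rfl⟩
  have hR1 : 1 ≤ R := by rw [hR]; exact Nat.one_le_iff_ne_zero.mpr (by positivity)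
  have hX1 : 1 ≤ X := by rw [hX]; exact Nat.one_le_iff_ne_zero.mpr (by positivity)
  have hsq : s * q ≤ v := by rw [hq]; exact Nat.mul_div_le v s
  have hvq : v < s * (q + 1) := by rw [hq]; exact Nat.lt_mul_div_succ v (by omega)
  have hX2 : X ^ 2 = 25600 * b ^ 4 * L ^ 2 * κ ^ (2 * D) * Z ^ 2 := by
    rw [hX, hR]; ring
  rcases lt_or_ge q X with hqX | hqX
  · -- small q
    have h1 : v < s * X := hvq.trans_le (Nat.mul_le_mul_left _ hqX)
    have h2 : v ^ 2 < (s * X) ^ 2 := Nat.pow_lt_pow_left h1 (by norm_num)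
    have h3 : (s * X) ^ 2 ≤ 2 ^ 26 * M * s ^ 2 * Z ^ 2 * κ ^ (2 * D) * b ^ 4 * L ^ 3 := by
      have h4 : L ^ 2 ≤ L ^ 3 := Nat.pow_le_pow_right (by omega) (by norm_num)
      calc (s * X) ^ 2 = 25600 * 1 * s ^ 2 * Z ^ 2 * κ ^ (2 * D) * b ^ 4 * L ^ 2 := by
            rw [mul_pow, hX2]; ring
        _ ≤ 2 ^ 26 * M * s ^ 2 * Z ^ 2 * κ ^ (2 * D) * b ^ 4 * L ^ 3 := by
            gcongr
            norm_num
    omega
  · obtain ⟨K', hK1, hK2⟩ := I.Px q X hX1 hqX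
    have hqv : q ≤ v := by rw [hq]; exact Nat.div_le_self v s
    have hK'L : K' + 1 ≤ 2 * L := by
      have h1 : 2 ^ K' ≤ q ^ 2 := by
        calc 2 ^ K' = 2 ^ K' * 1 := by ring
          _ ≤ 2 ^ K' * X ^ 2 := Nat.mul_le_mul_left _ (Nat.one_le_pow _ _ hX1)
          _ ≤ q ^ 2 := hK1
      have h2 : q ^ 2 < 2 ^ (2 * L) := by
        calc q ^ 2 ≤ v ^ 2 := Nat.pow_le_pow_left hqv 2
          _ < (2 ^ L) ^ 2 := Nat.pow_lt_pow_left hvL (by norm_num)
          _ = 2 ^ (2 * L) := by rw [← pow_mul, mul_comm]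
      have h3 : 2 ^ K' < 2 ^ (2 * L) := h1.trans_lt h2
      have := (Nat.pow_lt_pow_iff_right (by norm_num : 1 < 2)).mp h3
      omega
    have hSb : 2 * S + 1 ≤ 2 ^ b := by
      rw [hb, pow_succ]
      omega
    have P : Par v s q b R K' D Z (2 * S) := by
      refine ⟨hv, hb2, hR1, hs, ?_, hsq, hZ, ?_, by omega, ?_⟩
      · refine le_trans ?_ hqX
        rw [hX]
        calc 16 * b * R = 16 * b * R * 1 * 1 := by ring
          _ ≤ 16 * b * R * κ ^ D * Z := by gcongr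
      · rw [← hκ, ← hX]
        exact hK1
      · exact par_exp hb2 hL2 hvL (by rw [← hκ]; exact hκv) hK'L hSb hR
    have hyes' : ∀ x : Finset (Sym2 (Fin v)), HasCl s x → val c (inp (idp v) x) o = true :=
      fun x hx => hyes _ ((hasCl_iff s x).mp hx)
    have hno' : ∀ x : Finset (Sym2 (Fin v)), ¬ HasCl ((64 * b ^ 2) ^ D) x →
        val c (inp (idp v) x) o = false := by
      intro x hx
      apply hno
      have h1 : (SimpleGraph.fromEdgeSet {e | inp (idp v) x e = true}).CliqueFree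
          ((64 * b ^ 2) ^ D) := by
        by_contra h
        exact hx ((hasCl_iff _ x).mpr h)
      exact h1.mono hk
    have hsz : LayCirc.size c ≤ 2 * S := by
      have h1 : LayCirc.size c ≤ S := by
        unfold LayCirc.size
        refine (Finite.card_subtype_le _).trans ?_
        rw [Nat.card_eq_fintype_card, Fintype.card_fin]
      omega
    have key : 2 ^ K' ≤ 22 * (K' + 1) * (4 * M) := by
      rcases hM with h | h | h
      · refine (pat_thm I P le_rfl c o hM1 h hyes' hno').trans ?_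
        exact Nat.mul_le_mul_left _ (by omega)
      · exact mix_thm I P c hsz o h hyes' hno'
      · refine mix_thm I P c hsz o ?_ hyes' hno'
        have := numMixing_le c h.1
        omega
    have h1 : 2 ^ (K' + 1) ≤ 352 * L * M := by
      calc 2 ^ (K' + 1) = 2 * 2 ^ K' := by ring
        _ ≤ 2 * (22 * (K' + 1) * (4 * M)) := Nat.mul_le_mul_left _ key
        _ ≤ 2 * (22 * (2 * L) * (4 * M)) := by gcongr
        _ = 352 * L * M := by ring
    have hq1 : 1 ≤ q := hX1.trans hqX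
    have h2 : v < 2 * s * q := by
      calc v < s * (q + 1) := hvq
        _ ≤ s * (q + q) := by gcongr
        _ = 2 * s * q := by ring
    have h3 : v ^ 2 < (2 * s * q) ^ 2 := Nat.pow_lt_pow_left h2 (by norm_num)
    have h4 : (2 * s * q) ^ 2 ≤ 2 ^ 26 * M * s ^ 2 * Z ^ 2 * κ ^ (2 * D) * b ^ 4 * L ^ 3 := by
      calc (2 * s * q) ^ 2 = 4 * s ^ 2 * q ^ 2 := by ring
        _ ≤ 4 * s ^ 2 * (2 ^ (K' + 1) * X ^ 2) := Nat.mul_le_mul_left _ hK2.le
        _ ≤ 4 * s ^ 2 * (352 * L * M * X ^ 2) := by gcongr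
        _ = 36044800 * M * s ^ 2 * Z ^ 2 * κ ^ (2 * D) * b ^ 4 * L ^ 3 := by rw [hX2]; ring
        _ ≤ 2 ^ 26 * M * s ^ 2 * Z ^ 2 * κ ^ (2 * D) * b ^ 4 * L ^ 3 := by
            gcongr
            norm_num
    omega

end Pool.Agent.GR
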