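import Pool.Agent.Work.MP_71c844_lc.GR.MainB
import Pool.Agent.Work.MP_71c844_lc.GR.Final

/-!
# Block GR: the choice of the parameters, sharp version
-/

namespace Pool.Agent.GR

open Finset Pool.Agent.GapLim Pool.Agent.LayCirc
open Pool.Agent.NegLim (gval numNot lowSets)

lemma exists_scale (Y Q : ℕ) (hY : 1 ≤ Y) (hYQ : Y ≤ Q) :
    ∃ K' : ℕ, 2 ^ K' * Y ≤ Q ∧ Q < 2 ^ (K' + 1) * Y := by
  refine ⟨Nat.log 2 (Q / Y), ?_, ?_⟩
  · have h1 : Q / Y ≠ 0 := by
      have := Nat.div_pos hYQ (by omega)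
      omega
    have h2 := Nat.pow_log_le_self 2 h1
    exact (Nat.mul_le_mul_right _ h2).trans (Nat.div_mul_le_self _ _)
  · have h2 := Nat.lt_pow_succ_log_self (b := 2) (by norm_num) (Q / Y)
    have h3 : Q < Y * (Q / Y + 1) := Nat.lt_mul_div_succ Q (by omega)
    calc Q < Y * (Q / Y + 1) := h3
      _ ≤ Y * 2 ^ (Nat.log 2 (Q / Y) + 1) := Nat.mul_le_mul_left _ h2
      _ = 2 ^ (Nat.log 2 (Q / Y) + 1) * Y := mul_comm _ _

theorem gap_mainB (I : ItemsB) (v s k w D M S : ℕ) (hv : 2 ≤ v) (hs : 1 ≤ s) (hw : 1 ≤ w)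
    (hk : (Nat.log 2 v + 1) * (64 * (w + 1) ^ 2) ^ D ≤ k)
    (hD : v ^ 12 * (2 ^ 10 * s * k * (w + 1) ^ 2 * (Nat.log 2 v + 1)) ^ D ≤ v ^ D)
    (c : Circuit (Sym2 (Fin v)) S) (o : Fin S) (hS : S < 2 ^ w)
    (hM : (∀ x : ℕ → (Sym2 (Fin v) → Bool), Monotone x →
        (Set.range fun i => pattern c (x i)).ncard ≤ M) ∨
      wires c + numMixing c + 1 ≤ M ∨ (FormulaLike c ∧ wires c + numArb c + 1 ≤ M))
    (hyes : ∀ x : Sym2 (Fin v) → Bool,
      ¬ (SimpleGraph.fromEdgeSet {e | x e = true}).CliqueFree s → val c x o = true)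
    (hno : ∀ x : Sym2 (Fin v) → Bool,
      (SimpleGraph.fromEdgeSet {e | x e = true}).CliqueFree k → val c x o = false) :
    v ^ 2 < 2 ^ 28 * M * s ^ 2 * k * (w + 1) ^ 4 * (Nat.log 2 v + 1) ^ 3 := by
  -- names for the parameters
  obtain ⟨b, hb⟩ : ∃ b, b = w + 1 := ⟨_, rfl⟩
  obtain ⟨L, hL⟩ : ∃ L, L = Nat.log 2 v + 1 := ⟨_, rfl⟩
  obtain ⟨κ, hκ⟩ : ∃ κ, κ = 64 * b ^ 2 := ⟨_, rfl⟩
  rw [← hb, ← hL] at hk hD ⊢
  rw [← hκ] at hk
  have hb2 : 2 ≤ b := by omega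
  have hL2 : 2 ≤ L := by
    have : 1 ≤ Nat.log 2 v := Nat.log_pos (by norm_num) hv
    omega
  have hvL : v < 2 ^ L := by rw [hL]; exact Nat.lt_pow_succ_log_self (by norm_num) v
  have hκ1 : 1 ≤ κ := by rw [hκ]; have : 1 ≤ b ^ 2 := Nat.one_le_pow _ _ (by omega); omega
  have hκD1 : 1 ≤ κ ^ D := Nat.one_le_pow _ _ (by omega)
  have hk1 : 1 ≤ k := by
    refine le_trans ?_ hk
    exact Nat.one_le_iff_ne_zero.mpr (by positivity)
  have hM1 : 1 ≤ M := by
    rcases hM with h | h | h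
    · have h1 := h (fun _ _ => true) monotone_const
      rw [Set.range_const, Set.ncard_singleton] at h1
      exact h1
    · omega
    · omega
  obtain ⟨T, hT⟩ : ∃ T, T = 2 ^ 10 * s * k * b ^ 2 * L := ⟨_, rfl⟩
  rw [← hT] at hD
  have hT1 : 1 ≤ T := by rw [hT]; exact Nat.one_le_iff_ne_zero.mpr (by positivity)
  have hv12 : 1 < v ^ 12 := Nat.one_lt_pow (by norm_num) (by omega)
  have hD1 : 1 ≤ D := by
    by_contra h
    have hD0 : D = 0 := by omega
    rw [hD0, pow_zero, pow_zero] at hD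
    omega
  have hTv : T ≤ v := by
    have h1 : T ^ D ≤ v ^ D := by
      refine le_trans ?_ hD
      exact Nat.le_mul_of_pos_left _ (by omega)
    exact (Nat.pow_le_pow_iff_left (by omega)).mp h1
  have hκk : κ ≤ k := by
    calc κ ≤ κ ^ D := Nat.le_self_pow (by omega) κ
      _ = 1 * κ ^ D := (one_mul _).symm
      _ ≤ L * κ ^ D := Nat.mul_le_mul_right _ (by omega)
      _ ≤ k := hk
  have hkT : k ≤ T := by
    rw [hT]
    calc k = 1 * 1 * k * 1 * 1 := by ring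
      _ ≤ 2 ^ 10 * s * k * b ^ 2 * L := by
        gcongr
        · norm_num
        · exact Nat.one_le_pow _ _ (by omega)
        · omega
  -- the parameters
  obtain ⟨R, hR⟩ : ∃ R, R = 10 * b * L := ⟨_, rfl⟩
  obtain ⟨q, hq⟩ : ∃ q, q = v / s := ⟨_, rfl⟩
  obtain ⟨A, hA⟩ : ∃ A, A = 16 * b * R := ⟨_, rfl⟩
  have hA' : A = 160 * b ^ 2 * L := by rw [hA, hR]; ring
  have hA1 : 1 ≤ A := by rw [hA']; exact Nat.one_le_iff_ne_zero.mpr (by positivity)
  have hR1 : 1 ≤ R := by rw [hR]; exact Nat.one_le_iff_ne_zero.mpr (by positivity)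
  have hsq : s * q ≤ v := by rw [hq]; exact Nat.mul_div_le v s
  have hvq : v < s * (q + 1) := by rw [hq]; exact Nat.lt_mul_div_succ v (by omega)
  have hkA1 : 1 ≤ k * A := Nat.one_le_iff_ne_zero.mpr (by positivity)
  have hkAq : k * A ≤ q := by
    rw [hq, Nat.le_div_iff_mul_le (by omega)]
    refine le_trans ?_ hTv
    rw [hT, hA']
    calc k * (160 * b ^ 2 * L) * s = 160 * s * k * b ^ 2 * L := by ring
      _ ≤ 2 ^ 10 * s * k * b ^ 2 * L := by
        gcongr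
        norm_num
  have hAq : A ≤ q := by
    refine le_trans ?_ hkAq
    exact Nat.le_mul_of_pos_left _ (by omega)
  obtain ⟨B, hB⟩ : ∃ B, B = q / (k * A) := ⟨_, rfl⟩
  have hB1 : 1 ≤ B := by rw [hB]; exact Nat.div_pos hkAq (by omega)
  have hBq : B * (k * A) ≤ q := by rw [hB]; exact Nat.div_mul_le_self _ _
  have hqB : q < k * A * (B + 1) := by rw [hB]; exact Nat.lt_mul_div_succ q (by omega)
  have hq1 : 1 ≤ q := hA1.trans hAq
  have h2 : v < 2 * s * q := by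
    calc v < s * (q + 1) := hvq
      _ ≤ s * (q + q) := by gcongr
      _ = 2 * s * q := by ring
  have hvT : v ≤ T * B := by
    have h3 : q ≤ 2 * (k * A) * B := by
      calc q ≤ k * A * (B + 1) := hqB.le
        _ ≤ k * A * (B + B) := by gcongr
        _ = 2 * (k * A) * B := by ring
    calc v ≤ 2 * s * q := h2.le
      _ ≤ 2 * s * (2 * (k * A) * B) := by gcongr
      _ = 640 * s * k * b ^ 2 * L * B := by rw [hA']; ring
      _ ≤ 2 ^ 10 * s * k * b ^ 2 * L * B := by gcongr; norm_num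
      _ = T * B := by rw [hT]
  have hvB : v ^ 12 ≤ B ^ D := by
    have h3 : v ^ 12 * T ^ D ≤ B ^ D * T ^ D := by
      calc v ^ 12 * T ^ D ≤ v ^ D := hD
        _ ≤ (T * B) ^ D := Nat.pow_le_pow_left hvT D
        _ = B ^ D * T ^ D := by rw [mul_pow, mul_comm]
    exact Nat.le_of_mul_le_mul_right h3 (by positivity)
  have h3 : v ^ 2 < (2 * s * q) ^ 2 := Nat.pow_lt_pow_left h2 (by norm_num)
  have h4 : (2 * s * q) ^ 2 = 4 * s ^ 2 * q ^ 2 := by ring
  obtain ⟨Y, hY⟩ : ∃ Y, Y = 6 * k * A ^ 2 := ⟨_, rfl⟩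
  have hY1 : 1 ≤ Y := by rw [hY]; exact Nat.one_le_iff_ne_zero.mpr (by positivity)
  have hY2 : Y = 153600 * k * b ^ 4 * L ^ 2 := by rw [hY, hA']; ring
  rcases lt_or_ge (q ^ 2) Y with hqY | hqY
  · -- small q
    calc v ^ 2 < (2 * s * q) ^ 2 := h3
      _ = 4 * s ^ 2 * q ^ 2 := h4
      _ ≤ 4 * s ^ 2 * Y := Nat.mul_le_mul_left _ hqY.le
      _ = 614400 * 1 * s ^ 2 * k * b ^ 4 * (L ^ 2 * 1) := by rw [hY2]; ring
      _ ≤ 2 ^ 28 * M * s ^ 2 * k * b ^ 4 * (L ^ 2 * L) := by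
          gcongr
          · norm_num
          · omega
      _ = 2 ^ 28 * M * s ^ 2 * k * b ^ 4 * L ^ 3 := by ring
  · obtain ⟨K', hK1, hK2⟩ := exists_scale Y (q ^ 2) hY1 hqY
    have hqv : q ≤ v := by rw [hq]; exact Nat.div_le_self v s
    have hK'L : K' + 1 ≤ 2 * L := by
      have h1 : 2 ^ K' ≤ q ^ 2 := by
        calc 2 ^ K' = 2 ^ K' * 1 := by ring
          _ ≤ 2 ^ K' * Y := Nat.mul_le_mul_left _ hY1
          _ ≤ q ^ 2 := hK1
      have h2 : q ^ 2 < 2 ^ (2 * L) := by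
        calc q ^ 2 ≤ v ^ 2 := Nat.pow_le_pow_left hqv 2
          _ < (2 ^ L) ^ 2 := Nat.pow_lt_pow_left hvL (by norm_num)
          _ = 2 ^ (2 * L) := by rw [← pow_mul, mul_comm]
      have h3 : 2 ^ K' < 2 ^ (2 * L) := h1.trans_lt h2
      have := (Nat.pow_lt_pow_iff_right (by norm_num : 1 < 2)).mp h3
      omega
    have hSb : 2 * S + 1 ≤ 2 ^ b := by
      rw [hb, pow_succ]
      omega
    have P : ParB v s q b R K' D B L k (2 * S) := by
      refine ⟨hv, hb2, hR1, hs, hD1, ?_, hsq, hvL, ?_, ?_, hvB, ?_, by omega, ?_⟩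
      · rw [← hA]; exact hAq
      · rw [← hκ]; exact hk
      · rw [← hA, mul_assoc]; exact hBq
      · rw [← hA, ← hY]; exact hK1
      · exact par_exp hb2 hL2 hvL (by rw [← hκ]; exact (hκk.trans hkT).trans hTv) hK'L hSb hR
    have hyes' : ∀ x : Finset (Sym2 (Fin v)), HasCl s x → val c (inp (idp v) x) o = true :=
      fun x hx => hyes _ ((hasCl_iff s x).mp hx)
    have hno' : ∀ x : Finset (Sym2 (Fin v)), ¬ HasCl k x →
        val c (inp (idp v) x) o = false := by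
      intro x hx
      apply hno
      by_contra h
      exact hx ((hasCl_iff _ x).mpr h)
    have hsz : LayCirc.size c ≤ 2 * S := by
      have h1 : LayCirc.size c ≤ S := by
        unfold LayCirc.size
        refine (Finite.card_subtype_le _).trans ?_
        rw [Nat.card_eq_fintype_card, Fintype.card_fin]
      omega
    have key : 2 ^ K' ≤ 22 * (K' + 1) * (4 * M) := by
      rcases hM with h | h | h
      · refine (pat_thmB I P le_rfl c o hM1 h hyes' hno').trans ?_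
        exact Nat.mul_le_mul_left _ (by omega)
      · exact mix_thmB I P c hsz o h hyes' hno'
      · refine mix_thmB I P c hsz o ?_ hyes' hno'
        have := numMixing_le c h.1
        omega
    have h1 : 2 ^ (K' + 1) ≤ 352 * L * M := by
      calc 2 ^ (K' + 1) = 2 * 2 ^ K' := by ring
        _ ≤ 2 * (22 * (K' + 1) * (4 * M)) := Nat.mul_le_mul_left _ key
        _ ≤ 2 * (22 * (2 * L) * (4 * M)) := by gcongr
        _ = 352 * L * M := by ring
    calc v ^ 2 < (2 * s * q) ^ 2 := h3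
      _ = 4 * s ^ 2 * q ^ 2 := h4
      _ ≤ 4 * s ^ 2 * (2 ^ (K' + 1) * Y) := Nat.mul_le_mul_left _ hK2.le
      _ ≤ 4 * s ^ 2 * (352 * L * M * Y) := by gcongr
      _ = 216268800 * M * s ^ 2 * k * b ^ 4 * L ^ 3 := by rw [hY2]; ring
      _ ≤ 2 ^ 28 * M * s ^ 2 * k * b ^ 4 * L ^ 3 := by
          gcongr
          norm_num

end Pool.Agent.GR
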