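import Pool.Agent.Work.MP_71c844_lc.GR.Defs

/-!
# Block GR: the chain, expectations of functionals of the trajectory, and the separation bound
-/

namespace Pool.Agent.GR

open Finset Pool.Agent.GapLim

section ops

variable {E Ω : Type} [Fintype Ω] [DecidableEq E] {p : Ω → ℝ} {D : Ω → Finset E}

lemma Sn_zero (φ : Finset E → ℝ) : Sn p D 0 φ = φ := rfl

lemma Sn_succ (n : ℕ) (φ : Finset E → ℝ) : Sn p D (n + 1) φ = S1 p D (Sn p D n φ) :=
  Function.iterate_succ_apply' _ _ _

lemma S1_mono (h0 : ∀ ω, 0 ≤ p ω) {φ ψ : Finset E → ℝ} (h : ∀ y, φ y ≤ ψ y) (x : Finset E) :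
    S1 p D φ x ≤ S1 p D ψ x :=
  Finset.sum_le_sum fun ω _ => mul_le_mul_of_nonneg_left (h _) (h0 ω)

lemma Sn_mono (h0 : ∀ ω, 0 ≤ p ω) {φ ψ : Finset E → ℝ} (h : ∀ y, φ y ≤ ψ y) (n : ℕ)
    (x : Finset E) : Sn p D n φ x ≤ Sn p D n ψ x := by
  induction n generalizing x with
  | zero => exact h x
  | succ n ih => rw [Sn_succ, Sn_succ]; exact S1_mono h0 ih x

lemma S1_const (h1 : ∑ ω, p ω = 1) (c : ℝ) (x : Finset E) : S1 p D (fun _ => c) x = c := by
  rw [S1, ← Finset.sum_mul, h1, one_mul]

lemma Sn_const (h1 : ∑ ω, p ω = 1) (c : ℝ) (n : ℕ) (x : Finset E) :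
    Sn p D n (fun _ => c) x = c := by
  induction n generalizing x with
  | zero => rfl
  | succ n ih =>
    rw [Sn_succ]
    have : Sn p D n (fun _ : Finset E => c) = fun _ => c := funext ih
    rw [this, S1_const h1]

lemma Sn_fadd (φ ψ : Finset E → ℝ) (n : ℕ) (x : Finset E) :
    Sn p D n (fun y => φ y + ψ y) x = Sn p D n φ x + Sn p D n ψ x := by
  induction n generalizing x with
  | zero => rfl
  | succ n ih =>
    rw [Sn_succ, Sn_succ, Sn_succ]
    have : Sn p D n (fun y => φ y + ψ y) = fun y => Sn p D n φ y + Sn p D n ψ y := funext ih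
    rw [this]
    simp only [S1, mul_add, Finset.sum_add_distrib]

lemma Sn_smul (c : ℝ) (φ : Finset E → ℝ) (n : ℕ) (x : Finset E) :
    Sn p D n (fun y => c * φ y) x = c * Sn p D n φ x := by
  induction n generalizing x with
  | zero => rfl
  | succ n ih =>
    rw [Sn_succ, Sn_succ]
    have : Sn p D n (fun y => c * φ y) = fun y => c * Sn p D n φ y := funext ih
    rw [this]
    simp only [S1, Finset.mul_sum]
    refine Finset.sum_congr rfl fun z _ => by ring

lemma Sn_sum {ι : Type*} (h1 : ∑ ω, p ω = 1) (s : Finset ι) (φ : ι → Finset E → ℝ) (n : ℕ)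
    (x : Finset E) : Sn p D n (fun y => ∑ i ∈ s, φ i y) x = ∑ i ∈ s, Sn p D n (φ i) x := by
  classical
  induction s using Finset.induction_on with
  | empty => simp [Sn_const h1]
  | insert a s ha ih =>
    simp only [Finset.sum_insert ha]
    rw [Sn_fadd, ih]

lemma Sn_fsub (φ ψ : Finset E → ℝ) (n : ℕ) (x : Finset E) :
    Sn p D n (fun y => φ y - ψ y) x = Sn p D n φ x - Sn p D n ψ x := by
  have h := Sn_fadd (p := p) (D := D) (fun y => φ y - ψ y) ψ n x
  simp only [sub_add_cancel] at h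
  linarith

/-- translation -/
lemma Sn_translate (φ : Finset E → ℝ) (n : ℕ) (x : Finset E) :
    Sn p D n φ x = Sn p D n (fun z => φ (x ∪ z)) ∅ := by
  have : ∀ u, Sn p D n φ (x ∪ u) = Sn p D n (fun z => φ (x ∪ z)) u := by
    intro u
    induction n generalizing u with
    | zero => rfl
    | succ n ih =>
      rw [Sn_succ, Sn_succ]
      simp only [S1]
      refine Finset.sum_congr rfl fun z _ => ?_
      rw [Finset.union_assoc, ih]
  simpa using this ∅

lemma Sn_le_self (h0 : ∀ ω, 0 ≤ p ω) (h1 : ∑ ω, p ω = 1) {φ : Finset E → ℝ} (hφ : AntiS φ)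
    (n : ℕ) (x : Finset E) : Sn p D n φ x ≤ φ x := by
  rw [Sn_translate φ n x]
  calc Sn p D n (fun z => φ (x ∪ z)) ∅ ≤ Sn p D n (fun _ => φ x) ∅ :=
        Sn_mono h0 (fun z => hφ _ _ Finset.subset_union_left) n ∅
    _ = φ x := Sn_const h1 _ _ _

/-- Expectation of a functional of the trajectory (of `n` steps) of the chain started at `x`. -/
noncomputable def PE (p : Ω → ℝ) (D : Ω → Finset E) :
    ℕ → ((ℕ → Finset E) → ℝ) → Finset E → ℝ
  | 0, Ψ, x => Ψ (fun _ => x)
  | n + 1, Ψ, x => S1 p D (fun y => PE p D n (fun s => Ψ (fun i => Nat.casesOn i x s)) y) x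

lemma PE_le (h0 : ∀ ω, 0 ≤ p ω) (h1 : ∑ ω, p ω = 1) (n : ℕ) :
    ∀ (Ψ : (ℕ → Finset E) → ℝ) (C : ℝ)
    (x : Finset E), (∀ s : ℕ → Finset E, s 0 = x → Monotone s → Ψ s ≤ C) → PE p D n Ψ x ≤ C := by
  induction n with
  | zero =>
    intro Ψ C x h
    exact h _ rfl monotone_const
  | succ n ih =>
    intro Ψ C x h
    show S1 p D (fun y => PE p D n (fun s => Ψ (fun i => Nat.casesOn i x s)) y) x ≤ C
    have hC : ∑ ω, p ω * C = C := by
      rw [← Finset.sum_mul, h1, one_mul]
    rw [← hC]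
    unfold S1
    refine Finset.sum_le_sum fun ω _ => mul_le_mul_of_nonneg_left ?_ (h0 ω)
    refine ih _ C (x ∪ D ω) fun s hs0 hs => ?_
    refine h _ rfl ?_
    apply monotone_nat_of_le_succ
    intro i
    cases i with
    | zero =>
      show x ≤ s 0
      rw [hs0]
      exact Finset.subset_union_left
    | succ i => exact hs (Nat.le_succ i)

lemma PE_add (n : ℕ) : ∀ (Ψ Ψ' : (ℕ → Finset E) → ℝ) (x : Finset E),
    PE p D n (fun s => Ψ s + Ψ' s) x = PE p D n Ψ x + PE p D n Ψ' x := by
  induction n with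
  | zero => intro Ψ Ψ' x; rfl
  | succ n ih =>
    intro Ψ Ψ' x
    show S1 p D _ x = S1 p D _ x + S1 p D _ x
    unfold S1
    rw [← Finset.sum_add_distrib]
    refine Finset.sum_congr rfl fun z _ => ?_
    rw [← mul_add, ← ih]

lemma PE_zero (n : ℕ) : ∀ (x : Finset E), PE p D n (fun _ => 0) x = 0 := by
  induction n with
  | zero => intro x; rfl
  | succ n ih =>
    intro x
    show S1 p D _ x = 0
    unfold S1
    refine Finset.sum_eq_zero fun z _ => ?_
    show p z * PE p D n (fun _ => 0) (x ∪ D z) = 0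
    rw [ih, mul_zero]

lemma PE_sum {ι : Type*} (n : ℕ) (t : Finset ι) (Ψ : ι → (ℕ → Finset E) → ℝ)
    (x : Finset E) : PE p D n (fun s => ∑ i ∈ t, Ψ i s) x = ∑ i ∈ t, PE p D n (Ψ i) x := by
  classical
  induction t using Finset.induction_on with
  | empty => simp [PE_zero]
  | insert a s ha ih =>
    simp only [Finset.sum_insert ha]
    rw [PE_add, ih]

lemma PE_const (h1 : ∑ ω, p ω = 1) (m : ℕ) (c : ℝ) (y : Finset E) :
    PE p D m (fun _ => c) y = c := by
  induction m generalizing y with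
  | zero => rfl
  | succ m ihm =>
    show S1 p D _ y = c
    unfold S1
    have : ∀ z ∈ (univ : Finset Ω),
        p z * PE p D m (fun _ => c) (y ∪ D z) = p z * c := fun z _ => by rw [ihm]
    rw [Finset.sum_congr rfl this, ← Finset.sum_mul, h1, one_mul]

/-- one-time marginals -/
lemma PE_one (h1 : ∑ ω, p ω = 1) (ψ : Finset E → ℝ) : ∀ (n i : ℕ), i ≤ n → ∀ x : Finset E,
    PE p D n (fun s => ψ (s i)) x = Sn p D i ψ x := by
  intro n
  induction n with
  | zero =>
    intro i hi x
    obtain rfl : i = 0 := by omega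
    rfl
  | succ n ih =>
    intro i hi x
    cases i with
    | zero =>
      show S1 p D (fun y => PE p D n (fun _ => ψ x) y) x = ψ x
      have : (fun y : Finset E => PE p D n (fun _ => ψ x) y) = fun _ => ψ x := by
        funext y
        exact PE_const h1 n _ y
      rw [this, S1_const h1]
    | succ i =>
      rw [Sn_succ]
      show S1 p D (fun y => PE p D n (fun s => ψ (s i)) y) x = S1 p D (Sn p D i ψ) x
      congr 1
      funext y
      exact ih i (by omega) y

/-- two-time marginals -/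
lemma PE_two (h1 : ∑ ω, p ω = 1) (χ : Finset E → Finset E → ℝ) (r : ℕ) : ∀ (n i : ℕ), i + r ≤ n →
    ∀ x : Finset E, PE p D n (fun s => χ (s i) (s (i + r))) x =
      Sn p D i (fun y => Sn p D r (χ y) y) x := by
  intro n
  induction n with
  | zero =>
    intro i hi x
    obtain rfl : i = 0 := by omega
    obtain rfl : r = 0 := by omega
    rfl
  | succ n ih =>
    intro i hi x
    cases i with
    | zero =>
      rw [Sn_zero]
      have h := PE_one (p := p) (D := D) h1 (χ x) (n + 1) r (by omega) x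
      rw [← h]
      show S1 p D _ x = S1 p D _ x
      congr 1
      funext y
      congr 1
      funext s
      simp only [Nat.zero_add]
      rfl
    | succ i =>
      rw [Sn_succ]
      have e : i + 1 + r = i + r + 1 := by omega
      show S1 p D (fun y => PE p D n (fun s => χ (s i) (Nat.casesOn (i + 1 + r) x s)) y) x = _
      rw [e]
      show S1 p D (fun y => PE p D n (fun s => χ (s i) (s (i + r))) y) x = _
      congr 1
      funext y
      exact ih i (by omega) y

open Classical in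
/-- The time that the chain spends in states from which `r` more steps suffice, for adaptively
chosen functions. -/
lemma chain_time {H : Type*} (h0 : ∀ ω, 0 ≤ p ω) (h1 : ∑ ω, p ω = 1) (st : Finset E → H)
    (φ : H → Finset E → ℝ)
    (hφ : ∀ h, AntiS (φ h)) (hφ0 : ∀ h y, 0 ≤ φ h y) (hφ1 : ∀ h y, φ h y ≤ 1)
    (r m P : ℕ) (ε : ℝ) (hε : 0 ≤ ε)
    (hP : ∀ s : ℕ → Finset E, Monotone s → ((range m).image (fun i => st (s i))).card ≤ P) :
    ∑ i ∈ range m, Sn p D i (fun x => if Sn p D r (φ (st x)) x ≤ ε then φ (st x) x else 0) ∅ ≤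
      P * r + m * ε := by
  have hpt : ∀ x, (if Sn p D r (φ (st x)) x ≤ ε then φ (st x) x else 0) ≤
      ε + (φ (st x) x - Sn p D r (φ (st x)) x) := by
    intro x
    have := Sn_le_self (D := D) h0 h1 (hφ (st x)) r x
    split_ifs with h <;> linarith
  let χ : Finset E → Finset E → ℝ := fun a b => φ (st a) a - φ (st a) b
  have h2 : ∀ i, Sn p D i (fun x => if Sn p D r (φ (st x)) x ≤ ε then φ (st x) x else 0) ∅ ≤
      ε + Sn p D i (fun y => Sn p D r (χ y) y) ∅ := by
    intro i
    calc Sn p D i (fun x => if Sn p D r (φ (st x)) x ≤ ε then φ (st x) x else 0) ∅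
        ≤ Sn p D i (fun x => ε + Sn p D r (χ x) x) ∅ := by
          apply Sn_mono h0
          intro x
          refine (hpt x).trans (le_of_eq ?_)
          congr 1
          show φ (st x) x - Sn p D r (φ (st x)) x = Sn p D r (fun b => φ (st x) x - φ (st x) b) x
          rw [Sn_fsub, Sn_const h1]
      _ = ε + Sn p D i (fun y => Sn p D r (χ y) y) ∅ := by
          rw [Sn_fadd, Sn_const h1]
  have h3 : ∑ i ∈ range m, Sn p D i (fun y => Sn p D r (χ y) y) ∅ ≤ P * r := by
    have e1 : ∑ i ∈ range m, Sn p D i (fun y => Sn p D r (χ y) y) ∅ =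
        PE p D (m + r) (fun s => ∑ i ∈ range m, χ (s i) (s (i + r))) ∅ := by
      rw [PE_sum]
      refine Finset.sum_congr rfl fun i hi => ?_
      rw [Finset.mem_range] at hi
      rw [PE_two h1 χ r (m + r) i (by omega)]
    rw [e1]
    apply PE_le h0 h1
    intro s _ hs
    exact NegLim.det_shift st φ hφ hφ0 hφ1 r m P s hs (hP s hs)
  calc _ ≤ ∑ i ∈ range m, (ε + Sn p D i (fun y => Sn p D r (χ y) y) ∅) :=
        Finset.sum_le_sum fun i _ => h2 i
    _ = m * ε + ∑ i ∈ range m, Sn p D i (fun y => Sn p D r (χ y) y) ∅ := by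
        rw [Finset.sum_add_distrib, Finset.sum_const, card_range, nsmul_eq_mul]
    _ ≤ P * r + m * ε := by linarith

section main

variable {U : Type} [Fintype U] [Nonempty U]

open Classical in
/-- Separation bound for adaptively chosen functions. -/
lemma sep_adaptive {H : Type*} {K m P : ℕ} {ε : ℝ} {Q : U → Finset E}
    (h0 : ∀ ω, 0 ≤ p ω) (h1 : ∑ ω, p ω = 1)
    (hm : 2 ^ K = 2 * m) (hK : 1 ≤ K) (hP1 : 1 ≤ P) (hε0 : 0 ≤ ε) (hmε : m * ε ≤ 1)
    (st : Finset E → H) (G : H → Finset E → Bool) (hG : ∀ h, DichG p D K ε Q (G h))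
    (hP : ∀ s : ℕ → Finset E, Monotone s → ((range m).image (fun i => st (s i))).card ≤ P) :
    ∑ i ∈ range m, Sn p D i (fun x =>
      (if G (st x) x = true then (0 : ℝ) else 1) *
        (((univ.filter (fun u => G (st x) (x ∪ Q u) = true)).card : ℝ) / Fintype.card U)) ∅ ≤
      11 * K * P := by
  have hUpos : (0 : ℝ) < Fintype.card U := by exact_mod_cast Fintype.card_pos
  let φ : H → Finset E → ℝ := fun h x => if G h x = true then 0 else 1
  have hφ0 : ∀ h x, 0 ≤ φ h x := fun h x => by simp only [φ]; split_ifs <;> norm_num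
  have hφ1 : ∀ h x, φ h x ≤ 1 := fun h x => by simp only [φ]; split_ifs <;> norm_num
  have hφa : ∀ h, AntiS (φ h) := by
    intro h x y hxy
    simp only [φ]
    split_ifs with e1 e2 e2
    · exact le_rfl
    · exact zero_le_one
    · exact absurd ((hG h).mono x y hxy e2) e1
    · exact le_rfl
  let pp : H → Finset E → ℝ := fun h x =>
    ((univ.filter (fun u => G h (x ∪ Q u) = true)).card : ℝ) / Fintype.card U
  have hp0 : ∀ h x, 0 ≤ pp h x := fun h x => by simp only [pp]; positivity
  have hp1 : ∀ h x, pp h x ≤ 1 := fun h x => by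
    simp only [pp]; rw [div_le_one hUpos]
    exact_mod_cast Finset.card_filter_le _ _
  let η : ℕ → ℝ := fun k => 2 / 2 ^ k
  have hη0 : ∀ k, 0 ≤ η k := fun k => by
    simp only [η]; positivity
  -- dichotomy
  have hdich : ∀ k, k ≤ K → ∀ h x, Sn p D (2 ^ k) (φ h) x ≤ ε ∨ pp h x ≤ η k :=
    fun k hk h x => (hG h).dich k hk x
  -- the pointwise bound
  let Dk : ℕ → Finset E → ℝ := fun k x =>
    if Sn p D (2 ^ k) (φ (st x)) x ≤ ε then φ (st x) x else 0
  have hD0 : ∀ k x, 0 ≤ Dk k x := fun k x => by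
    simp only [Dk]; split_ifs
    · exact hφ0 _ x
    · exact le_rfl
  have hpt : ∀ x, φ (st x) x * pp (st x) x ≤
      Dk 0 x + ∑ k ∈ range K, η k * Dk (k + 1) x + η K := by
    intro x
    have hφ01 : φ (st x) x = 0 ∨ φ (st x) x = 1 := by
      simp only [φ]; split_ifs <;> simp
    rcases hφ01 with hφx | hφx
    · rw [hφx, zero_mul]
      have : 0 ≤ ∑ k ∈ range K, η k * Dk (k + 1) x :=
        Finset.sum_nonneg fun k _ => mul_nonneg (hη0 k) (hD0 _ _)
      linarith [hD0 0 x, hη0 K]
    · rw [hφx, one_mul]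
      have key : ∀ K', K' ≤ K → (pp (st x) x ≤ Dk 0 x + ∑ k ∈ range K', η k * Dk (k + 1) x) ∨
          ¬ Sn p D (2 ^ K') (φ (st x)) x ≤ ε := by
        intro K'
        induction K' with
        | zero =>
          intro _
          by_cases hh : Sn p D (2 ^ 0) (φ (st x)) x ≤ ε
          · left
            have : Dk 0 x = 1 := by simp only [Dk]; rw [if_pos hh, hφx]
            rw [this]; simpa using hp1 (st x) x
          · right; exact hh
        | succ K' ih =>
          intro hK'
          rcases ih (by omega) with hh | hh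
          · left
            rw [Finset.sum_range_succ]
            have := mul_nonneg (hη0 K') (hD0 (K' + 1) x)
            linarith
          · by_cases h2 : Sn p D (2 ^ (K' + 1)) (φ (st x)) x ≤ ε
            · left
              have e1 : pp (st x) x ≤ η K' := (hdich K' (by omega) (st x) x).resolve_left hh
              have e2 : Dk (K' + 1) x = 1 := by simp only [Dk]; rw [if_pos h2, hφx]
              rw [Finset.sum_range_succ, e2, mul_one]
              have e3 : 0 ≤ ∑ k ∈ range K', η k * Dk (k + 1) x :=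
                Finset.sum_nonneg fun k _ => mul_nonneg (hη0 k) (hD0 _ _)
              linarith [hD0 0 x]
            · right; exact h2
      rcases key K le_rfl with hh | hh
      · linarith [hη0 K]
      · have e1 : pp (st x) x ≤ η K := (hdich K le_rfl (st x) x).resolve_left hh
        have e3 : 0 ≤ ∑ k ∈ range K, η k * Dk (k + 1) x :=
          Finset.sum_nonneg fun k _ => mul_nonneg (hη0 k) (hD0 _ _)
        linarith [hD0 0 x]
  have hsum : ∑ i ∈ range m, Sn p D i (fun x => φ (st x) x * pp (st x) x) ∅ ≤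
      ∑ i ∈ range m, Sn p D i (Dk 0) ∅ +
        ∑ k ∈ range K, η k * ∑ i ∈ range m, Sn p D i (Dk (k + 1)) ∅ + m * η K := by
    have e1 : ∀ i ∈ range m, Sn p D i (fun x => φ (st x) x * pp (st x) x) ∅ ≤
        Sn p D i (Dk 0) ∅ + ∑ k ∈ range K, η k * Sn p D i (Dk (k + 1)) ∅ + η K := by
      intro i _
      refine (Sn_mono h0 hpt i ∅).trans (le_of_eq ?_)
      rw [Sn_fadd, Sn_const h1, Sn_fadd, Sn_sum h1]
      congr 2
      refine Finset.sum_congr rfl fun k _ => ?_
      rw [Sn_smul]
    refine (Finset.sum_le_sum e1).trans (le_of_eq ?_)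
    rw [Finset.sum_add_distrib, Finset.sum_add_distrib, Finset.sum_const, card_range,
      nsmul_eq_mul, Finset.sum_comm]
    congr 2
    refine Finset.sum_congr rfl fun k _ => ?_
    rw [Finset.mul_sum]
  refine hsum.trans ?_
  have hK' : (1 : ℝ) ≤ K := by exact_mod_cast hK
  have hP' : (1 : ℝ) ≤ P := by exact_mod_cast hP1
  have hct : ∀ k, ∑ i ∈ range m, Sn p D i (Dk k) ∅ ≤ 2 * 2 ^ k * P := by
    intro k
    have := chain_time (D := D) h0 h1 st φ hφa hφ0 hφ1 (2 ^ k) m P ε hε0 hP
    have e1 : ∑ i ∈ range m, Sn p D i (Dk k) ∅ ≤ P * ((2 ^ k : ℕ) : ℝ) + m * ε := this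
    push_cast at e1
    have e2 : (1 : ℝ) ≤ 2 ^ k := one_le_pow₀ (by norm_num)
    have e3 : (1 : ℝ) ≤ 2 ^ k * P := one_le_mul_of_one_le_of_one_le e2 hP'
    linarith
  have t0 : ∑ i ∈ range m, Sn p D i (Dk 0) ∅ ≤ 2 * P := by
    have := hct 0
    rw [pow_zero, mul_one] at this
    exact this
  have t1 : ∀ k ∈ range K, η k * ∑ i ∈ range m, Sn p D i (Dk (k + 1)) ∅ ≤ 8 * P := by
    intro k _
    calc η k * ∑ i ∈ range m, Sn p D i (Dk (k + 1)) ∅ ≤ η k * (2 * 2 ^ (k + 1) * P) :=
          mul_le_mul_of_nonneg_left (hct (k + 1)) (hη0 k)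
      _ = 8 * P := by
          simp only [η]; rw [pow_succ]; field_simp; ring
  have t2 : (m : ℝ) * η K ≤ 1 := by
    have e1 : (2 : ℝ) ^ K = 2 * m := by exact_mod_cast hm
    have e3 : (m : ℝ) * η K = 1 := by
      simp only [η]
      have hM : (0 : ℝ) < 2 ^ K := by positivity
      rw [mul_div_assoc', div_eq_one_iff_eq hM.ne', e1]; ring
    exact e3.le
  have t3 := Finset.sum_le_sum t1
  rw [Finset.sum_const, card_range, nsmul_eq_mul] at t3
  have t4 : (1 : ℝ) * P ≤ K * P := mul_le_mul_of_nonneg_right hK' (by linarith)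
  have t5 : (11 : ℝ) * K * P = 8 * (K * P) + 3 * (K * P) := by ring
  have t6 : (K : ℝ) * (8 * P) = 8 * (K * P) := by ring
  rw [t6] at t3
  rw [t5]
  linarith

open Classical in
/-- The abstract lower bound for one adaptively chosen query. -/
theorem main_G {H : Type*} {K' P : ℕ} {ε : ℝ} {Q : U → Finset E}
    (h0 : ∀ ω, 0 ≤ p ω) (h1 : ∑ ω, p ω = 1)
    (hε0 : 0 ≤ ε) (hmε : 2 ^ K' * ε ≤ 1) (hP1 : 1 ≤ P)
    (st : Finset E → H) (G : H → Finset E → Bool)
    (hP : ∀ s : ℕ → Finset E, Monotone s → ∀ m, ((range m).image (fun i => st (s i))).card ≤ P)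
    (hG : ∀ h, DichG p D (K' + 1) ε Q (G h))
    (bad : Finset E → Prop)
    (hbad : ∀ i < 2 ^ K', Sn p D i (fun x => ind (bad x)) ∅ ≤ 1 / 2)
    (hcov : ∀ x, ¬ bad x → G (st x) x = false ∧ ∀ u, G (st x) (x ∪ Q u) = true) :
    2 ^ K' ≤ 22 * (K' + 1) * P := by
  set m : ℕ := 2 ^ K' with hmdef
  have hm : 2 ^ (K' + 1) = 2 * m := by rw [pow_succ, mul_comm]
  have hUpos : (0 : ℝ) < Fintype.card U := by exact_mod_cast Fintype.card_pos
  have hmε' : (m : ℝ) * ε ≤ 1 := by rw [hmdef]; push_cast; exact hmε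
  let ψ : Finset E → ℝ := fun x =>
    (if G (st x) x = true then (0 : ℝ) else 1) *
        (((univ.filter (fun u => G (st x) (x ∪ Q u) = true)).card : ℝ) / Fintype.card U)
  have hψ0 : ∀ x, 0 ≤ ψ x := by
    intro x
    simp only [ψ]
    apply mul_nonneg
    · split_ifs <;> norm_num
    · positivity
  have hcov' : ∀ x, 1 ≤ ind (bad x) + ψ x := by
    intro x
    by_cases hx : bad x
    · rw [ind_true hx]
      linarith [hψ0 x]
    · obtain ⟨h2, h3⟩ := hcov x hx
      have h4 : univ.filter (fun u => G (st x) (x ∪ Q u) = true) = univ :=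
        Finset.filter_true_of_mem fun u _ => h3 u
      have hψx : ψ x = 1 := by
        simp only [ψ]
        rw [h4, h2, Finset.card_univ, div_self hUpos.ne']
        simp
      rw [ind_false hx, hψx, zero_add]
  have hψ : ∑ s ∈ range m, Sn p D s ψ ∅ ≤ 11 * ((K' + 1 : ℕ) : ℝ) * P := by
    have := sep_adaptive (D := D) h0 h1 hm (Nat.succ_pos K') hP1 hε0 hmε' st G hG
      (fun s hs => hP s hs m)
    convert this using 4
  have htot : (m : ℝ) ≤ ∑ s ∈ range m, Sn p D s (fun x => ind (bad x)) ∅ +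
      ∑ s ∈ range m, Sn p D s ψ ∅ := by
    rw [← Finset.sum_add_distrib]
    have e1 : ∀ s ∈ range m, (1 : ℝ) ≤ Sn p D s (fun x => ind (bad x)) ∅ + Sn p D s ψ ∅ := by
      intro s _
      have := Sn_mono (D := D) h0 hcov' s ∅
      rw [Sn_const h1, Sn_fadd] at this
      exact this
    have := Finset.sum_le_sum e1
    simpa using this
  have e5 := Finset.sum_le_sum (fun s hs => hbad s (Finset.mem_range.mp hs))
  rw [Finset.sum_const, card_range, nsmul_eq_mul] at e5
  have e8 : (m : ℝ) / 2 ≤ 11 * ((K' + 1 : ℕ) : ℝ) * P := by linarith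
  have e9 : ((m : ℕ) : ℝ) ≤ ((22 * (K' + 1) * P : ℕ) : ℝ) := by
    push_cast at e8 ⊢
    linarith
  exact_mod_cast e9

/-- The abstract lower bound for families of queries. -/
theorem main_F {T : Type} [Fintype T] {K' : ℕ} {ε : ℝ} {Q : U → Finset E}
    (h0 : ∀ ω, 0 ≤ p ω) (h1 : ∑ ω, p ω = 1)
    (hε0 : 0 ≤ ε) (hmε : 2 ^ K' * ε ≤ 1)
    (G : T → Finset E → Bool)
    (hG : ∀ t, DichG p D (K' + 1) ε Q (G t))
    (bad : Finset E → Prop)
    (hbad : ∀ i < 2 ^ K', Sn p D i (fun x => ind (bad x)) ∅ ≤ 1 / 2)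
    (hcov : ∀ x, ¬ bad x → ∀ u, ∃ t, G t x = false ∧ G t (x ∪ Q u) = true) :
    2 ^ K' ≤ 22 * (K' + 1) * Fintype.card T := by
  classical
  set m : ℕ := 2 ^ K' with hmdef
  have hm : 2 ^ (K' + 1) = 2 * m := by rw [pow_succ, mul_comm]
  have hUpos : (0 : ℝ) < Fintype.card U := by exact_mod_cast Fintype.card_pos
  have hmε' : (m : ℝ) * ε ≤ 1 := by rw [hmdef]; push_cast; exact hmε
  let ψ : T → Finset E → ℝ := fun t x =>
    (if G t x = true then (0 : ℝ) else 1) *
        (((univ.filter (fun u => G t (x ∪ Q u) = true)).card : ℝ) / Fintype.card U)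
  have hψ0 : ∀ t x, 0 ≤ ψ t x := by
    intro t x
    simp only [ψ]
    apply mul_nonneg
    · split_ifs <;> norm_num
    · positivity
  have hcov' : ∀ x, 1 ≤ ind (bad x) + ∑ t, ψ t x := by
    intro x
    by_cases hx : bad x
    · rw [ind_true hx]
      have := Finset.sum_nonneg (fun t (_ : t ∈ (univ : Finset T)) => hψ0 t x)
      linarith
    · rw [ind_false hx, zero_add]
      -- count the planted sets
      have hcount : (Fintype.card U : ℝ) ≤ ∑ t : T, (if G t x = true then (0 : ℝ) else 1) *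
          ((univ.filter (fun u => G t (x ∪ Q u) = true)).card : ℝ) := by
        have e1 : ∀ u : U, (1 : ℝ) ≤ ∑ t : T, (if G t x = true then (0 : ℝ) else 1) *
            (if G t (x ∪ Q u) = true then (1 : ℝ) else 0) := by
          intro u
          obtain ⟨t, ht1, ht2⟩ := hcov x hx u
          have hnn : ∀ t ∈ (univ : Finset T), (0 : ℝ) ≤ (if G t x = true then (0 : ℝ) else 1) *
                (if G t (x ∪ Q u) = true then (1 : ℝ) else 0) := by
            intro t _; split_ifs <;> norm_num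
          have s1 := Finset.single_le_sum hnn (Finset.mem_univ t)
          refine le_trans (le_of_eq ?_) s1
          rw [ht1, ht2]
          norm_num
        have e2 := Finset.sum_le_sum (fun u (_ : u ∈ (univ : Finset U)) => e1 u)
        rw [Finset.sum_const, Finset.card_univ, nsmul_eq_mul, mul_one, Finset.sum_comm] at e2
        refine e2.trans (le_of_eq ?_)
        refine Finset.sum_congr rfl fun t _ => ?_
        rw [← Finset.mul_sum, Finset.sum_boole]
      have e3 : ∑ t, ψ t x = (∑ t : T, (if G t x = true then (0 : ℝ) else 1) *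
          ((univ.filter (fun u => G t (x ∪ Q u) = true)).card : ℝ)) / Fintype.card U := by
        rw [Finset.sum_div]
        refine Finset.sum_congr rfl fun t _ => ?_
        simp only [ψ]
        ring
      rw [e3, le_div_iff₀ hUpos, one_mul]
      exact hcount
  have hψ : ∀ t, ∑ s ∈ range m, Sn p D s (ψ t) ∅ ≤ 11 * ((K' + 1 : ℕ) : ℝ) := by
    intro t
    have := sep_adaptive (D := D) (P := 1) h0 h1 hm (Nat.succ_pos K') le_rfl hε0 hmε'
      (fun _ => ()) (fun _ => G t) (fun _ => hG t)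
      (fun s hs => by
        refine (Finset.card_le_one.mpr ?_)
        intro a _ b _
        rfl)
    rw [Nat.cast_one, mul_one] at this
    convert this using 4
  have htot : (m : ℝ) ≤ ∑ s ∈ range m, Sn p D s (fun x => ind (bad x)) ∅ +
      ∑ t : T, ∑ s ∈ range m, Sn p D s (ψ t) ∅ := by
    rw [Finset.sum_comm (s := univ), ← Finset.sum_add_distrib]
    have e1 : ∀ s ∈ range m, (1 : ℝ) ≤ Sn p D s (fun x => ind (bad x)) ∅ +
        ∑ t : T, Sn p D s (ψ t) ∅ := by
      intro s _
      have := Sn_mono (D := D) h0 hcov' s ∅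
      rw [Sn_const h1, Sn_fadd, Sn_sum h1] at this
      exact this
    have := Finset.sum_le_sum e1
    simpa using this
  have e5 := Finset.sum_le_sum (fun s hs => hbad s (Finset.mem_range.mp hs))
  rw [Finset.sum_const, card_range, nsmul_eq_mul] at e5
  have e6 := Finset.sum_le_sum (fun t (_ : t ∈ (univ : Finset T)) => hψ t)
  rw [Finset.sum_const, Finset.card_univ, nsmul_eq_mul] at e6
  have e9 : ((m : ℕ) : ℝ) ≤ ((22 * (K' + 1) * Fintype.card T : ℕ) : ℝ) := by
    push_cast at e6 ⊢
    linarith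
  exact_mod_cast e9

end main

end ops

end Pool.Agent.GR
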