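import Pool.Agent.Work.MP_71c844_lc.GR.Stmts

/-!
# Block GR, item Cb: the union graph has no large clique with probability at least one half
-/

namespace Pool.Agent.GR

open Finset Pool.Agent.GapLim
open Pool.Agent.NegLim (Gate gval numNot size lowSets)

/-- pointwise bound for one state -/
private lemma Cb_point (hKr : StKr) (hJe : StJe) (hDc : StDc) (v κ D Z r : ℕ) (hκ : 2 ≤ κ)
    (hZ : 1 ≤ Z) (z : St (Fin v × Fin r) (Fin κ)) :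
    ind (HasCl (κ ^ D) (grn z)) ≤
      ∑ K ∈ powersetCard (κ ^ D) (univ : Finset (Fin v)), (1 / (Z : ℝ) ^ (D * κ ^ D)) *
        ∏ i : Fin r, (Z : ℝ) ^ pres2 K (fun a => z (a, i)) := by
  have hZ' : (1 : ℝ) ≤ (Z : ℝ) := by exact_mod_cast hZ
  have hpos : ∀ K ∈ powersetCard (κ ^ D) (univ : Finset (Fin v)),
      0 ≤ (1 / (Z : ℝ) ^ (D * κ ^ D)) * ∏ i : Fin r, (Z : ℝ) ^ pres2 K (fun a => z (a, i)) := by
    intro K _
    refine mul_nonneg (by positivity) (Finset.prod_nonneg fun i _ => by positivity)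
  by_cases hcl : HasCl (κ ^ D) (grn z)
  · rw [ind_true hcl]
    obtain ⟨K, hK, hIs⟩ := hcl
    have h1 := hKr v κ r z K (by omega) hIs
    have h2 := hJe v κ D K (fun x => degL z K x) hκ (by rw [hK]) h1
    rw [hDc, hK] at h2
    have h3 : (1 : ℝ) ≤ (1 / (Z : ℝ) ^ (D * κ ^ D)) *
        ∏ i : Fin r, (Z : ℝ) ^ pres2 K (fun a => z (a, i)) := by
      rw [Finset.prod_pow_eq_pow_sum, one_div, ← div_eq_inv_mul, one_le_div (by positivity)]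
      exact pow_le_pow_right₀ hZ' h2
    exact h3.trans (Finset.single_le_sum (f := fun K => (1 / (Z : ℝ) ^ (D * κ ^ D)) *
        ∏ i : Fin r, (Z : ℝ) ^ pres2 K (fun a => z (a, i))) hpos
        (Finset.mem_powersetCard.2 ⟨Finset.subset_univ K, hK⟩))
  · rw [ind_false hcl]
    exact Finset.sum_nonneg hpos

/-- the expectation of one term -/
private lemma Cb_term (hMo : StMo) (hLy : StLy) (hPr : StPr) (v κ D Z r : ℕ) (ρ : ℝ) (hκ : 2 ≤ κ)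
    (hZ : 1 ≤ Z) (h0 : 0 ≤ ρ) (h1 : ρ ≤ 1) (hr : r * ((κ ^ D : ℕ) * ρ * Z) ^ 2 ≤ 1)
    (K : Finset (Fin v)) (hK : K.card = κ ^ D) :
    Ex ρ (fun z : St (Fin v × Fin r) (Fin κ) => (1 / (Z : ℝ) ^ (D * κ ^ D)) *
        ∏ i : Fin r, (Z : ℝ) ^ pres2 K (fun a => z (a, i))) ≤ 3 / (Z : ℝ) ^ (D * κ ^ D) := by
  have hZ' : (1 : ℝ) ≤ (Z : ℝ) := by exact_mod_cast hZ
  rw [Ex_smul, hPr hLy v κ r ρ (fun z' : St (Fin v) (Fin κ) => (Z : ℝ) ^ pres2 K z') (by omega)]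
  have hE0 : 0 ≤ Ex ρ (fun z' : St (Fin v) (Fin κ) => (Z : ℝ) ^ pres2 K z') :=
    Ex_nonneg h0 h1 fun z => by positivity
  have hpow : Ex ρ (fun z' : St (Fin v) (Fin κ) => (Z : ℝ) ^ pres2 K z') ^ r ≤ 3 := by
    rcases Nat.eq_zero_or_pos r with hr0 | hr0
    · rw [hr0, pow_zero]
      norm_num
    · have hr1 : (1 : ℝ) ≤ (r : ℝ) := by exact_mod_cast hr0
      have hx0 : 0 ≤ ((κ ^ D : ℕ) : ℝ) * ρ * Z := by positivity
      have hx1 : ((κ ^ D : ℕ) : ℝ) * ρ * Z ≤ 1 := by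
        have h2 : (((κ ^ D : ℕ) : ℝ) * ρ * Z) ^ 2 ≤ 1 := by nlinarith
        nlinarith
      have h3 := hMo v κ K ρ Z (by omega) h0 h1 hZ' (by rw [hK]; exact hx1)
      rw [hK] at h3
      have h4 : Ex ρ (fun z' : St (Fin v) (Fin κ) => (Z : ℝ) ^ pres2 K z') ≤
          Real.exp ((((κ ^ D : ℕ) : ℝ) * ρ * Z) ^ 2) := by
        refine h3.trans ?_
        have := Real.add_one_le_exp ((((κ ^ D : ℕ) : ℝ) * ρ * Z) ^ 2)
        linarith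
      calc Ex ρ (fun z' : St (Fin v) (Fin κ) => (Z : ℝ) ^ pres2 K z') ^ r ≤
            Real.exp ((((κ ^ D : ℕ) : ℝ) * ρ * Z) ^ 2) ^ r := pow_le_pow_left₀ hE0 h4 r
        _ = Real.exp (r * (((κ ^ D : ℕ) : ℝ) * ρ * Z) ^ 2) := by rw [← Real.exp_nat_mul]
        _ ≤ Real.exp 1 := Real.exp_le_exp.2 hr
        _ ≤ 3 := by
          have := Real.exp_one_lt_d9
          linarith
  calc 1 / (Z : ℝ) ^ (D * κ ^ D) *
        Ex ρ (fun z' : St (Fin v) (Fin κ) => (Z : ℝ) ^ pres2 K z') ^ r ≤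
        1 / (Z : ℝ) ^ (D * κ ^ D) * 3 := mul_le_mul_of_nonneg_left hpow (by positivity)
    _ = 3 / (Z : ℝ) ^ (D * κ ^ D) := by ring

/-- Cb -/
theorem pr_Cb : StCb := by
  intro hKr hJe hDc hMo hLy hPr v κ D Z r ρ hv hκ hk hZD hZ h0 h1 hr
  have hZ' : (1 : ℝ) ≤ (Z : ℝ) := by exact_mod_cast hZ
  have hZp : (0 : ℝ) < (Z : ℝ) ^ (D * κ ^ D) := by positivity
  have hvp : (0 : ℝ) < (v : ℝ) := by
    have : 0 < v := by omega
    exact_mod_cast this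
  have hA : Ex ρ (fun z : St (Fin v × Fin r) (Fin κ) => ind (HasCl (κ ^ D) (grn z))) ≤
      ∑ K ∈ powersetCard (κ ^ D) (univ : Finset (Fin v)), 3 / (Z : ℝ) ^ (D * κ ^ D) := by
    refine (Ex_mono h0 h1 (Cb_point hKr hJe hDc v κ D Z r hκ hZ)).trans ?_
    rw [Ex_sum]
    exact Finset.sum_le_sum fun K hK => Cb_term hMo hLy hPr v κ D Z r ρ hκ hZ h0 h1 hr K
      (Finset.mem_powersetCard.1 hK).2
  refine hA.trans ?_
  rw [Finset.sum_const, Finset.card_powersetCard, Finset.card_univ, Fintype.card_fin, nsmul_eq_mul]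
  have hch : ((v.choose (κ ^ D) : ℕ) : ℝ) ≤ (v : ℝ) ^ (κ ^ D) := by
    exact_mod_cast Nat.choose_le_pow v (κ ^ D)
  have hZv : ((v : ℝ) ^ (κ ^ D)) ^ 2 ≤ (Z : ℝ) ^ (D * κ ^ D) := by
    have h2 : ((v : ℝ) ^ 2) ≤ (Z : ℝ) ^ D := by exact_mod_cast hZD
    calc ((v : ℝ) ^ (κ ^ D)) ^ 2 = ((v : ℝ) ^ 2) ^ (κ ^ D) := by rw [← pow_mul, ← pow_mul, mul_comm]
      _ ≤ ((Z : ℝ) ^ D) ^ (κ ^ D) := pow_le_pow_left₀ (by positivity) h2 _
      _ = (Z : ℝ) ^ (D * κ ^ D) := by rw [← pow_mul]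
  have hv8 : (8 : ℝ) ≤ (v : ℝ) ^ (κ ^ D) := by
    have h2 : (2 : ℝ) ≤ (v : ℝ) := by exact_mod_cast hv
    calc (8 : ℝ) = 2 ^ 3 := by norm_num
      _ ≤ (2 : ℝ) ^ (κ ^ D) := pow_le_pow_right₀ (by norm_num) hk
      _ ≤ (v : ℝ) ^ (κ ^ D) := pow_le_pow_left₀ (by norm_num) h2 _
  have hvk : (0 : ℝ) < (v : ℝ) ^ (κ ^ D) := by positivity
  rw [mul_div_assoc', div_le_iff₀ hZp]
  nlinarith

end Pool.Agent.GR
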