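import Pool.Agent.Work.MP_71c844_lc.GR.Stmts

/-!
# Block GR, item Dc: double counting
-/

namespace Pool.Agent.GR

open Finset Pool.Agent.GapLim
open Pool.Agent.NegLim (Gate gval numNot size lowSets)

theorem pr_Dc : StDc := by
  classical
  intro v κ r z K
  have h1 : ∀ x, degL z K x = ∑ i : Fin r,
      if (z (x, i) ≠ none ∧ 2 ≤ pres K (fun a => z (a, i))) then 1 else 0 := by
    intro x
    unfold degL
    rw [Finset.card_filter]
  simp only [h1]
  rw [Finset.sum_comm]
  refine Finset.sum_congr rfl fun i _ => ?_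
  unfold pres2
  by_cases h : 2 ≤ pres K (fun a => z (a, i))
  · rw [if_pos h]
    conv_rhs => unfold pres
    rw [Finset.card_filter]
    refine Finset.sum_congr rfl fun x _ => ?_
    by_cases hx : z (x, i) ≠ none
    · rw [if_pos ⟨hx, h⟩, if_pos hx]
    · rw [if_neg (fun hh => hx hh.1), if_neg hx]
  · rw [if_neg h]
    refine Finset.sum_eq_zero fun x _ => ?_
    rw [if_neg (fun hh => h hh.2)]

end Pool.Agent.GR
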