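import Pool.Agent.Work.MP_71c844_lc.GR.Stmts

/-!
# Block GR, item Dg: the approximation with a general evaluation of the inputs
-/

set_option autoImplicit false

namespace Pool.Agent.GR

open Finset Pool.Agent.GapLim
open Pool.Agent.NegLim (Gate gval numNot size lowSets minMembers mem_minMembers trim
  exists_minMember numNot_eq_zero_cons run)

set_option linter.unusedSectionVars false

section Dg

open Classical in
/-- The hypotheses on the parameters at one scale. -/
structure Dg_Scale (V C U : Type) [Fintype V] [DecidableEq V] [Fintype C] [DecidableEq C]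
    [Fintype U] (a B q θ : ℝ) (b R : ℕ) (Y : U → Finset V) : Prop where
  ha0 : 0 < a
  hR : 1 ≤ R
  hRa : R * a ≤ 1
  hB : 0 < B
  hq : 0 < q
  hBq : B / q ≤ 1 / 2
  hb : 2 ≤ b
  hBa : 8 * b ≤ B * a
  hκ : 64 * b ^ 2 ≤ Fintype.card C
  hθ : 0 ≤ θ
  hY : ∀ A : Finset V, A.Nonempty → A.card ≤ 2 * b →
    ((univ.filter (fun u => A ⊆ Y u)).card : ℝ) ≤ Fintype.card U * (θ * (1 / q) ^ A.card)

variable {V C : Type} [Fintype V] [DecidableEq V] [Fintype C] [DecidableEq C] [Nonempty C]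
variable {U : Type} [Fintype U]

open Classical in
/-- Number of planted sets containing a minimal member of size at least `j₀`. -/
lemma Dg_planted {a B q θ : ℝ} {b R : ℕ} {Y : U → Finset V}
    (S : Dg_Scale V C U a B q θ b R Y) (𝒱 : Finset (Finset V))
    (hlow : 𝒱 ⊆ lowSets V b)
    (hc : ClosedC (R * a) b (epsC C b R) C 𝒱) (j₀ : ℕ) (hj₀ : 1 ≤ j₀) :
    ((univ.filter (fun u => ∃ A ∈ minMembers 𝒱 A.card, j₀ ≤ A.card ∧ A ⊆ Y u)).card : ℝ) ≤
      Fintype.card U * (θ * (2 * (B / q) ^ j₀)) := by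
  have hq := S.hq
  have hB := S.hB
  have hθ := S.hθ
  have hY : ∀ A : Finset V, A.Nonempty → A.card ≤ 2 * b →
      ((univ.filter (fun u => A ⊆ Y u)).card : ℝ) ≤ Fintype.card U * (θ * (1 / q) ^ A.card) :=
    S.hY
  have hsub : (univ.filter (fun u => ∃ A ∈ minMembers 𝒱 A.card, j₀ ≤ A.card ∧ A ⊆ Y u)) ⊆
      (Finset.Ico j₀ (2 * b + 1)).biUnion (fun j => (minMembers 𝒱 j).biUnion
        (fun A => univ.filter (fun u => A ⊆ Y u))) := by
    intro u hu
    rw [Finset.mem_filter] at hu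
    obtain ⟨-, A, hA, hj, hAu⟩ := hu
    simp only [Finset.mem_biUnion, Finset.mem_Ico, Finset.mem_filter, Finset.mem_univ, true_and]
    have : A.card ≤ 2 * b := by
      have := hlow (mem_minMembers.mp hA).1
      rw [lowSets, Finset.mem_filter] at this
      exact this.2
    exact ⟨A.card, ⟨hj, by omega⟩, A, hA, hAu⟩
  have h2 : ((univ.filter (fun u => ∃ A ∈ minMembers 𝒱 A.card, j₀ ≤ A.card ∧ A ⊆ Y u)).card : ℝ)
      ≤ ∑ j ∈ Finset.Ico j₀ (2 * b + 1), ∑ A ∈ minMembers 𝒱 j,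
        ((univ.filter (fun u => A ⊆ Y u)).card : ℝ) := by
    have e1 := (Finset.card_le_card hsub).trans Finset.card_biUnion_le
    have e2 : ∀ j ∈ Finset.Ico j₀ (2 * b + 1), ((minMembers 𝒱 j).biUnion
        (fun A => univ.filter (fun u => A ⊆ Y u))).card ≤
        ∑ A ∈ minMembers 𝒱 j, (univ.filter (fun u => A ⊆ Y u)).card :=
      fun j _ => Finset.card_biUnion_le
    have e3 := e1.trans (Finset.sum_le_sum e2)
    exact_mod_cast e3
  refine h2.trans ?_
  have h3 : ∀ j ∈ Finset.Ico j₀ (2 * b + 1), ∑ A ∈ minMembers 𝒱 j,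
        ((univ.filter (fun u => A ⊆ Y u)).card : ℝ) ≤ Fintype.card U * (θ * (B / q) ^ j) := by
    intro j hj
    rw [Finset.mem_Ico] at hj
    calc ∑ A ∈ minMembers 𝒱 j, ((univ.filter (fun u => A ⊆ Y u)).card : ℝ)
        ≤ ∑ A ∈ minMembers 𝒱 j, Fintype.card U * (θ * (1 / q) ^ j) := by
          apply Finset.sum_le_sum
          intro A hA
          have hAj := (mem_minMembers.mp hA).2.1
          have := hY A (Finset.card_pos.mp (by omega)) (by omega)
          rwa [hAj] at this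
      _ = (minMembers 𝒱 j).card * (Fintype.card U * (θ * (1 / q) ^ j)) := by
          rw [Finset.sum_const, nsmul_eq_mul]
      _ ≤ B ^ j * (Fintype.card U * (θ * (1 / q) ^ j)) := by
          apply mul_le_mul_of_nonneg_right _ (by positivity)
          exact card_minMembers_leC (C := C) S.ha0 S.hB (by have := S.hb; omega) S.hR S.hRa
            (by omega) S.hBa S.hκ 𝒱 hc
      _ = Fintype.card U * (θ * (B / q) ^ j) := by
          have e : (B / q) ^ j = B ^ j * (1 / q) ^ j := by rw [← mul_pow]; congr 1; ring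
          rw [e]; ring
  refine (Finset.sum_le_sum h3).trans ?_
  rw [← Finset.mul_sum]
  apply mul_le_mul_of_nonneg_left _ (by positivity)
  rw [← Finset.mul_sum]
  apply mul_le_mul_of_nonneg_left _ hθ
  have hρ0 : 0 ≤ B / q := by positivity
  -- geometric sum
  have hgeo : ∀ m : ℕ, ∑ j ∈ Finset.Ico j₀ (j₀ + m), (B / q) ^ j ≤
      2 * (B / q) ^ j₀ - 2 * (B / q) ^ (j₀ + m) := by
    intro m
    induction m with
    | zero => simp
    | succ m ih =>
      rw [← add_assoc, Finset.sum_Ico_succ_top (by omega)]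
      have : (B / q) ^ (j₀ + m + 1) ≤ (1 / 2) * (B / q) ^ (j₀ + m) := by
        rw [pow_succ, mul_comm]
        exact mul_le_mul_of_nonneg_right S.hBq (by positivity)
      linarith
  rcases le_total j₀ (2 * b + 1) with hle | hle
  · obtain ⟨m, hm⟩ := Nat.exists_eq_add_of_le hle
    rw [hm]
    have := hgeo m
    have h4 : 0 ≤ (B / q) ^ (j₀ + m) := by positivity
    linarith
  · rw [Finset.Ico_eq_empty_of_le hle]
    simp only [Finset.sum_empty]
    positivity

open Classical in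
lemma Dg_trim {a B q θ : ℝ} {b R : ℕ} {Y : U → Finset V}
    (S : Dg_Scale V C U a B q θ b R Y) (𝒱 : Finset (Finset V)) (hlow : 𝒱 ⊆ lowSets V b)
    (hc : ClosedC (R * a) b (epsC C b R) C 𝒱) :
    ((univ.filter (fun u => (∃ A ∈ 𝒱, A ⊆ Y u) ∧ ¬ ∃ A ∈ trim b 𝒱, A ⊆ Y u)).card : ℝ) ≤
      Fintype.card U * (θ * (2 * (B / q) ^ (b + 1))) := by
  refine le_trans ?_ (Dg_planted S 𝒱 hlow hc (b + 1) (by omega))
  have : (univ.filter (fun u => (∃ A ∈ 𝒱, A ⊆ Y u) ∧ ¬ ∃ A ∈ trim b 𝒱, A ⊆ Y u)) ⊆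
      (univ.filter (fun u => ∃ A ∈ minMembers 𝒱 A.card, b + 1 ≤ A.card ∧ A ⊆ Y u)) := by
    intro u hu
    rw [Finset.mem_filter] at hu ⊢
    obtain ⟨-, ⟨A, hA, hAu⟩, hno⟩ := hu
    obtain ⟨A', hA', hmin⟩ := exists_minMember hA
    refine ⟨mem_univ _, A', hmin, ?_, hA'.trans hAu⟩
    by_contra hcon
    apply hno
    refine ⟨A', ?_, hA'.trans hAu⟩
    rw [trim, Finset.mem_filter]
    exact ⟨(mem_minMembers.mp hmin).1, by omega⟩
  exact_mod_cast Finset.card_le_card this

open Classical in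
/-- One approximation step (the new family replacing `𝒰`). -/
lemma Dg_step {a B q θ : ℝ} {b R : ℕ} {Y : U → Finset V}
    (S : Dg_Scale V C U a B q θ b R Y) (𝒰 : Finset (Finset V)) (hlow : 𝒰 ⊆ lowSets V b) :
    ∃ (𝒢 : Finset (Finset V)) (P : Finset U) (Z : St V C → ℝ),
      (∀ A ∈ 𝒢, A.card ≤ b) ∧
      (P.card : ℝ) ≤ Fintype.card U * (θ * (2 * (B / q) ^ (b + 1))) ∧
      (∀ z, 0 ≤ Z z) ∧ Ex (R * a) Z ≤ (lowSets V b).card * epsC C b R ∧
      (∀ u ∉ P, (∃ A ∈ 𝒰, A ⊆ Y u) → ∃ A ∈ 𝒢, A ⊆ Y u) ∧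
      (∀ z, (∃ A ∈ 𝒢, Acc A z) → (¬ ∃ A ∈ 𝒰, Acc A z) → 1 ≤ Z z) := by
  have ha0 := S.ha0
  obtain ⟨𝒱, h1, h2, h3, h4⟩ := exists_closedC (C := C) (ρ := R * a) (by positivity) S.hRa b
    (epsC C b R) (epsC_nonneg b R) 𝒰 hlow
  refine ⟨trim b 𝒱, univ.filter (fun u => (∃ A ∈ 𝒱, A ⊆ Y u) ∧ ¬ ∃ A ∈ trim b 𝒱, A ⊆ Y u),
    fun z => ind (¬ ∃ A ∈ 𝒰, Acc A z) - ind (¬ ∃ A ∈ 𝒱, Acc A z), ?_, Dg_trim S 𝒱 h2 h3, ?_,
    h4, ?_, ?_⟩
  · intro A hA
    rw [trim, Finset.mem_filter] at hA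
    exact hA.2
  · intro z
    have : ind (¬ ∃ A ∈ 𝒱, Acc A z) ≤ ind (¬ ∃ A ∈ 𝒰, Acc A z) := by
      apply ind_mono
      rintro h ⟨A, hA, hacc⟩
      exact h ⟨A, h1 hA, hacc⟩
    linarith
  · intro u hu hex
    rw [Finset.mem_filter] at hu
    push Not at hu
    obtain ⟨A, hA, hAu⟩ := hex
    exact hu (mem_univ _) ⟨A, h1 hA, hAu⟩
  · intro z ⟨A, hA, hAz⟩ hno
    show 1 ≤ ind (¬ ∃ A ∈ 𝒰, Acc A z) - ind (¬ ∃ A ∈ 𝒱, Acc A z)
    rw [ind_true hno, ind_false]
    · norm_num
    · rw [trim, Finset.mem_filter] at hA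
      exact not_not.mpr ⟨A, hA.1, hAz⟩

variable {E : Type} [DecidableEq E]

theorem Dg_gval_succ (g : Gate E) (c : List (Gate E)) (j : ℕ) (Y : Finset E) :
    gval (g :: c) (j + 1) Y = gval c j Y := by
  simp [gval, run]

theorem Dg_gval_zero (g : Gate E) (c : List (Gate E)) (Y : Finset E) :
    gval (g :: c) 0 Y = g.value (fun e => decide (e ∈ Y)) (run (fun e => decide (e ∈ Y)) c) := by
  simp [gval, run]

/-- Approximators for all gates of a circuit without NOT gates. -/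
lemma Dg_approx {a B q θ : ℝ} {b R : ℕ} {Y : U → Finset V}
    (S : Dg_Scale V C U a B q θ b R Y) (Ps : U → Finset E) (N : St V C → Finset E)
    (hin : ∀ e : E, ∃ 𝒢 : Finset (Finset V), (∀ A ∈ 𝒢, A.card ≤ b) ∧
      (∀ u, e ∈ Ps u → ∃ A ∈ 𝒢, A ⊆ Y u) ∧ (∀ z, (∃ A ∈ 𝒢, Acc A z) → e ∈ N z))
    (c : List (Gate E)) (hc : numNot c = 0) :
    ∃ (G : ℕ → Finset (Finset V)) (P : Finset U) (Z : St V C → ℝ),
      (∀ j, ∀ A ∈ G j, A.card ≤ b) ∧
      (P.card : ℝ) ≤ size c * (Fintype.card U * (θ * (2 * (B / q) ^ (b + 1)))) ∧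
      (∀ z, 0 ≤ Z z) ∧ Ex (R * a) Z ≤ size c * ((lowSets V b).card * epsC C b R) ∧
      (∀ u ∉ P, ∀ j, gval c j (Ps u) = true → ∃ A ∈ G j, A ⊆ Y u) ∧
      (∀ z j, (∃ A ∈ G j, Acc A z) → gval c j (N z) = false → 1 ≤ Z z) := by
  classical
  induction c with
  | nil =>
    refine ⟨fun _ => ∅, ∅, fun _ => 0, by simp, by simp [size], by simp, ?_, ?_, by simp⟩
    · simp [size, Ex_const]
    · intro u _ j h
      simp [gval, run] at h
  | cons g gs ih =>
    obtain ⟨hgs, hg⟩ := numNot_eq_zero_cons hc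
    obtain ⟨G, P, Z, h1, h2, h3, h4, h5, h6⟩ := ih hgs
    -- simple gates
    have simple : ∀ 𝒢 : Finset (Finset V), (∀ A ∈ 𝒢, A.card ≤ b) → size (g :: gs) = size gs →
        (∀ u, gval (g :: gs) 0 (Ps u) = true → ∃ A ∈ 𝒢, A ⊆ Y u) →
        (∀ z : St V C, (∃ A ∈ 𝒢, Acc A z) → gval (g :: gs) 0 (N z) = true) →
        ∃ (G : ℕ → Finset (Finset V)) (P : Finset U) (Z : St V C → ℝ),
          (∀ j, ∀ A ∈ G j, A.card ≤ b) ∧
          (P.card : ℝ) ≤ size (g :: gs) * (Fintype.card U * (θ * (2 * (B / q) ^ (b + 1)))) ∧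
          (∀ z, 0 ≤ Z z) ∧
          Ex (R * a) Z ≤ size (g :: gs) * ((lowSets V b).card * epsC C b R) ∧
          (∀ u ∉ P, ∀ j, gval (g :: gs) j (Ps u) = true →
            ∃ A ∈ G j, A ⊆ Y u) ∧
          (∀ z j, (∃ A ∈ G j, Acc A z) → gval (g :: gs) j (N z) = false → 1 ≤ Z z) := by
      intro 𝒢 e1 e2 e3 e4
      refine ⟨fun j => Nat.casesOn j 𝒢 G, P, Z, ?_, by rw [e2]; exact h2, h3,
        by rw [e2]; exact h4, ?_, ?_⟩
      · intro j
        cases j with
        | zero => exact e1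
        | succ j => exact h1 j
      · intro u hu j
        cases j with
        | zero => exact e3 u
        | succ j => rw [Dg_gval_succ]; exact h5 u hu j
      · intro z j
        cases j with
        | zero => intro hz hv; rw [e4 z hz] at hv; cases hv
        | succ j => rw [Dg_gval_succ]; exact h6 z j
    -- compound gates
    have compound : ∀ 𝒰 : Finset (Finset V), (𝒰 ⊆ lowSets V b) → size (g :: gs) = size gs + 1 →
        (∀ u ∉ P, gval (g :: gs) 0 (Ps u) = true → ∃ A ∈ 𝒰, A ⊆ Y u) →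
        (∀ z, (∃ A ∈ 𝒰, Acc A z) → gval (g :: gs) 0 (N z) = false → 1 ≤ Z z) →
        ∃ (G : ℕ → Finset (Finset V)) (P : Finset U) (Z : St V C → ℝ),
          (∀ j, ∀ A ∈ G j, A.card ≤ b) ∧
          (P.card : ℝ) ≤ size (g :: gs) * (Fintype.card U * (θ * (2 * (B / q) ^ (b + 1)))) ∧
          (∀ z, 0 ≤ Z z) ∧
          Ex (R * a) Z ≤ size (g :: gs) * ((lowSets V b).card * epsC C b R) ∧
          (∀ u ∉ P, ∀ j, gval (g :: gs) j (Ps u) = true →
            ∃ A ∈ G j, A ⊆ Y u) ∧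
          (∀ z j, (∃ A ∈ G j, Acc A z) → gval (g :: gs) j (N z) = false → 1 ≤ Z z) := by
      intro 𝒰 e1 e2 e3 e4
      obtain ⟨𝒢, P', Z', f1, f2, f3, f4, f5, f6⟩ := Dg_step S 𝒰 e1
      refine ⟨fun j => Nat.casesOn j 𝒢 G, P ∪ P', fun z => Z z + Z' z, ?_, ?_, ?_, ?_, ?_, ?_⟩
      · intro j
        cases j with
        | zero => exact f1
        | succ j => exact h1 j
      · have := Finset.card_union_le P P'
        have hcast : ((P ∪ P').card : ℝ) ≤ P.card + P'.card := by exact_mod_cast this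
        rw [e2]; push_cast
        linarith
      · intro z; exact add_nonneg (h3 z) (f3 z)
      · rw [Ex_add, e2]; push_cast
        linarith
      · intro u hu j
        rw [Finset.mem_union, not_or] at hu
        cases j with
        | zero => intro hv; exact f5 u hu.2 (e3 u hu.1 hv)
        | succ j => rw [Dg_gval_succ]; exact h5 u hu.1 j
      · intro z j
        have hz1 := h3 z
        have hz2 := f3 z
        cases j with
        | zero =>
          intro hz hv
          by_cases hU : ∃ A ∈ 𝒰, Acc A z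
          · have := e4 z hU hv; linarith
          · have := f6 z hz hU; linarith
        | succ j =>
          rw [Dg_gval_succ]; intro hz hv
          have := h6 z j hz hv; linarith
    have hb := S.hb
    cases g with
    | var e =>
      obtain ⟨𝒢, i1, i2, i3⟩ := hin e
      refine simple 𝒢 i1 rfl (fun u hu => ?_) (fun z hz => ?_)
      · rw [Dg_gval_zero] at hu
        simp only [Gate.value, decide_eq_true_eq] at hu
        exact i2 u hu
      · rw [Dg_gval_zero]
        simp only [Gate.value, decide_eq_true_eq]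
        exact i3 z hz
    | const d =>
      cases d with
      | true =>
        refine simple {∅} (by simp) rfl (fun u _ => ⟨∅, by simp, by simp⟩) (fun z _ => ?_)
        simp [Dg_gval_zero, Gate.value]
      | false =>
        refine simple ∅ (by simp) rfl (fun u hu => ?_) (fun z hz => ?_)
        · simp [Dg_gval_zero, Gate.value] at hu
        · simp at hz
    | and j k =>
      refine compound (Finset.image₂ (· ∪ ·) (G j) (G k)) ?_ rfl ?_ ?_
      · intro A hA
        rw [Finset.mem_image₂] at hA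
        obtain ⟨A1, hA1, A2, hA2, rfl⟩ := hA
        rw [lowSets, Finset.mem_filter]
        refine ⟨mem_univ _, (Finset.card_union_le _ _).trans ?_⟩
        have := h1 j A1 hA1
        have := h1 k A2 hA2
        omega
      · intro u hu hv
        rw [Dg_gval_zero, Gate.value, Bool.and_eq_true] at hv
        obtain ⟨A1, hA1, hs1⟩ := h5 u hu j hv.1
        obtain ⟨A2, hA2, hs2⟩ := h5 u hu k hv.2
        exact ⟨A1 ∪ A2, Finset.mem_image₂.mpr ⟨A1, hA1, A2, hA2, rfl⟩,
          Finset.union_subset hs1 hs2⟩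
      · intro z ⟨A, hA, hAz⟩ hv
        rw [Finset.mem_image₂] at hA
        obtain ⟨A1, hA1, A2, hA2, rfl⟩ := hA
        rw [Dg_gval_zero, Gate.value, Bool.and_eq_false_iff] at hv
        rcases hv with hv | hv
        · exact h6 z j ⟨A1, hA1, hAz.mono Finset.subset_union_left⟩ hv
        · exact h6 z k ⟨A2, hA2, hAz.mono Finset.subset_union_right⟩ hv
    | or j k =>
      refine compound (G j ∪ G k) ?_ rfl ?_ ?_
      · intro A hA
        rw [lowSets, Finset.mem_filter]
        refine ⟨mem_univ _, ?_⟩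
        rw [Finset.mem_union] at hA
        rcases hA with hA | hA
        · have := h1 j A hA; omega
        · have := h1 k A hA; omega
      · intro u hu hv
        rw [Dg_gval_zero, Gate.value, Bool.or_eq_true] at hv
        rcases hv with hv | hv
        · obtain ⟨A, hA, hs⟩ := h5 u hu j hv
          exact ⟨A, Finset.mem_union_left _ hA, hs⟩
        · obtain ⟨A, hA, hs⟩ := h5 u hu k hv
          exact ⟨A, Finset.mem_union_right _ hA, hs⟩
      · intro z ⟨A, hA, hAz⟩ hv
        rw [Dg_gval_zero, Gate.value, Bool.or_eq_false_iff] at hv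
        rw [Finset.mem_union] at hA
        rcases hA with hA | hA
        · exact h6 z j ⟨A, hA, hAz⟩ hv.1
        · exact h6 z k ⟨A, hA, hAz⟩ hv.2
    | not j => exact absurd rfl (hg j)

open Classical in
/-- The dichotomy at one scale. -/
lemma Dg_dich {a B q θ : ℝ} {b R : ℕ} {Y : U → Finset V}
    (S : Dg_Scale V C U a B q θ b R Y) (Ps : U → Finset E) (N : St V C → Finset E)
    (hin : ∀ e : E, ∃ 𝒢 : Finset (Finset V), (∀ A ∈ 𝒢, A.card ≤ b) ∧
      (∀ u, e ∈ Ps u → ∃ A ∈ 𝒢, A ⊆ Y u) ∧ (∀ z, (∃ A ∈ 𝒢, Acc A z) → e ∈ N z))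
    (c : List (Gate E))
    (hc : numNot c = 0) (j : ℕ) :
    Ex (R * a) (fun z : St V C => ind (¬ gval c j (N z) = true)) ≤
        (size c + 1) * ((lowSets V b).card * epsC C b R) ∨
    ((univ.filter (fun u => gval c j (Ps u) = true)).card : ℝ) ≤
        Fintype.card U * (θ * (2 * (B / q) + size c * (2 * (B / q) ^ (b + 1)))) := by
  have ha0 := S.ha0
  have hRa0 : 0 ≤ (R : ℝ) * a := by positivity
  obtain ⟨G, P, Z, h1, h2, h3, h4, h5, h6⟩ := Dg_approx S Ps N hin c hc
  have hlow : G j ⊆ lowSets V b := by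
    intro A hA
    rw [lowSets, Finset.mem_filter]
    exact ⟨mem_univ _, (h1 j A hA).trans (by omega)⟩
  obtain ⟨𝒱, g1, g2, g3, g4⟩ := exists_closedC (C := C) hRa0 S.hRa b (epsC C b R)
    (epsC_nonneg b R) (G j) hlow
  by_cases he : ∅ ∈ 𝒱
  · left
    have hpt : ∀ z : St V C, ind (¬ gval c j (N z) = true) ≤
        (ind (¬ ∃ A ∈ G j, Acc A z) - ind (¬ ∃ A ∈ 𝒱, Acc A z)) + Z z := by
      intro z
      have hm𝒱 : ind (¬ ∃ A ∈ 𝒱, Acc A z) = 0 := ind_false (not_not.mpr ⟨∅, he, acc_empty z⟩)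
      rw [hm𝒱]
      have hz := h3 z
      by_cases hv : gval c j (N z) = true
      · rw [ind_false (not_not.mpr hv)]
        linarith [ind_nonneg (¬ ∃ A ∈ G j, Acc A z)]
      · rw [ind_true hv]
        by_cases hG : ∃ A ∈ G j, Acc A z
        · have := h6 z j hG (by simpa using hv)
          linarith [ind_nonneg (¬ ∃ A ∈ G j, Acc A z)]
        · rw [ind_true hG]; linarith
    calc Ex (R * a) (fun z : St V C => ind (¬ gval c j (N z) = true))
        ≤ Ex (R * a) (fun z : St V C =>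
            (ind (¬ ∃ A ∈ G j, Acc A z) - ind (¬ ∃ A ∈ 𝒱, Acc A z)) + Z z) :=
          Ex_mono hRa0 S.hRa hpt
      _ = Ex (R * a) (fun z : St V C => ind (¬ ∃ A ∈ G j, Acc A z) - ind (¬ ∃ A ∈ 𝒱, Acc A z)) +
            Ex (R * a) Z := Ex_add _ _ _
      _ ≤ (lowSets V b).card * epsC C b R + size c * ((lowSets V b).card * epsC C b R) :=
          add_le_add g4 h4
      _ = _ := by ring
  · right
    have hsub : univ.filter (fun u => gval c j (Ps u) = true) ⊆
        P ∪ univ.filter (fun u => ∃ A ∈ minMembers 𝒱 A.card, 1 ≤ A.card ∧ A ⊆ Y u) := by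
      intro u hu
      rw [Finset.mem_filter] at hu
      rw [Finset.mem_union]
      by_cases hP : u ∈ P
      · left; exact hP
      · right
        obtain ⟨A, hA, hAu⟩ := h5 u hP j hu.2
        obtain ⟨A', hA', hmin⟩ := exists_minMember (g1 hA)
        rw [Finset.mem_filter]
        refine ⟨mem_univ _, A', hmin, ?_, hA'.trans hAu⟩
        by_contra hcon
        have : A' = ∅ := by
          rw [← Finset.card_eq_zero]; omega
        apply he
        rw [← this]
        exact (mem_minMembers.mp hmin).1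
    have hcount := Dg_planted S 𝒱 g2 g3 1 le_rfl
    have e1 : ((univ.filter (fun u => gval c j (Ps u) = true)).card : ℝ) ≤
        P.card + (univ.filter (fun u => ∃ A ∈ minMembers 𝒱 A.card, 1 ≤ A.card ∧
          A ⊆ Y u)).card := by
      exact_mod_cast (Finset.card_le_card hsub).trans (Finset.card_union_le _ _)
    rw [pow_one] at hcount
    calc _ ≤ _ := e1
      _ ≤ size c * (Fintype.card U * (θ * (2 * (B / q) ^ (b + 1)))) +
          Fintype.card U * (θ * (2 * (B / q))) := add_le_add h2 hcount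
      _ = _ := by ring


end Dg

/-- item Dg -/
theorem pr_Dg : StDg := by
  intro W C U E _ _ _ _ _ _ _ a B q θ b R Y Ps N ha0 hR hRa hB hq hBq hb hBa hκ hθ hY hin c hc j
  have S : Dg_Scale W C U a B q θ b R Y := ⟨ha0, hR, hRa, hB, hq, hBq, hb, hBa, hκ, hθ, hY⟩
  exact Dg_dich S Ps N hin c hc j

end Pool.Agent.GR
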