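import Pool.Agent.Work.MP_71c844_lc.GR.Stmts

/-!
# Block GR, item Di: small circuits without NOT gates satisfy the dichotomy at all scales
-/

set_option autoImplicit false

namespace Pool.Agent.GR

open Finset Pool.Agent.GapLim
open Pool.Agent.NegLim (Gate gval numNot size lowSets)

private theorem Di_mem_grn {V C : Type} [Fintype V] [DecidableEq V] [Fintype C] [DecidableEq C]
    {r : ℕ} (z : St (V × Fin r) C) (e : Sym2 V) :
    e ∈ grn z ↔ ∃ (i : Fin r) (a b : V), e = s(a, b) ∧ z (a, i) ≠ none ∧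
      z (b, i) ≠ none ∧ z (a, i) ≠ z (b, i) := by
  classical
  unfold grn
  rw [Finset.mem_filter]
  exact ⟨fun h => h.2, fun h => ⟨Finset.mem_univ _, h⟩⟩

private theorem Di_mem_lay {v r : ℕ} (A : Finset (Fin v)) (i : Fin r) (a : Fin v) (ha : a ∈ A) :
    (a, i) ∈ lay A i := by
  classical
  unfold lay
  exact Finset.mem_image.2 ⟨a, ha, rfl⟩

/-- the exact approximator of an input -/
private theorem Di_in {U : Type} {v b r κ : ℕ} (hb : 2 ≤ b) (Y : U → Finset (Fin v))
    (x : Finset (Sym2 (Fin v))) (e : Sym2 (Fin v)) :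
    ∃ 𝒢 : Finset (Finset (Fin v × Fin r)), (∀ A ∈ 𝒢, A.card ≤ b) ∧
      (∀ p : U × Fin r, e ∈ x ∪ cl (Y p.1) → ∃ A ∈ 𝒢, A ⊆ lay (Y p.1) p.2) ∧
      (∀ z : St (Fin v × Fin r) (Fin κ), (∃ A ∈ 𝒢, Acc A z) → e ∈ x ∪ grn z) := by
  classical
  by_cases hex : e ∈ x
  · refine ⟨{∅}, ?_, ?_, ?_⟩
    · intro A hA
      rw [Finset.mem_singleton] at hA
      rw [hA, Finset.card_empty]
      exact Nat.zero_le b
    · intro p _
      exact ⟨∅, Finset.mem_singleton_self _, Finset.empty_subset _⟩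
    · intro z _
      exact Finset.mem_union_left _ hex
  · refine ⟨((univ : Finset (Fin v × Fin v × Fin r)).filter
      (fun t => t.1 ≠ t.2.1 ∧ s(t.1, t.2.1) = e)).image
      (fun t => {(t.1, t.2.2), (t.2.1, t.2.2)}), ?_, ?_, ?_⟩
    · intro A hA
      obtain ⟨t, -, rfl⟩ := Finset.mem_image.1 hA
      exact le_trans Finset.card_le_two hb
    · rintro ⟨u, i⟩ hu
      rcases Finset.mem_union.1 hu with h | h
      · exact absurd h hex
      · obtain ⟨a, b', h1, h2, h3, h4⟩ := mem_cl.1 h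
        refine ⟨{(a, i), (b', i)}, Finset.mem_image.2 ⟨(a, b', i), ?_, rfl⟩, ?_⟩
        · exact Finset.mem_filter.2 ⟨Finset.mem_univ _, h4, h1.symm⟩
        · intro y hy
          rcases Finset.mem_insert.1 hy with h5 | h5
          · rw [h5]
            exact Di_mem_lay _ _ _ h2
          · rw [Finset.mem_singleton.1 h5]
            exact Di_mem_lay _ _ _ h3
    · rintro z ⟨A, hA, hacc⟩
      obtain ⟨⟨a, b', i⟩, ht, rfl⟩ := Finset.mem_image.1 hA
      obtain ⟨-, h1, h2⟩ := Finset.mem_filter.1 ht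
      have m1 : (a, i) ∈ ({(a, i), (b', i)} : Finset (Fin v × Fin r)) :=
        Finset.mem_insert_self _ _
      have m2 : (b', i) ∈ ({(a, i), (b', i)} : Finset (Fin v × Fin r)) :=
        Finset.mem_insert_of_mem (Finset.mem_singleton_self _)
      refine Finset.mem_union_right _ ((Di_mem_grn z e).2 ⟨i, a, b', h2.symm, hacc.1 _ m1,
        hacc.1 _ m2, fun h => h1 ?_⟩)
      have h3 := hacc.2 _ m1 _ m2 h
      exact congrArg Prod.fst h3

/-- counting pairs -/
private theorem Di_pairs {U : Type} [Fintype U] (r : ℕ) (P : U → Prop) [DecidablePred P]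
    [DecidablePred fun p : U × Fin r => P p.1] :
    ((univ.filter (fun p : U × Fin r => P p.1)).card : ℝ) = (univ.filter P).card * r := by
  have h1 : (univ.filter (fun p : U × Fin r => P p.1)) =
      (univ.filter P) ×ˢ (univ : Finset (Fin r)) := by
    ext p
    simp only [mem_filter, mem_product, mem_univ, true_and, and_true]
  rw [h1, Finset.card_product, Finset.card_univ, Fintype.card_fin]
  push_cast
  rfl

private theorem Di_low (v r K b : ℕ) (hr : r ≤ 2 ^ K) :
    ((lowSets (Fin v × Fin r) b).card : ℝ) ≤ (((v * 2 ^ K + 1) ^ (2 * b) : ℕ) : ℝ) := by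
  have h1 := Pool.Agent.NegLim.card_lowSets_le (E := Fin v × Fin r) b
  have h2 : Fintype.card (Fin v × Fin r) = v * r := by
    rw [Fintype.card_prod, Fintype.card_fin, Fintype.card_fin]
  rw [h2] at h1
  have h3 : (v * r + 1) ^ (2 * b) ≤ (v * 2 ^ K + 1) ^ (2 * b) :=
    Nat.pow_le_pow_left (Nat.succ_le_succ (Nat.mul_le_mul_left v hr)) _
  exact_mod_cast h1.trans h3

private theorem Di_eps (b R κ : ℕ) :
    epsC (Fin κ) b R ≤ (((κ + 1) ^ (2 * b) : ℕ) : ℝ) * (1 / 2) ^ R := by
  unfold epsC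
  have h1 := Pool.Agent.NegLim.card_lowSets_le (E := Fin κ) b
  rw [Fintype.card_fin] at h1
  refine mul_le_mul_of_nonneg_right ?_ (by positivity)
  exact_mod_cast h1

theorem pr_Di : StDi := by
  classical
  intro hLy hSl hSp hDg U _ _ v b R K q S Y hb hR hq hY hS c hc hcS j
  refine ⟨fun x y hxy hx => Pool.Agent.NegLim.gval_mono c hc j hxy hx, ?_⟩
  intro k hk x
  have hb' : (2 : ℝ) ≤ b := by exact_mod_cast hb
  have hR' : (1 : ℝ) ≤ R := by exact_mod_cast hR
  have hq' : (16 : ℝ) * b * R ≤ q := by exact_mod_cast hq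
  have hqpos : (0 : ℝ) < q := lt_of_lt_of_le (by positivity) hq'
  have hκ : 0 < 64 * b ^ 2 := by positivity
  have : Nonempty (Fin (64 * b ^ 2)) := ⟨⟨0, hκ⟩⟩
  have hBq : (q / 2 : ℝ) / q = 1 / 2 := by field_simp
  have hr1 : 1 ≤ 2 ^ k := Nat.one_le_two_pow
  have hrK : 2 ^ k ≤ 2 ^ K := Nat.pow_le_pow_right (by norm_num) hk
  have hrpos : (0 : ℝ) < ((2 ^ k : ℕ) : ℝ) := by exact_mod_cast hr1
  have hRa : (R : ℝ) * (16 * b / q) = 16 * b * R / q := by ring
  have hY' := hSp U v b (2 ^ k) (q : ℝ) Y hY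
  have key := hDg (Fin v × Fin (2 ^ k)) (Fin (64 * b ^ 2)) (U × Fin (2 ^ k)) (Sym2 (Fin v))
    (16 * b / q) (q / 2) q (1 / ((2 ^ k : ℕ) : ℝ)) b R (fun p => lay (Y p.1) p.2)
    (fun p => x ∪ cl (Y p.1)) (fun z => x ∪ grn z) (by positivity) hR
    (by rw [hRa, div_le_one hqpos]; exact hq') (by positivity) hqpos
    hBq.le hb
    (by field_simp; norm_num) (by rw [Fintype.card_fin]) (by positivity) hY'
    (fun e => Di_in hb Y x e) c hc j
  rcases key with h | h
  · left
    rw [hSl hLy v (64 * b ^ 2) (2 ^ k) (16 * b * R / (q : ℝ))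
      (fun y => if gval c j y = true then (0 : ℝ) else 1) x]
    rw [hRa] at h
    have e1 : (fun z : St (Fin v × Fin (2 ^ k)) (Fin (64 * b ^ 2)) =>
        (if gval c j (x ∪ grn z) = true then (0 : ℝ) else 1)) =
        fun z => ind (¬ gval c j (x ∪ grn z) = true) := by
      funext z
      by_cases hz : gval c j (x ∪ grn z) = true
      · rw [if_pos hz, ind_false (not_not.mpr hz)]
      · rw [if_neg hz, ind_true hz]
    show Ex (16 * b * R / (q : ℝ)) (fun z : St (Fin v × Fin (2 ^ k)) (Fin (64 * b ^ 2)) =>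
        (if gval c j (x ∪ grn z) = true then (0 : ℝ) else 1)) ≤ _
    rw [e1]
    refine h.trans ?_
    have h1 : ((size c : ℕ) : ℝ) ≤ S := by exact_mod_cast hcS
    have h2 := Di_low v (2 ^ k) K b hrK
    have h3 := Di_eps b R (64 * b ^ 2)
    have h4 := epsC_nonneg (C := Fin (64 * b ^ 2)) b R
    refine mul_le_mul (by linarith) (mul_le_mul h2 h3 h4 (by positivity)) (by positivity)
      (by positivity)
  · right
    have hUpos : (0 : ℝ) < Fintype.card U := by exact_mod_cast Fintype.card_pos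
    rw [Di_pairs (2 ^ k) (fun u => gval c j (x ∪ cl (Y u)) = true), Fintype.card_prod,
      Fintype.card_fin] at h
    rw [hBq] at h
    have h2 : ((size c : ℕ) : ℝ) * (2 * (1 / 2) ^ (b + 1)) ≤ 1 := by
      have h3 : ((size c : ℕ) : ℝ) ≤ 2 ^ b := by exact_mod_cast hcS.trans hS
      have h4 : (2 : ℝ) * (1 / 2) ^ (b + 1) = 1 / 2 ^ b := by
        rw [pow_succ, div_pow, one_pow]
        ring
      rw [h4, mul_one_div, div_le_one (by positivity)]
      exact h3
    have h5 : ((univ.filter (fun u => gval c j (x ∪ cl (Y u)) = true)).card : ℝ) *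
        ((2 ^ k : ℕ) : ℝ) ≤ Fintype.card U * 2 := by
      calc ((univ.filter (fun u => gval c j (x ∪ cl (Y u)) = true)).card : ℝ) *
          ((2 ^ k : ℕ) : ℝ) ≤ ((Fintype.card U * 2 ^ k : ℕ) : ℝ) *
            (1 / ((2 ^ k : ℕ) : ℝ) * (2 * (1 / 2) + ((size c : ℕ) : ℝ) *
              (2 * (1 / 2) ^ (b + 1)))) := h
        _ = Fintype.card U * (2 * (1 / 2) + ((size c : ℕ) : ℝ) * (2 * (1 / 2) ^ (b + 1))) := by
          rw [Nat.cast_mul]
          field_simp
        _ ≤ Fintype.card U * 2 := by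
          refine mul_le_mul_of_nonneg_left ?_ hUpos.le
          linarith
    have h6 : ((2 ^ k : ℕ) : ℝ) = 2 ^ k := by push_cast; rfl
    rw [h6] at h5 hrpos
    rw [div_le_div_iff₀ hUpos hrpos]
    linarith

end Pool.Agent.GR
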