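import Pool.Agent.Work.MP_71c844_lc.GR.Stmts

/-!
# Block GR, item Je (convexity)
-/

namespace Pool.Agent.GR

open Finset Pool.Agent.GapLim
open Pool.Agent.NegLim (Gate gval numNot size lowSets)

private theorem Je_point (κ D m : ℕ) (hκ : 2 ≤ κ) :
    (1 / (κ : ℝ)) ^ D * (1 + ((D : ℝ) - m) * Real.log κ) ≤ (1 / (κ : ℝ)) ^ m := by
  have hκ0 : (0 : ℝ) < κ := by positivity
  have h1 : ((D : ℝ) - m) * Real.log κ + 1 ≤ Real.exp (((D : ℝ) - m) * Real.log κ) :=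
    Real.add_one_le_exp _
  have h2 : Real.exp (((D : ℝ) - m) * Real.log κ) = (κ : ℝ) ^ D / (κ : ℝ) ^ m := by
    rw [sub_mul, Real.exp_sub, Real.exp_nat_mul, Real.exp_nat_mul, Real.exp_log hκ0]
  have h3 : (1 / (κ : ℝ)) ^ m = (1 / (κ : ℝ)) ^ D * ((κ : ℝ) ^ D / (κ : ℝ) ^ m) := by
    rw [one_div_pow, one_div_pow]
    field_simp
  rw [h3]
  apply mul_le_mul_of_nonneg_left _ (by positivity)
  rw [← h2]; linarith

theorem pr_Je : StJe := by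
  intro v κ D K d hκ hK hsum
  by_contra hcon
  push Not at hcon
  have hκ0 : (0 : ℝ) < κ := by positivity
  have hlog : 0 < Real.log κ := Real.log_pos (by exact_mod_cast hκ)
  have h1 : ∑ x ∈ K, (1 / (κ : ℝ)) ^ D * (1 + ((D : ℝ) - d x) * Real.log κ) ≤ 1 :=
    le_trans (Finset.sum_le_sum fun x _ => Je_point κ D (d x) hκ) hsum
  have h2 : ∑ x ∈ K, (1 / (κ : ℝ)) ^ D * (1 + ((D : ℝ) - d x) * Real.log κ)
      = (1 / (κ : ℝ)) ^ D * ((K.card : ℝ) + ((D : ℝ) * K.card - ∑ x ∈ K, (d x : ℝ)) * Real.log κ) := by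
    rw [← Finset.mul_sum, Finset.sum_add_distrib, ← Finset.sum_mul, Finset.sum_sub_distrib]
    simp [mul_comm]
  rw [h2] at h1
  have h3 : (∑ x ∈ K, (d x : ℝ)) < (D : ℝ) * K.card := by exact_mod_cast hcon
  have h4 : (κ : ℝ) ^ D ≤ (K.card : ℝ) := by exact_mod_cast hK
  have h5 : (1 / (κ : ℝ)) ^ D * ((κ : ℝ) ^ D) = 1 := by
    rw [one_div_pow]; field_simp
  have h6 : (0 : ℝ) < (1 / (κ : ℝ)) ^ D := by positivity
  have h7 : 0 < ((D : ℝ) * K.card - ∑ x ∈ K, (d x : ℝ)) * Real.log κ :=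
    mul_pos (by linarith) hlog
  have h8 : (1 / (κ : ℝ)) ^ D * ((κ : ℝ) ^ D) <
      (1 / (κ : ℝ)) ^ D * ((K.card : ℝ) + ((D : ℝ) * K.card - ∑ x ∈ K, (d x : ℝ)) * Real.log κ) :=
    mul_lt_mul_of_pos_left (by linarith) h6
  linarith

end Pool.Agent.GR
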