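import Pool.Agent.Work.MP_71c844_lc.GR.Stmts

/-!
# Block GR, item Kr: the Kraft inequality
-/

namespace Pool.Agent.GR

open Finset Pool.Agent.GapLim
open Pool.Agent.NegLim (Gate gval numNot size lowSets)

open Classical in
/-- the colours allowed in the layer `i` -/
private noncomputable def Kr_T {v κ r : ℕ} (z : St (Fin v × Fin r) (Fin κ)) (K : Finset (Fin v))
    (x : Fin v) (i : Fin r) : Finset (Fin κ) :=
  if z (x, i) ≠ none ∧ 2 ≤ pres K (fun a => z (a, i)) then
    univ.filter (fun c => z (x, i) = some c) else univ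

private theorem Kr_card_T {v κ r : ℕ} (z : St (Fin v × Fin r) (Fin κ)) (K : Finset (Fin v))
    (x : Fin v) (i : Fin r) :
    (Kr_T z K x i).card
      = if z (x, i) ≠ none ∧ 2 ≤ pres K (fun a => z (a, i)) then 1 else κ := by
  unfold Kr_T
  by_cases h : z (x, i) ≠ none ∧ 2 ≤ pres K (fun a => z (a, i))
  · rw [if_pos h, if_pos h]
    obtain ⟨c, hc⟩ := Option.ne_none_iff_exists'.mp h.1
    rw [Finset.card_eq_one]
    refine ⟨c, ?_⟩
    ext d
    simp only [Finset.mem_filter, Finset.mem_univ, true_and, Finset.mem_singleton, hc,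
      Option.some.injEq]
    exact eq_comm
  · rw [if_neg h, if_neg h]
    simp

private theorem Kr_card {v κ r : ℕ} (z : St (Fin v × Fin r) (Fin κ)) (K : Finset (Fin v))
    (hκ : 1 ≤ κ) (x : Fin v) :
    ((Fintype.piFinset (Kr_T z K x)).card : ℝ) = (1 / (κ : ℝ)) ^ degL z K x * (κ : ℝ) ^ r := by
  have hκ0 : (κ : ℝ) ≠ 0 := by
    have : (0 : ℝ) < κ := by exact_mod_cast hκ
    exact this.ne'
  rw [Fintype.card_piFinset]
  unfold degL
  rw [Finset.card_filter, ← Finset.prod_pow_eq_pow_sum]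
  have h : (κ : ℝ) ^ r = ∏ _i : Fin r, (κ : ℝ) := by simp
  rw [h, ← Finset.prod_mul_distrib]
  push_cast
  refine Finset.prod_congr rfl fun i _ => ?_
  rw [Kr_card_T]
  by_cases hc : z (x, i) ≠ none ∧ 2 ≤ pres K (fun a => z (a, i))
  · rw [if_pos hc, if_pos hc]
    field_simp
    simp
  · rw [if_neg hc, if_neg hc]
    simp

/-- **Kr**: the Kraft inequality -/
theorem pr_Kr : StKr := by
  intro v κ r z K hκ hK
  classical
  have hκ0 : (0 : ℝ) < κ := by exact_mod_cast hκ
  have hdis : (K : Set (Fin v)).PairwiseDisjoint (fun x => Fintype.piFinset (Kr_T z K x)) := by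
    intro x hx y hy hxy
    rw [Function.onFun, Finset.disjoint_left]
    intro g hgx hgy
    have hmem := hK x hx y hy hxy
    simp only [grn, Finset.mem_filter, Finset.mem_univ, true_and] at hmem
    obtain ⟨i, a, b, he, ha, hb, hab⟩ := hmem
    have key : z (x, i) ≠ none ∧ z (y, i) ≠ none ∧ z (x, i) ≠ z (y, i) := by
      rcases Sym2.eq_iff.mp he with ⟨h1, h2⟩ | ⟨h1, h2⟩
      · rw [h1, h2]
        exact ⟨ha, hb, hab⟩
      · rw [h1, h2]
        exact ⟨hb, ha, hab.symm⟩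
    have hpres : 2 ≤ pres K (fun a => z (a, i)) := by
      unfold pres
      refine Finset.one_lt_card.mpr ⟨x, ?_, y, ?_, hxy⟩
      · exact Finset.mem_filter.mpr ⟨hx, key.1⟩
      · exact Finset.mem_filter.mpr ⟨hy, key.2.1⟩
    have gx := (Fintype.mem_piFinset.mp hgx) i
    have gy := (Fintype.mem_piFinset.mp hgy) i
    unfold Kr_T at gx gy
    rw [if_pos ⟨key.1, hpres⟩, Finset.mem_filter] at gx
    rw [if_pos ⟨key.2.1, hpres⟩, Finset.mem_filter] at gy
    exact key.2.2 (gx.2.trans gy.2.symm)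
  have hcard : ∑ x ∈ K, (Fintype.piFinset (Kr_T z K x)).card ≤ κ ^ r := by
    rw [← Finset.card_biUnion hdis]
    calc (K.biUnion fun x => Fintype.piFinset (Kr_T z K x)).card
        ≤ (Finset.univ : Finset (Fin r → Fin κ)).card := Finset.card_le_univ _
      _ = κ ^ r := by simp
  have hreal : (∑ x ∈ K, (1 / (κ : ℝ)) ^ degL z K x) * (κ : ℝ) ^ r ≤ 1 * (κ : ℝ) ^ r := by
    rw [Finset.sum_mul, one_mul]
    calc ∑ x ∈ K, (1 / (κ : ℝ)) ^ degL z K x * (κ : ℝ) ^ r
        = ∑ x ∈ K, ((Fintype.piFinset (Kr_T z K x)).card : ℝ) :=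
          Finset.sum_congr rfl fun x _ => (Kr_card z K hκ x).symm
      _ = ((∑ x ∈ K, (Fintype.piFinset (Kr_T z K x)).card : ℕ) : ℝ) := by push_cast; rfl
      _ ≤ ((κ ^ r : ℕ) : ℝ) := by exact_mod_cast hcard
      _ = (κ : ℝ) ^ r := by push_cast; rfl
  exact le_of_mul_le_mul_right hreal (pow_pos hκ0 r)

end Pool.Agent.GR
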