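import Pool.Agent.Work.MP_71c844_lc.GR.Stmts

/-!
# Block GR, item Ly: the product measure on the layers
-/

set_option autoImplicit false

namespace Pool.Agent.GR

open Finset Pool.Agent.GapLim
open Pool.Agent.NegLim (Gate gval numNot size lowSets)

/-- the glued state -/
def Ly_glue {v κ r : ℕ} (z : St (Fin v × Fin r) (Fin κ)) (z' : St (Fin v) (Fin κ)) :
    St (Fin v × Fin (r + 1)) (Fin κ) :=
  fun p => if h : p.2.1 < r then z (p.1, ⟨p.2.1, h⟩) else z' p.1

theorem Ly_castSucc {v κ r : ℕ} (z : St (Fin v × Fin r) (Fin κ)) (z' : St (Fin v) (Fin κ))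
    (a : Fin v) (i : Fin r) : Ly_glue z z' (a, i.castSucc) = z (a, i) := by
  unfold Ly_glue
  have h : ((a, i.castSucc) : Fin v × Fin (r + 1)).2.1 < r := i.2
  rw [dif_pos h]
  rfl

theorem Ly_last {v κ r : ℕ} (z : St (Fin v × Fin r) (Fin κ)) (z' : St (Fin v) (Fin κ))
    (a : Fin v) : Ly_glue z z' (a, Fin.last r) = z' a := by
  unfold Ly_glue
  have h : ¬ ((a, Fin.last r) : Fin v × Fin (r + 1)).2.1 < r := lt_irrefl r
  rw [dif_neg h]

/-- the bijection -/
def Ly_e (v κ r : ℕ) :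
    St (Fin v × Fin r) (Fin κ) × St (Fin v) (Fin κ) ≃ St (Fin v × Fin (r + 1)) (Fin κ) where
  toFun q := Ly_glue q.1 q.2
  invFun y := (fun p => y (p.1, p.2.castSucc), fun a => y (a, Fin.last r))
  left_inv q := by
    refine Prod.ext ?_ ?_
    · funext p
      exact Ly_castSucc q.1 q.2 p.1 p.2
    · funext a
      exact Ly_last q.1 q.2 a
  right_inv y := by
    funext p
    obtain ⟨a, i⟩ := p
    refine Fin.lastCases ?_ (fun i => ?_) i
    · exact Ly_last _ _ a
    · exact Ly_castSucc _ _ a i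

theorem Ly_prod {v κ r : ℕ} (ρ : ℝ) (z : St (Fin v × Fin r) (Fin κ)) (z' : St (Fin v) (Fin κ)) :
    ∏ p, pw (Fin κ) ρ (Ly_glue z z' p) =
      (∏ p, pw (Fin κ) ρ (z p)) * ∏ a, pw (Fin κ) ρ (z' a) := by
  rw [Fintype.prod_prod_type, Fintype.prod_prod_type, ← Finset.prod_mul_distrib]
  refine Finset.prod_congr rfl fun a _ => ?_
  rw [Fin.prod_univ_castSucc, Ly_last]
  congr 1
  exact Finset.prod_congr rfl fun i _ => by rw [Ly_castSucc]

theorem pr_Ly : StLy := by
  intro v κ r ρ f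
  have h1 : Ex ρ f = ∑ q : St (Fin v × Fin r) (Fin κ) × St (Fin v) (Fin κ),
      (∏ p, pw (Fin κ) ρ (Ly_glue q.1 q.2 p)) * f (Ly_glue q.1 q.2) := by
    unfold Ex
    exact (Fintype.sum_equiv (Ly_e v κ r) _ _ fun q => rfl).symm
  rw [h1, Fintype.sum_prod_type]
  unfold Ex
  refine Finset.sum_congr rfl fun z _ => ?_
  rw [Finset.mul_sum]
  refine Finset.sum_congr rfl fun z' _ => ?_
  rw [Ly_prod, mul_assoc]
  rfl

end Pool.Agent.GR
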