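import Pool.Agent.Work.MP_71c844_lc.GR.Stmts

/-!
# Block GR, item Mo: the exponential moment in one layer
-/

namespace Pool.Agent.GR

open Finset Pool.Agent.GapLim
open Pool.Agent.NegLim (Gate gval numNot size lowSets)

/-- `(1 + y) ^ k ≤ 1 + k y + (k y) ^ 2` if `0 ≤ y` and `k y ≤ 1` -/
theorem Mo_pow (y : ℝ) (hy : 0 ≤ y) (k : ℕ) (hk : (k : ℝ) * y ≤ 1) :
    (1 + y) ^ k ≤ 1 + k * y + (k * y) ^ 2 := by
  induction k with
  | zero => simp
  | succ k ih =>
    have hk0 : (0 : ℝ) ≤ (k : ℝ) := Nat.cast_nonneg k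
    push_cast at hk ⊢
    have hk1 : (k : ℝ) * y ≤ 1 := by nlinarith
    have h1 := ih hk1
    have h2 : (1 + y) ^ (k + 1) ≤ (1 + k * y + (k * y) ^ 2) * (1 + y) := by
      rw [pow_succ]
      exact mul_le_mul_of_nonneg_right h1 (by linarith)
    refine h2.trans ?_
    have h3 : (k : ℝ) * (k * y) ≤ k * 1 := mul_le_mul_of_nonneg_left hk1 hk0
    have h4 : ((k : ℝ) * (k * y)) * y ^ 2 ≤ (k * 1) * y ^ 2 :=
      mul_le_mul_of_nonneg_right h3 (sq_nonneg y)
    nlinarith [sq_nonneg y]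

/-- the terms of order at least two of the binomial expansion -/
theorem Mo_tail {v : ℕ} (K : Finset (Fin v)) (y : ℝ) (hy : 0 ≤ y) (hk : (K.card : ℝ) * y ≤ 1) :
    ∑ A ∈ K.powerset.filter (fun A => 2 ≤ A.card), y ^ A.card ≤ (K.card * y) ^ 2 := by
  classical
  have hall : ∑ A ∈ K.powerset, y ^ A.card = (1 + y) ^ K.card := by
    have := Finset.sum_pow_mul_eq_add_pow y 1 K
    simp only [one_pow, mul_one] at this
    rw [this, add_comm]
  have hsplit : ∑ A ∈ K.powerset.filter (fun A => 2 ≤ A.card), y ^ A.card +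
      ∑ A ∈ K.powerset.filter (fun A => ¬ 2 ≤ A.card), y ^ A.card = ∑ A ∈ K.powerset, y ^ A.card :=
    Finset.sum_filter_add_sum_filter_not _ _ _
  have hlow : 1 + (K.card : ℝ) * y ≤
      ∑ A ∈ K.powerset.filter (fun A => ¬ 2 ≤ A.card), y ^ A.card := by
    have hnot : (∅ : Finset (Fin v)) ∉ K.image (fun a => ({a} : Finset (Fin v))) := by
      intro h
      obtain ⟨a, _, ha⟩ := Finset.mem_image.mp h
      exact Finset.singleton_ne_empty a ha
    have hsub : insert ∅ (K.image (fun a => ({a} : Finset (Fin v)))) ⊆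
        K.powerset.filter (fun A => ¬ 2 ≤ A.card) := by
      intro A hA
      rw [Finset.mem_insert] at hA
      rw [Finset.mem_filter, Finset.mem_powerset]
      rcases hA with rfl | hA
      · exact ⟨Finset.empty_subset _, by simp⟩
      · obtain ⟨a, ha, rfl⟩ := Finset.mem_image.mp hA
        exact ⟨Finset.singleton_subset_iff.mpr ha, by simp⟩
    have hsum : ∑ A ∈ insert ∅ (K.image (fun a => ({a} : Finset (Fin v)))), y ^ A.card =
        1 + (K.card : ℝ) * y := by
      rw [Finset.sum_insert hnot, Finset.sum_image fun a _ b _ hab => Finset.singleton_injective hab]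
      simp
    rw [← hsum]
    exact Finset.sum_le_sum_of_subset_of_nonneg hsub fun A _ _ => pow_nonneg hy _
  have hpow := Mo_pow y hy K.card hk
  linarith

/-- the pointwise bound -/
theorem Mo_pt {v κ : ℕ} (K : Finset (Fin v)) (Z : ℝ) (hZ : 1 ≤ Z) (z : St (Fin v) (Fin κ)) :
    Z ^ pres2 K z ≤ 1 + ∑ A ∈ K.powerset.filter (fun A => 2 ≤ A.card),
      Z ^ A.card * ind (∀ a ∈ A, z a ≠ none) := by
  classical
  have hZ0 : 0 ≤ Z := by linarith
  have hnn : ∀ A ∈ K.powerset.filter (fun A => 2 ≤ A.card),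
      0 ≤ Z ^ A.card * ind (∀ a ∈ A, z a ≠ none) :=
    fun A _ => mul_nonneg (pow_nonneg hZ0 _) (ind_nonneg _)
  have hsum0 := Finset.sum_nonneg hnn
  unfold pres2
  split_ifs with h
  · have hmem : K.filter (fun a => z a ≠ none) ∈ K.powerset.filter (fun A => 2 ≤ A.card) := by
      rw [Finset.mem_filter, Finset.mem_powerset]
      refine ⟨Finset.filter_subset _ _, ?_⟩
      have h' := h
      unfold pres at h'
      exact h'
    have hle := Finset.single_le_sum hnn hmem
    have hone : ind (∀ a ∈ K.filter (fun a => z a ≠ none), z a ≠ none) = 1 :=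
      ind_true fun a ha => (Finset.mem_filter.mp ha).2
    have hcard : (K.filter (fun a => z a ≠ none)).card = pres K z := by
      unfold pres
      congr 1
    rw [hone, mul_one, hcard] at hle
    linarith
  · rw [pow_zero]
    linarith

theorem pr_Mo : StMo := by
  intro v κ K ρ Z hκ hρ0 hρ1 hZ hk
  classical
  have hne : Nonempty (Fin κ) := ⟨⟨0, hκ⟩⟩
  have hZ0 : 0 ≤ Z := by linarith
  have hy : 0 ≤ ρ * Z := mul_nonneg hρ0 hZ0
  have hky : (K.card : ℝ) * (ρ * Z) ≤ 1 := by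
    rw [← mul_assoc]
    exact hk
  refine (Ex_mono hρ0 hρ1 (Mo_pt K Z hZ)).trans ?_
  rw [Ex_add, Ex_const, Ex_sum]
  have h1 : ∀ A ∈ K.powerset.filter (fun A => 2 ≤ A.card),
      Ex ρ (fun z : St (Fin v) (Fin κ) => Z ^ A.card * ind (∀ a ∈ A, z a ≠ none)) =
        (ρ * Z) ^ A.card := by
    intro A _
    rw [Ex_smul, Ex_dom, mul_pow, mul_comm]
  rw [Finset.sum_congr rfl h1]
  have h2 := Mo_tail K (ρ * Z) hy hky
  have h3 : (K.card : ℝ) * ρ * Z = K.card * (ρ * Z) := by ring
  rw [h3]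
  linarith

end Pool.Agent.GR
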