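import Pool.Agent.Work.MP_71c844_lc.GR.Stmts

/-! Block GR, item Pr. -/

namespace Pool.Agent.GR

open Finset Pool.Agent.GapLim
open Pool.Agent.NegLim (Gate gval numNot size lowSets)

theorem pr_Pr : StPr := by
  intro hLy v κ r ρ g hκ
  haveI : Nonempty (Fin κ) := ⟨⟨0, hκ⟩⟩
  induction r with
  | zero =>
    simp only [Finset.univ_eq_empty, Finset.prod_empty, pow_zero]
    exact Ex_const ρ 1
  | succ r ih =>
    rw [hLy v κ r ρ]
    have h1 : ∀ (z : St (Fin v × Fin r) (Fin κ)) (z' : St (Fin v) (Fin κ)),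
        (∏ i : Fin (r + 1), g (fun a => if h : ((a, i) : Fin v × Fin (r + 1)).2.1 < r
          then z (((a, i) : Fin v × Fin (r + 1)).1, ⟨((a, i) : Fin v × Fin (r + 1)).2.1, h⟩)
          else z' ((a, i) : Fin v × Fin (r + 1)).1)) =
        (∏ i : Fin r, g (fun a => z (a, i))) * g z' := by
      intro z z'
      rw [Fin.prod_univ_castSucc]
      congr 1
      · refine Finset.prod_congr rfl fun i _ => ?_
        congr 1
        funext a
        simp
      · congr 1
        funext a
        simp
    have h2 : Ex ρ (fun z : St (Fin v × Fin r) (Fin κ) => Ex ρ (fun z' : St (Fin v) (Fin κ) =>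
        ∏ i : Fin (r + 1), g (fun a => if h : ((a, i) : Fin v × Fin (r + 1)).2.1 < r
          then z (((a, i) : Fin v × Fin (r + 1)).1, ⟨((a, i) : Fin v × Fin (r + 1)).2.1, h⟩)
          else z' ((a, i) : Fin v × Fin (r + 1)).1))) =
        Ex ρ (fun z : St (Fin v × Fin r) (Fin κ) => Ex ρ g * ∏ i : Fin r, g (fun a => z (a, i))) := by
      congr 1
      funext z
      rw [show (fun z' : St (Fin v) (Fin κ) =>
        ∏ i : Fin (r + 1), g (fun a => if h : ((a, i) : Fin v × Fin (r + 1)).2.1 < r
          then z (((a, i) : Fin v × Fin (r + 1)).1, ⟨((a, i) : Fin v × Fin (r + 1)).2.1, h⟩)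
          else z' ((a, i) : Fin v × Fin (r + 1)).1)) =
        fun z' => (∏ i : Fin r, g (fun a => z (a, i))) * g z' from funext fun z' => h1 z z']
      rw [Ex_smul, mul_comm]
    rw [h2, Ex_smul, ih, pow_succ]
    ring

end Pool.Agent.GR
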