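import Pool.Agent.Work.MP_71c844_lc.GR.Stmts

/-!
# Block GR, item Px
-/

namespace Pool.Agent.GR

open Finset Pool.Agent.GapLim
open Pool.Agent.NegLim (Gate gval numNot size lowSets)

theorem pr_Px : StPx := by
  intro q X hX hq
  have hX2 : 0 < X ^ 2 := by positivity
  have hdiv : q ^ 2 / X ^ 2 ≠ 0 := by
    have h1 : X ^ 2 ≤ q ^ 2 := Nat.pow_le_pow_left hq 2
    have h2 : 0 < q ^ 2 / X ^ 2 := Nat.div_pos h1 hX2
    omega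
  refine ⟨Nat.log 2 (q ^ 2 / X ^ 2), ?_, ?_⟩
  · calc 2 ^ Nat.log 2 (q ^ 2 / X ^ 2) * X ^ 2 ≤ (q ^ 2 / X ^ 2) * X ^ 2 :=
          Nat.mul_le_mul_right _ (Nat.pow_log_le_self 2 hdiv)
      _ ≤ q ^ 2 := Nat.div_mul_le_self _ _
  · have h1 : q ^ 2 / X ^ 2 < 2 ^ (Nat.log 2 (q ^ 2 / X ^ 2) + 1) :=
      Nat.lt_pow_succ_log_self (by norm_num) _
    exact (Nat.div_lt_iff_lt_mul hX2).1 h1

end Pool.Agent.GR
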