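import Pool.Agent.Work.MP_71c844_lc.GR.Stmts

/-!
# Block GR, item Sl: the steps of the chain as one random state of several layers
-/

set_option autoImplicit false

namespace Pool.Agent.GR

open Finset Pool.Agent.GapLim
open Pool.Agent.NegLim (Gate gval numNot size lowSets)

open Classical in
theorem Sl_mem {v κ r : ℕ} (z : St (Fin v × Fin r) (Fin κ)) (e : Sym2 (Fin v)) :
    e ∈ grn z ↔ ∃ (i : Fin r) (a b : Fin v), e = s(a, b) ∧ z (a, i) ≠ none ∧
      z (b, i) ≠ none ∧ z (a, i) ≠ z (b, i) := by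
  unfold grn
  simp only [Finset.mem_filter, Finset.mem_univ, true_and]

/-- the glued state -/
def Sl_g {v κ r : ℕ} (z : St (Fin v × Fin r) (Fin κ)) (z' : St (Fin v) (Fin κ)) :
    St (Fin v × Fin (r + 1)) (Fin κ) :=
  fun p => if h : p.2.1 < r then z (p.1, ⟨p.2.1, h⟩) else z' p.1

theorem Sl_glue {v κ r : ℕ} (z : St (Fin v × Fin r) (Fin κ)) (z' : St (Fin v) (Fin κ)) :
    grn (Sl_g z z') = grn z ∪ gr z' := by
  have hc : ∀ (a : Fin v) (i : Fin (r + 1)) (h : i.1 < r),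
      Sl_g z z' (a, i) = z (a, ⟨i.1, h⟩) := fun a i h => dif_pos h
  have hl : ∀ (a : Fin v) (i : Fin (r + 1)) (_ : ¬ i.1 < r),
      Sl_g z z' (a, i) = z' a := fun a i h => dif_neg h
  ext e
  rw [Finset.mem_union, Sl_mem, Sl_mem, mem_gr]
  constructor
  · rintro ⟨i, a, b, he, h1, h2, h3⟩
    by_cases h : i.1 < r
    · rw [hc a i h] at h1 h3
      rw [hc b i h] at h2 h3
      exact Or.inl ⟨⟨i.1, h⟩, a, b, he, h1, h2, h3⟩
    · rw [hl a i h] at h1 h3
      rw [hl b i h] at h2 h3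
      exact Or.inr ⟨a, b, he, h1, h2, h3⟩
  · rintro (⟨i, a, b, he, h1, h2, h3⟩ | ⟨a, b, he, h1, h2, h3⟩)
    · refine ⟨i.castSucc, a, b, he, ?_, ?_, ?_⟩
      · rw [hc a i.castSucc i.2]
        exact h1
      · rw [hc b i.castSucc i.2]
        exact h2
      · rw [hc a i.castSucc i.2, hc b i.castSucc i.2]
        exact h3
    · have hn : ¬ (Fin.last r).1 < r := lt_irrefl r
      refine ⟨Fin.last r, a, b, he, ?_, ?_, ?_⟩
      · rw [hl a _ hn]
        exact h1
      · rw [hl b _ hn]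
        exact h2
      · rw [hl a _ hn, hl b _ hn]
        exact h3

theorem pr_Sl : StSl := by
  intro hLy v κ r ρ
  induction r with
  | zero =>
    intro φ x
    have hg : ∀ z : St (Fin v × Fin 0) (Fin κ), grn z = ∅ := by
      intro z
      refine Finset.eq_empty_of_forall_notMem fun e he => ?_
      obtain ⟨i, -⟩ := (Sl_mem z e).1 he
      exact i.elim0
    have h1 : ∀ z : St (Fin v × Fin 0) (Fin κ), (∏ a, pw (Fin κ) ρ (z a)) * φ (x ∪ grn z) = φ x := by
      intro z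
      rw [hg z, Finset.union_empty, Finset.univ_eq_empty, Finset.prod_empty, one_mul]
    have h2 : Fintype.card (St (Fin v × Fin 0) (Fin κ)) = 1 := by
      rw [Fintype.card_eq_one_iff]
      exact ⟨fun p => p.2.elim0, fun y => funext fun p => p.2.elim0⟩
    show φ x = ∑ z : St (Fin v × Fin 0) (Fin κ), (∏ a, pw (Fin κ) ρ (z a)) * φ (x ∪ grn z)
    rw [Finset.sum_congr rfl fun z _ => h1 z, Finset.sum_const, Finset.card_univ, h2, one_smul]
  | succ r ih =>
    intro φ x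
    have h1 : Sn (Ω := St (Fin v) (Fin κ)) (wgt ρ) gr (r + 1) φ x =
        Sn (Ω := St (Fin v) (Fin κ)) (wgt ρ) gr r
          (S1 (Ω := St (Fin v) (Fin κ)) (wgt ρ) gr φ) x := rfl
    rw [h1, ih, hLy]
    congr 1
    funext z
    show ∑ z' : St (Fin v) (Fin κ), wgt ρ z' * φ (x ∪ grn z ∪ gr z') =
      ∑ z' : St (Fin v) (Fin κ), (∏ a, pw (Fin κ) ρ (z' a)) * φ (x ∪ grn (Sl_g z z'))
    refine Finset.sum_congr rfl fun z' _ => ?_
    rw [Sl_glue, ← Finset.union_assoc]
    rfl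

end Pool.Agent.GR
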