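import Pool.Agent.Work.MP_71c844_lc.GR.Final
import Pool.Agent.Work.MP_71c844_lc.GR.I_Kr
import Pool.Agent.Work.MP_71c844_lc.GR.I_Je
import Pool.Agent.Work.MP_71c844_lc.GR.I_Dc
import Pool.Agent.Work.MP_71c844_lc.GR.I_Mo
import Pool.Agent.Work.MP_71c844_lc.GR.I_Ly
import Pool.Agent.Work.MP_71c844_lc.GR.I_Sl
import Pool.Agent.Work.MP_71c844_lc.GR.I_Pr
import Pool.Agent.Work.MP_71c844_lc.GR.I_Cb
import Pool.Agent.Work.MP_71c844_lc.GR.I_Sp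
import Pool.Agent.Work.MP_71c844_lc.GR.I_Dg
import Pool.Agent.Work.MP_71c844_lc.GR.I_Di
import Pool.Agent.Work.MP_71c844_lc.GR.I_Px

/-!
# Block GR: all items
-/

namespace Pool.Agent.GR

theorem items : Items :=
  ⟨pr_Kr, pr_Je, pr_Dc, pr_Mo, pr_Ly, pr_Sl, pr_Pr, pr_Cb, pr_Sp, pr_Dg, pr_Di, pr_Px⟩

end Pool.Agent.GR
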