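import Pool.Agent.Work.MP_71c844_lc.GR.Stmts2

/-!
# Block GR, item CbB: the union graph has no large clique with probability at least one half
-/

namespace Pool.Agent.GR

open Finset Pool.Agent.GapLim

/-- pointwise bound for one state -/
private lemma CbB_point (hKr : StKrB) (hWt : StWtB) (hCm : StCmB) (v κ D B L k r : ℕ) (hv : 2 ≤ v)
    (hκ : 8 ≤ κ) (hD : 1 ≤ D) (hL : v < 2 ^ L) (hk : L * κ ^ D ≤ k) (hB : v ^ 12 ≤ B ^ D)
    (z : St (Fin v × Fin r) (Fin κ)) :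
    ind (HasCl k (grn z)) ≤
      ∑ K ∈ powersetCard k (univ : Finset (Fin v)), (1 / (v : ℝ) ^ (2 * k)) *
        ∏ i : Fin r, ((wt B (pres K (fun a => z (a, i))) : ℕ) : ℝ) := by
  have hvp : (0 : ℝ) < (v : ℝ) := by
    have : 0 < v := by omega
    exact_mod_cast this
  have hpos : ∀ K ∈ powersetCard k (univ : Finset (Fin v)),
      0 ≤ (1 / (v : ℝ) ^ (2 * k)) *
        ∏ i : Fin r, ((wt B (pres K (fun a => z (a, i))) : ℕ) : ℝ) := by
    intro K _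
    refine mul_nonneg (by positivity) (Finset.prod_nonneg fun i _ => Nat.cast_nonneg _)
  by_cases hcl : HasCl k (grn z)
  · rw [ind_true hcl]
    obtain ⟨K, hK, hIs⟩ := hcl
    have h1 := hCm hKr hWt v κ r D B L k z K hv hκ hD hL hk hB hK hIs
    have h2 : (v : ℝ) ^ (2 * k) ≤ ∏ i : Fin r, ((wt B (pres K (fun a => z (a, i))) : ℕ) : ℝ) := by
      exact_mod_cast h1
    have h3 : (1 : ℝ) ≤ (1 / (v : ℝ) ^ (2 * k)) *
        ∏ i : Fin r, ((wt B (pres K (fun a => z (a, i))) : ℕ) : ℝ) := by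
      rw [one_div, ← div_eq_inv_mul, one_le_div (by positivity)]
      exact h2
    exact h3.trans (Finset.single_le_sum (f := fun K => (1 / (v : ℝ) ^ (2 * k)) *
        ∏ i : Fin r, ((wt B (pres K (fun a => z (a, i))) : ℕ) : ℝ)) hpos
        (Finset.mem_powersetCard.2 ⟨Finset.subset_univ K, hK⟩))
  · rw [ind_false hcl]
    exact Finset.sum_nonneg hpos

/-- the expectation of one term -/
private lemma CbB_term (hMo : StMoB) (hLy : StLy) (hPr : StPr) (v κ B k r : ℕ) (ρ : ℝ)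
    (hκ : 8 ≤ κ) (hB : 1 ≤ B) (h0 : 0 ≤ ρ) (h1 : ρ ≤ 1) (hBk : B * k * ρ ≤ 1)
    (hr : 6 * r * k * ρ ^ 2 ≤ 1) (K : Finset (Fin v)) (hK : K.card = k) :
    Ex ρ (fun z : St (Fin v × Fin r) (Fin κ) => (1 / (v : ℝ) ^ (2 * k)) *
        ∏ i : Fin r, ((wt B (pres K (fun a => z (a, i))) : ℕ) : ℝ)) ≤
      Real.exp (k / 2) / (v : ℝ) ^ (2 * k) := by
  rw [Ex_smul, hPr hLy v κ r ρ (fun z' : St (Fin v) (Fin κ) => ((wt B (pres K z') : ℕ) : ℝ))
    (by omega)]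
  have hE0 : 0 ≤ Ex ρ (fun z' : St (Fin v) (Fin κ) => ((wt B (pres K z') : ℕ) : ℝ)) :=
    Ex_nonneg h0 h1 fun z => Nat.cast_nonneg _
  have hpow : Ex ρ (fun z' : St (Fin v) (Fin κ) => ((wt B (pres K z') : ℕ) : ℝ)) ^ r ≤
      Real.exp (k / 2) := by
    have h3 := hMo v κ B K ρ (by omega) h0 h1 hB (by rw [hK]; linarith)
    rw [hK] at h3
    have h4 : Ex ρ (fun z' : St (Fin v) (Fin κ) => ((wt B (pres K z') : ℕ) : ℝ)) ≤
        Real.exp (3 * ((k : ℝ) * ρ) ^ 2) := by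
      refine h3.trans ?_
      have := Real.add_one_le_exp (3 * ((k : ℝ) * ρ) ^ 2)
      linarith
    have hkk : (0 : ℝ) ≤ (k : ℝ) := Nat.cast_nonneg _
    calc Ex ρ (fun z' : St (Fin v) (Fin κ) => ((wt B (pres K z') : ℕ) : ℝ)) ^ r ≤
          Real.exp (3 * ((k : ℝ) * ρ) ^ 2) ^ r := pow_le_pow_left₀ hE0 h4 r
      _ = Real.exp (r * (3 * ((k : ℝ) * ρ) ^ 2)) := by rw [← Real.exp_nat_mul]
      _ ≤ Real.exp (k / 2) := by
        refine Real.exp_le_exp.2 ?_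
        have h5 : (k : ℝ) * (6 * r * k * ρ ^ 2) ≤ (k : ℝ) * 1 := mul_le_mul_of_nonneg_left hr hkk
        nlinarith
  calc 1 / (v : ℝ) ^ (2 * k) *
        Ex ρ (fun z' : St (Fin v) (Fin κ) => ((wt B (pres K z') : ℕ) : ℝ)) ^ r ≤
        1 / (v : ℝ) ^ (2 * k) * Real.exp (k / 2) := mul_le_mul_of_nonneg_left hpow (by positivity)
    _ = Real.exp (k / 2) / (v : ℝ) ^ (2 * k) := by ring

private lemma CbB_exp (k : ℕ) (hk : 8 ≤ k) : 2 * Real.exp (k / 2) ≤ (2 : ℝ) ^ k := by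
  have h1 : Real.exp (1 / 2) ≤ 33 / 20 := by
    have h2 : Real.exp (1 / 2) ^ 2 = Real.exp 1 := by
      rw [← Real.exp_nat_mul]
      norm_num
    have h3 := Real.exp_one_lt_d9
    have h4 := Real.exp_pos (1 / 2)
    by_contra hcon
    push Not at hcon
    nlinarith
  have h5 : Real.exp (k / 2) = Real.exp (1 / 2) ^ k := by
    rw [← Real.exp_nat_mul]
    congr 1
    ring
  have h6 : Real.exp (k / 2) ≤ (33 / 20 : ℝ) ^ k := by
    rw [h5]
    exact pow_le_pow_left₀ (Real.exp_pos _).le h1 k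
  have h7 : ((33 : ℝ) / 40) ^ k ≤ (33 / 40 : ℝ) ^ 8 :=
    pow_le_pow_of_le_one (by norm_num) (by norm_num) hk
  have h8 : ((33 : ℝ) / 20) ^ k = 2 ^ k * (33 / 40 : ℝ) ^ k := by
    rw [← mul_pow]
    norm_num
  have h9 : ((33 : ℝ) / 40) ^ 8 ≤ 1 / 2 := by norm_num
  have h10 : (0 : ℝ) < 2 ^ k := by positivity
  calc 2 * Real.exp (k / 2) ≤ 2 * (33 / 20 : ℝ) ^ k := by linarith
    _ = 2 * (2 ^ k * (33 / 40 : ℝ) ^ k) := by rw [h8]
    _ ≤ 2 * (2 ^ k * (1 / 2)) := by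
      have := mul_le_mul_of_nonneg_left (h7.trans h9) h10.le
      linarith
    _ = 2 ^ k := by ring

/-- CbB -/
theorem pr_CbB : StCbB := by
  intro hKr hWt hCm hMo hLy hPr v κ D B L k r ρ hv hκ hD hL hk hB h0 h1 hBk hr
  have hB1 : 1 ≤ B := by
    rcases Nat.eq_zero_or_pos B with h | h
    · exfalso
      rw [h, zero_pow (by omega)] at hB
      have : 0 < v ^ 12 := Nat.pow_pos (by omega)
      omega
    · exact h
  have hL1 : 1 ≤ L := by
    rcases Nat.eq_zero_or_pos L with h | h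
    · rw [h, pow_zero] at hL
      omega
    · exact h
  have hk8 : 8 ≤ k := by
    have h2 : κ ≤ κ ^ D := Nat.le_self_pow (by omega) κ
    have h3 : κ ^ D ≤ L * κ ^ D := Nat.le_mul_of_pos_left _ hL1
    omega
  have hvp : (0 : ℝ) < (v : ℝ) := by
    have : 0 < v := by omega
    exact_mod_cast this
  have hA : Ex ρ (fun z : St (Fin v × Fin r) (Fin κ) => ind (HasCl k (grn z))) ≤
      ∑ K ∈ powersetCard k (univ : Finset (Fin v)), Real.exp (k / 2) / (v : ℝ) ^ (2 * k) := by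
    refine (Ex_mono h0 h1 (CbB_point hKr hWt hCm v κ D B L k r hv hκ hD hL hk hB)).trans ?_
    rw [Ex_sum]
    exact Finset.sum_le_sum fun K hK => CbB_term hMo hLy hPr v κ B k r ρ hκ hB1 h0 h1 hBk hr K
      (Finset.mem_powersetCard.1 hK).2
  refine hA.trans ?_
  rw [Finset.sum_const, Finset.card_powersetCard, Finset.card_univ, Fintype.card_fin, nsmul_eq_mul]
  have hch : ((v.choose k : ℕ) : ℝ) ≤ (v : ℝ) ^ k := by
    exact_mod_cast Nat.choose_le_pow v k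
  have hvk : (0 : ℝ) < (v : ℝ) ^ k := by positivity
  have h2k : (2 : ℝ) ^ k ≤ (v : ℝ) ^ k := by
    have h2 : (2 : ℝ) ≤ (v : ℝ) := by exact_mod_cast hv
    exact pow_le_pow_left₀ (by norm_num) h2 _
  have hexp := (CbB_exp k hk8).trans h2k
  have hv2 : (v : ℝ) ^ (2 * k) = (v : ℝ) ^ k * (v : ℝ) ^ k := by rw [two_mul, pow_add]
  rw [mul_div_assoc', div_le_iff₀ (by positivity), hv2]
  have he : (0 : ℝ) ≤ Real.exp (k / 2) := (Real.exp_pos _).le
  calc ((v.choose k : ℕ) : ℝ) * Real.exp (k / 2) ≤ (v : ℝ) ^ k * Real.exp (k / 2) :=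
        mul_le_mul_of_nonneg_right hch he
    _ ≤ (v : ℝ) ^ k * (1 / 2 * (v : ℝ) ^ k) :=
        mul_le_mul_of_nonneg_left (by linarith) hvk.le
    _ = 1 / 2 * ((v : ℝ) ^ k * (v : ℝ) ^ k) := by ring

end Pool.Agent.GR
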