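import Pool.Agent.Work.MP_71c844_lc.GR.Stmts2

/-!
# Block GR, item KrB: the Kraft inequality with multiplicity
-/

namespace Pool.Agent.GR

open Finset Pool.Agent.GapLim

open Classical in
/-- the colours allowed in the layer `i` -/
private noncomputable def KrB_T {v κ r : ℕ} (z : St (Fin v × Fin r) (Fin κ)) (K : Finset (Fin v))
    (x : Fin v) (i : Fin r) : Finset (Fin κ) :=
  if z (x, i) ≠ none ∧ 3 ≤ pres K (fun a => z (a, i)) then
    univ.filter (fun c => z (x, i) = some c) else univ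

private theorem KrB_card_T {v κ r : ℕ} (z : St (Fin v × Fin r) (Fin κ)) (K : Finset (Fin v))
    (x : Fin v) (i : Fin r) :
    (KrB_T z K x i).card
      = if z (x, i) ≠ none ∧ 3 ≤ pres K (fun a => z (a, i)) then 1 else κ := by
  unfold KrB_T
  by_cases h : z (x, i) ≠ none ∧ 3 ≤ pres K (fun a => z (a, i))
  · rw [if_pos h, if_pos h]
    obtain ⟨c, hc⟩ := Option.ne_none_iff_exists'.mp h.1
    rw [Finset.card_eq_one]
    refine ⟨c, ?_⟩
    ext d
    simp only [Finset.mem_filter, Finset.mem_univ, true_and, Finset.mem_singleton, hc,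
      Option.some.injEq]
    exact eq_comm
  · rw [if_neg h, if_neg h]
    simp

private theorem KrB_card {v κ r : ℕ} (z : St (Fin v × Fin r) (Fin κ)) (K : Finset (Fin v))
    (hκ : 1 ≤ κ) (x : Fin v) :
    ((Fintype.piFinset (KrB_T z K x)).card : ℝ) = (1 / (κ : ℝ)) ^ dg3 z K x * (κ : ℝ) ^ r := by
  have hκ0 : (κ : ℝ) ≠ 0 := by
    have : (0 : ℝ) < κ := by exact_mod_cast hκ
    exact this.ne'
  rw [Fintype.card_piFinset]
  unfold dg3
  rw [Finset.card_filter, ← Finset.prod_pow_eq_pow_sum]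
  have h : (κ : ℝ) ^ r = ∏ _i : Fin r, (κ : ℝ) := by simp
  rw [h, ← Finset.prod_mul_distrib]
  push_cast
  refine Finset.prod_congr rfl fun i _ => ?_
  rw [KrB_card_T]
  by_cases hc : z (x, i) ≠ none ∧ 3 ≤ pres K (fun a => z (a, i))
  · rw [if_pos hc, if_pos hc]
    field_simp
    simp
  · rw [if_neg hc, if_neg hc]
    simp

private theorem KrB_layer {v κ r : ℕ} (z : St (Fin v × Fin r) (Fin κ)) (K : Finset (Fin v))
    (hK : IsCl (grn z) K) (x y : Fin v) (hx : x ∈ K) (hy : y ∈ K) (hxy : x ≠ y) :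
    ∃ i : Fin r, z (x, i) ≠ none ∧ z (y, i) ≠ none ∧ z (x, i) ≠ z (y, i) ∧
      2 ≤ pres K (fun a => z (a, i)) := by
  classical
  have hmem := hK x hx y hy hxy
  simp only [grn, Finset.mem_filter, Finset.mem_univ, true_and] at hmem
  obtain ⟨i, a, b, he, ha, hb, hab⟩ := hmem
  have key : z (x, i) ≠ none ∧ z (y, i) ≠ none ∧ z (x, i) ≠ z (y, i) := by
    rcases Sym2.eq_iff.mp he with ⟨h1, h2⟩ | ⟨h1, h2⟩
    · rw [h1, h2]
      exact ⟨ha, hb, hab⟩
    · rw [h1, h2]
      exact ⟨hb, ha, hab.symm⟩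
  refine ⟨i, key.1, key.2.1, key.2.2, ?_⟩
  unfold pres
  refine Finset.one_lt_card.mpr ⟨x, ?_, y, ?_, hxy⟩
  · exact Finset.mem_filter.mpr ⟨hx, key.1⟩
  · exact Finset.mem_filter.mpr ⟨hy, key.2.1⟩

private theorem KrB_mult {v κ r H : ℕ} (z : St (Fin v × Fin r) (Fin κ)) (K J : Finset (Fin v))
    (hK : IsCl (grn z) K) (hJ : J ⊆ K) (hH : ∀ x ∈ J, dg2 z K x < H) (g : Fin r → Fin κ) :
    (J.filter (fun x => g ∈ Fintype.piFinset (KrB_T z K x))).card ≤ H := by
  classical
  set S := J.filter (fun x => g ∈ Fintype.piFinset (KrB_T z K x)) with hS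
  rcases S.eq_empty_or_nonempty with hE | ⟨x, hx⟩
  · rw [hE, Finset.card_empty]; exact Nat.zero_le _
  · have hxS := Finset.mem_filter.mp hx
    have hxK : x ∈ K := hJ hxS.1
    have hex : ∀ y ∈ S.erase x, ∃ i : Fin r, z (x, i) ≠ none ∧ z (y, i) ≠ none ∧
        pres K (fun a => z (a, i)) = 2 := by
      intro y hy
      obtain ⟨hyx, hyS⟩ := Finset.mem_erase.mp hy
      have hyS' := Finset.mem_filter.mp hyS
      obtain ⟨i, h1, h2, h3, h4⟩ := KrB_layer z K hK x y hxK (hJ hyS'.1) hyx.symm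
      refine ⟨i, h1, h2, ?_⟩
      by_contra hne
      have h5 : 3 ≤ pres K (fun a => z (a, i)) := by omega
      have gx := (Fintype.mem_piFinset.mp hxS.2) i
      have gy := (Fintype.mem_piFinset.mp hyS'.2) i
      unfold KrB_T at gx gy
      rw [if_pos ⟨h1, h5⟩, Finset.mem_filter] at gx
      rw [if_pos ⟨h2, h5⟩, Finset.mem_filter] at gy
      exact h3 (gx.2.trans gy.2.symm)
    have hcard : (S.erase x).card ≤ dg2 z K x := by
      rcases (S.erase x).eq_empty_or_nonempty with hE | ⟨y0, hy0⟩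
      · rw [hE, Finset.card_empty]; exact Nat.zero_le _
      have hne : Nonempty (Fin r) := ⟨(hex y0 hy0).choose⟩
      choose! f hf using hex
      unfold dg2
      refine Finset.card_le_card_of_injOn f ?_ ?_
      · intro y hy
        have := hf y (Finset.mem_coe.mp hy)
        exact Finset.mem_coe.mpr (Finset.mem_filter.mpr ⟨mem_univ _, this.1, this.2.2⟩)
      · intro y hy y' hy' hyy
        by_contra hne
        have h1 := hf y (Finset.mem_coe.mp hy)
        have h2 := hf y' (Finset.mem_coe.mp hy')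
        obtain ⟨hyx, hyS⟩ := Finset.mem_erase.mp (Finset.mem_coe.mp hy)
        obtain ⟨hyx', hyS'⟩ := Finset.mem_erase.mp (Finset.mem_coe.mp hy')
        rw [← hyy] at h2
        have h3 : 2 < pres K (fun a => z (a, f y)) := by
          unfold pres
          refine Finset.two_lt_card.mpr ⟨x, ?_, y, ?_, y', ?_, hyx.symm, hyx'.symm, hne⟩
          · exact Finset.mem_filter.mpr ⟨hxK, h1.1⟩
          · exact Finset.mem_filter.mpr ⟨hJ (Finset.mem_filter.mp hyS).1, h1.2.1⟩
          · exact Finset.mem_filter.mpr ⟨hJ (Finset.mem_filter.mp hyS').1, h2.2.1⟩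
        omega
    have h1 := hH x hxS.1
    have h2 : (S.erase x).card + 1 = S.card := Finset.card_erase_add_one hx
    omega

/-- **KrB**: the Kraft inequality with multiplicity -/
theorem pr_KrB : StKrB := by
  intro v κ r H z K J hκ hK hJ hH
  classical
  have hκ0 : (0 : ℝ) < κ := by exact_mod_cast hκ
  have hcard : ∑ x ∈ J, (Fintype.piFinset (KrB_T z K x)).card ≤ H * κ ^ r := by
    have e1 : ∀ x ∈ J, (Fintype.piFinset (KrB_T z K x)).card =
        ∑ g : Fin r → Fin κ, if g ∈ Fintype.piFinset (KrB_T z K x) then 1 else 0 := by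
      intro x _
      rw [← Finset.card_filter]
      congr 1
      ext g
      simp
    rw [Finset.sum_congr rfl e1, Finset.sum_comm]
    calc ∑ g : Fin r → Fin κ, ∑ x ∈ J, (if g ∈ Fintype.piFinset (KrB_T z K x) then 1 else 0)
        ≤ ∑ _g : Fin r → Fin κ, H := by
          refine Finset.sum_le_sum fun g _ => ?_
          rw [← Finset.card_filter]
          exact KrB_mult z K J hK hJ hH g
      _ = H * κ ^ r := by simp [mul_comm]
  have hreal : (∑ x ∈ J, (1 / (κ : ℝ)) ^ dg3 z K x) * (κ : ℝ) ^ r ≤ H * (κ : ℝ) ^ r := by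
    rw [Finset.sum_mul]
    calc ∑ x ∈ J, (1 / (κ : ℝ)) ^ dg3 z K x * (κ : ℝ) ^ r
        = ∑ x ∈ J, ((Fintype.piFinset (KrB_T z K x)).card : ℝ) :=
          Finset.sum_congr rfl fun x _ => (KrB_card z K hκ x).symm
      _ = ((∑ x ∈ J, (Fintype.piFinset (KrB_T z K x)).card : ℕ) : ℝ) := by push_cast; rfl
      _ ≤ ((H * κ ^ r : ℕ) : ℝ) := by exact_mod_cast hcard
      _ = H * (κ : ℝ) ^ r := by push_cast; rfl
  exact le_of_mul_le_mul_right hreal (pow_pos hκ0 r)

end Pool.Agent.GR
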