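import Pool.Agent.Work.MP_71c844_lc.GR.Stmts2

/-!
# Block GR, item MoB: the moment of the layer weight
-/

namespace Pool.Agent.GR

open Finset Pool.Agent.GapLim

/-- `(1 + y) ^ k ≤ 1 + k y + (k y) ^ 2` if `0 ≤ y` and `k y ≤ 1` -/
private theorem MoB_pow (y : ℝ) (hy : 0 ≤ y) (k : ℕ) (hk : (k : ℝ) * y ≤ 1) :
    (1 + y) ^ k ≤ 1 + k * y + (k * y) ^ 2 := by
  induction k with
  | zero => simp
  | succ k ih =>
    have hk0 : (0 : ℝ) ≤ (k : ℝ) := Nat.cast_nonneg k
    push_cast at hk ⊢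
    have hk1 : (k : ℝ) * y ≤ 1 := by nlinarith
    have h1 := ih hk1
    have h2 : (1 + y) ^ (k + 1) ≤ (1 + k * y + (k * y) ^ 2) * (1 + y) := by
      rw [pow_succ]
      exact mul_le_mul_of_nonneg_right h1 (by linarith)
    refine h2.trans ?_
    have h3 : (k : ℝ) * (k * y) ≤ k * 1 := mul_le_mul_of_nonneg_left hk1 hk0
    have h4 : ((k : ℝ) * (k * y)) * y ^ 2 ≤ (k * 1) * y ^ 2 :=
      mul_le_mul_of_nonneg_right h3 (sq_nonneg y)
    nlinarith [sq_nonneg y]

/-- the terms of order at least two of the binomial expansion -/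
private theorem MoB_tail {v : ℕ} (K : Finset (Fin v)) (y : ℝ) (hy : 0 ≤ y)
    (hk : (K.card : ℝ) * y ≤ 1) :
    ∑ A ∈ K.powerset.filter (fun A => 2 ≤ A.card), y ^ A.card ≤ (K.card * y) ^ 2 := by
  classical
  have hall : ∑ A ∈ K.powerset, y ^ A.card = (1 + y) ^ K.card := by
    have := Finset.sum_pow_mul_eq_add_pow y 1 K
    simp only [one_pow, mul_one] at this
    rw [this, add_comm]
  have hsplit : ∑ A ∈ K.powerset.filter (fun A => 2 ≤ A.card), y ^ A.card +
      ∑ A ∈ K.powerset.filter (fun A => ¬ 2 ≤ A.card), y ^ A.card = ∑ A ∈ K.powerset, y ^ A.card :=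
    Finset.sum_filter_add_sum_filter_not _ _ _
  have hlow : 1 + (K.card : ℝ) * y ≤
      ∑ A ∈ K.powerset.filter (fun A => ¬ 2 ≤ A.card), y ^ A.card := by
    have hnot : (∅ : Finset (Fin v)) ∉ K.image (fun a => ({a} : Finset (Fin v))) := by
      intro h
      obtain ⟨a, _, ha⟩ := Finset.mem_image.mp h
      exact Finset.singleton_ne_empty a ha
    have hsub : insert ∅ (K.image (fun a => ({a} : Finset (Fin v)))) ⊆
        K.powerset.filter (fun A => ¬ 2 ≤ A.card) := by
      intro A hA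
      rw [Finset.mem_insert] at hA
      rw [Finset.mem_filter, Finset.mem_powerset]
      rcases hA with rfl | hA
      · exact ⟨Finset.empty_subset _, by simp⟩
      · obtain ⟨a, ha, rfl⟩ := Finset.mem_image.mp hA
        exact ⟨Finset.singleton_subset_iff.mpr ha, by simp⟩
    have hsum : ∑ A ∈ insert ∅ (K.image (fun a => ({a} : Finset (Fin v)))), y ^ A.card =
        1 + (K.card : ℝ) * y := by
      rw [Finset.sum_insert hnot, Finset.sum_image fun a _ b _ hab => Finset.singleton_injective hab]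
      simp
    rw [← hsum]
    exact Finset.sum_le_sum_of_subset_of_nonneg hsub fun A _ _ => pow_nonneg hy _
  have hpow := MoB_pow y hy K.card hk
  linarith

/-- the weight of a layer, `t` vertices present -/
private theorem MoB_wt (B t : ℕ) (ht : 2 ≤ t) :
    ((wt B t : ℕ) : ℝ) ≤ 1 + 3 * (B : ℝ) ^ (t - 2) := by
  have hB0 : (0 : ℝ) ≤ (B : ℝ) ^ (t - 2) := pow_nonneg (Nat.cast_nonneg B) _
  unfold wt
  split_ifs with h1 h2
  · push_cast
    linarith
  · subst h2
    norm_num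
  · push_cast
    linarith

/-- the pointwise bound -/
private theorem MoB_pt {v κ : ℕ} (K : Finset (Fin v)) (B : ℕ) (z : St (Fin v) (Fin κ)) :
    ((wt B (pres K z) : ℕ) : ℝ) ≤ 1 + ∑ A ∈ K.powerset.filter (fun A => 2 ≤ A.card),
      3 * (B : ℝ) ^ (A.card - 2) * ind (∀ a ∈ A, z a ≠ none) := by
  classical
  have hnn : ∀ A ∈ K.powerset.filter (fun A => 2 ≤ A.card),
      0 ≤ 3 * (B : ℝ) ^ (A.card - 2) * ind (∀ a ∈ A, z a ≠ none) :=
    fun A _ => mul_nonneg (mul_nonneg (by norm_num) (pow_nonneg (Nat.cast_nonneg B) _)) (ind_nonneg _)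
  have hsum0 := Finset.sum_nonneg hnn
  by_cases h : 2 ≤ pres K z
  · have hmem : K.filter (fun a => z a ≠ none) ∈ K.powerset.filter (fun A => 2 ≤ A.card) := by
      rw [Finset.mem_filter, Finset.mem_powerset]
      refine ⟨Finset.filter_subset _ _, ?_⟩
      have h' := h
      unfold pres at h'
      exact h'
    have hle := Finset.single_le_sum hnn hmem
    have hone : ind (∀ a ∈ K.filter (fun a => z a ≠ none), z a ≠ none) = 1 :=
      ind_true fun a ha => (Finset.mem_filter.mp ha).2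
    have hcard : (K.filter (fun a => z a ≠ none)).card = pres K z := by
      unfold pres
      congr 1
    rw [hone, mul_one, hcard] at hle
    have hw := MoB_wt B (pres K z) h
    linarith
  · have h1 : wt B (pres K z) = 1 := by
      unfold wt
      rw [if_pos (by omega)]
    rw [h1]
    push_cast
    linarith

theorem pr_MoB : StMoB := by
  intro v κ B K ρ hκ hρ0 hρ1 hB hk
  classical
  have hne : Nonempty (Fin κ) := ⟨⟨0, hκ⟩⟩
  have hB0 : (0 : ℝ) < (B : ℝ) := by exact_mod_cast hB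
  have hy : 0 ≤ ρ * B := mul_nonneg hρ0 hB0.le
  have hky : (K.card : ℝ) * (ρ * B) ≤ 1 := by
    rw [← mul_assoc]
    exact hk
  refine (Ex_mono hρ0 hρ1 (MoB_pt K B)).trans ?_
  rw [Ex_add, Ex_const, Ex_sum]
  have h1 : ∀ A ∈ K.powerset.filter (fun A => 2 ≤ A.card),
      Ex ρ (fun z : St (Fin v) (Fin κ) => 3 * (B : ℝ) ^ (A.card - 2) * ind (∀ a ∈ A, z a ≠ none)) =
        3 / (B : ℝ) ^ 2 * (ρ * B) ^ A.card := by
    intro A hA
    have hA2 : 2 ≤ A.card := (Finset.mem_filter.mp hA).2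
    rw [Ex_smul, Ex_dom, mul_pow]
    have hp : (B : ℝ) ^ A.card = (B : ℝ) ^ (A.card - 2) * (B : ℝ) ^ 2 := by
      rw [← pow_add, Nat.sub_add_cancel hA2]
    rw [hp]
    field_simp
  rw [Finset.sum_congr rfl h1, ← Finset.mul_sum]
  have h2 := MoB_tail K (ρ * B) hy hky
  have h3 : 3 / (B : ℝ) ^ 2 * ∑ A ∈ K.powerset.filter (fun A => 2 ≤ A.card), (ρ * B) ^ A.card ≤
      3 / (B : ℝ) ^ 2 * (K.card * (ρ * B)) ^ 2 :=
    mul_le_mul_of_nonneg_left h2 (by positivity)
  have h4 : 3 / (B : ℝ) ^ 2 * ((K.card : ℝ) * (ρ * B)) ^ 2 = 3 * (K.card * ρ) ^ 2 := by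
    field_simp
  linarith

end Pool.Agent.GR
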