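import Pool.Agent.Work.MP_71c844_lc.GR.Stmts

/-!
# Block GR, item Sp: spread of the planted sets in a random layer
-/

namespace Pool.Agent.GR

open Finset Pool.Agent.GapLim
open Pool.Agent.NegLim (Gate gval numNot size lowSets)

theorem Sp_mem_lay {v r : ℕ} (A : Finset (Fin v)) (i : Fin r) (p : Fin v × Fin r) :
    p ∈ lay A i ↔ p.1 ∈ A ∧ p.2 = i := by
  unfold lay
  rw [Finset.mem_image]
  constructor
  · rintro ⟨a, ha, rfl⟩
    exact ⟨ha, rfl⟩
  · rintro ⟨h1, h2⟩
    exact ⟨p.1, h1, Prod.ext rfl h2.symm⟩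

open Classical in
theorem pr_Sp : StSp := by
  intro U _ v b r q Y hY A' hne hb
  obtain ⟨⟨a0, i0⟩, h0⟩ := hne
  have hr : 0 < r := i0.pos
  have hr' : (r : ℝ) ≠ 0 := by exact_mod_cast hr.ne'
  have hcard : ((Fintype.card (U × Fin r) : ℕ) : ℝ) * ((1 / (r : ℝ)) * (1 / q) ^ A'.card) =
      Fintype.card U * (1 / q) ^ A'.card := by
    rw [Fintype.card_prod, Fintype.card_fin]
    push_cast
    field_simp
  rw [hcard]
  by_cases hall : ∀ p ∈ A', p.2 = i0
  · have hinj : Set.InjOn (Prod.fst : Fin v × Fin r → Fin v) (A' : Set (Fin v × Fin r)) := by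
      intro p hp p' hp' h
      exact Prod.ext h ((hall p hp).trans (hall p' hp').symm)
    have hcA : (A'.image Prod.fst).card = A'.card := Finset.card_image_of_injOn hinj
    have h1 := hY (A'.image Prod.fst) (hcA.le.trans hb)
    rw [hcA] at h1
    refine le_trans ?_ h1
    have h2 : (univ.filter (fun p : U × Fin r => A' ⊆ lay (Y p.1) p.2)).card ≤
        (univ.filter (fun u => A'.image Prod.fst ⊆ Y u)).card := by
      refine Finset.card_le_card_of_injOn Prod.fst ?_ ?_
      · intro p hp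
        rw [Finset.mem_coe, Finset.mem_filter] at hp ⊢
        refine ⟨Finset.mem_univ _, ?_⟩
        intro a ha
        obtain ⟨x, hx, rfl⟩ := Finset.mem_image.1 ha
        exact ((Sp_mem_lay _ _ _).1 (hp.2 hx)).1
      · intro p hp p' hp' h
        rw [Finset.mem_coe, Finset.mem_filter] at hp hp'
        have e1 := ((Sp_mem_lay _ _ _).1 (hp.2 h0)).2
        have e2 := ((Sp_mem_lay _ _ _).1 (hp'.2 h0)).2
        exact Prod.ext h (e1.symm.trans e2)
    exact_mod_cast h2
  · have hemp : univ.filter (fun p : U × Fin r => A' ⊆ lay (Y p.1) p.2) = ∅ := by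
      rw [Finset.filter_eq_empty_iff]
      intro p _ hp
      apply hall
      intro x hx
      have e1 := ((Sp_mem_lay _ _ _).1 (hp h0)).2
      have e2 := ((Sp_mem_lay _ _ _).1 (hp hx)).2
      exact e2.trans e1.symm
    rw [hemp, Finset.card_empty, Nat.cast_zero]
    have hpos : 1 ≤ A'.card := Finset.card_pos.2 ⟨_, h0⟩
    have h1 := hY {a0} (by rw [Finset.card_singleton]; exact hpos.trans hb)
    rw [Finset.card_singleton, pow_one] at h1
    have h2 : (0 : ℝ) ≤ Fintype.card U * (1 / q) := le_trans (Nat.cast_nonneg _) h1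
    rcases Nat.eq_zero_or_pos (Fintype.card U) with hU | hU
    · rw [hU, Nat.cast_zero, zero_mul]
    · have hU' : (0 : ℝ) < Fintype.card U := by exact_mod_cast hU
      have h3 : (0 : ℝ) ≤ 1 / q := nonneg_of_mul_nonneg_right h2 hU'
      exact mul_nonneg hU'.le (pow_nonneg h3 _)

end Pool.Agent.GR
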