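import Pool.Agent.Work.MP_71c844_lc.GR.Stmts2

/-!
# Block GR, item WtB: double counting with weights
-/

namespace Pool.Agent.GR

open Finset Pool.Agent.GapLim

theorem WtB_layer {v κ : ℕ} (K : Finset (Fin v)) (z : St (Fin v) (Fin κ)) (P : Prop) [Decidable P] :
    (∑ x ∈ K, if (z x ≠ none ∧ P) then 1 else 0) = if P then pres K z else 0 := by
  classical
  by_cases h : P
  · rw [if_pos h]
    unfold pres
    rw [Finset.card_filter]
    refine Finset.sum_congr rfl fun x _ => ?_
    by_cases hx : z x ≠ none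
    · rw [if_pos ⟨hx, h⟩, if_pos hx]
    · rw [if_neg (fun hh => hx hh.1), if_neg hx]
  · rw [if_neg h]
    refine Finset.sum_eq_zero fun x _ => ?_
    rw [if_neg (fun hh => h hh.2)]

theorem WtB_two {v κ r : ℕ} (z : St (Fin v × Fin r) (Fin κ)) (K : Finset (Fin v)) :
    ∑ x ∈ K, dg2 z K x = ∑ i : Fin r, (if pres K (fun a => z (a, i)) = 2 then 2 else 0) := by
  classical
  have h1 : ∀ x, dg2 z K x = ∑ i : Fin r,
      if (z (x, i) ≠ none ∧ pres K (fun a => z (a, i)) = 2) then 1 else 0 := by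
    intro x
    unfold dg2
    rw [Finset.card_filter]
  simp only [h1]
  rw [Finset.sum_comm]
  refine Finset.sum_congr rfl fun i _ => ?_
  have h2 := WtB_layer K (fun a => z (a, i)) (pres K (fun a => z (a, i)) = 2)
  rw [h2]
  by_cases h : pres K (fun a => z (a, i)) = 2
  · rw [if_pos h, if_pos h, h]
  · rw [if_neg h, if_neg h]

theorem WtB_three {v κ r : ℕ} (z : St (Fin v × Fin r) (Fin κ)) (K : Finset (Fin v)) :
    ∑ x ∈ K, dg3 z K x = ∑ i : Fin r, (if 3 ≤ pres K (fun a => z (a, i)) then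
      pres K (fun a => z (a, i)) else 0) := by
  classical
  have h1 : ∀ x, dg3 z K x = ∑ i : Fin r,
      if (z (x, i) ≠ none ∧ 3 ≤ pres K (fun a => z (a, i))) then 1 else 0 := by
    intro x
    unfold dg3
    rw [Finset.card_filter]
  simp only [h1]
  rw [Finset.sum_comm]
  exact Finset.sum_congr rfl fun i _ => WtB_layer K (fun a => z (a, i)) _

theorem WtB_term (B t : ℕ) (hB : 1 ≤ B) :
    8 ^ (if t = 2 then 2 else 0) * B ^ (if 3 ≤ t then t else 0) ≤ (wt B t) ^ 3 := by
  unfold wt
  by_cases h1 : t ≤ 1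
  · rw [if_neg (by omega), if_neg (by omega), if_pos h1]
    norm_num
  · by_cases h2 : t = 2
    · subst h2
      norm_num
    · rw [if_neg h2, if_pos (by omega), if_neg h1, if_neg h2, ← pow_mul, pow_zero, one_mul]
      exact Nat.pow_le_pow_right hB (by omega)

/-- **WtB**. -/
theorem pr_WtB : StWtB := by
  intro v κ r B z K hB
  rw [Finset.prod_mul_distrib, Finset.prod_pow_eq_pow_sum, Finset.prod_pow_eq_pow_sum, WtB_two,
    WtB_three, ← Finset.prod_pow_eq_pow_sum, ← Finset.prod_pow_eq_pow_sum, ← Finset.prod_mul_distrib,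
    ← Finset.prod_pow]
  exact Finset.prod_le_prod' fun i _ => WtB_term B _ hB

end Pool.Agent.GR
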