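import Pool.Agent.Work.MP_71c844_lc.GR.FinalB
import Pool.Agent.Work.MP_71c844_lc.GR.I_Ly
import Pool.Agent.Work.MP_71c844_lc.GR.I_Sl
import Pool.Agent.Work.MP_71c844_lc.GR.I_Pr
import Pool.Agent.Work.MP_71c844_lc.GR.I_Sp
import Pool.Agent.Work.MP_71c844_lc.GR.I_Dg
import Pool.Agent.Work.MP_71c844_lc.GR.I_Di
import Pool.Agent.Work.MP_71c844_lc.GR.I_KrB
import Pool.Agent.Work.MP_71c844_lc.GR.I_WtB
import Pool.Agent.Work.MP_71c844_lc.GR.I_CmB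
import Pool.Agent.Work.MP_71c844_lc.GR.I_MoB
import Pool.Agent.Work.MP_71c844_lc.GR.I_CbB

/-!
# Block GR: all items of the sharp version
-/

namespace Pool.Agent.GR

theorem itemsB : ItemsB :=
  ⟨pr_Ly, pr_Sl, pr_Pr, pr_Sp, pr_Dg, pr_Di, pr_KrB, pr_WtB, pr_CmB, pr_MoB, pr_CbB⟩

end Pool.Agent.GR
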