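import Pool.Agent.Work.MP_71c844_lc.GapApprox
import Pool.Agent.Work.MP_71c844_lc.RecDich
import Pool.Agent.Work.MP_71c844_lc.FormCore

/-!
# Block GR: the gap version of the record for CLIQUE

Definitions. The chain adds in each step the graph `gr z` of a fresh random state `z` (see
`GapMeas.lean`, `GapApprox.lean`: every vertex is present with probability `ρ`, with a random
colour; two present vertices are adjacent iff their colours differ).
-/

namespace Pool.Agent.GR

open Finset Pool.Agent.GapLim
open Pool.Agent.NegLim (Gate gval numNot size lowSets)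

section chain

variable {E Ω : Type} [Fintype Ω] [DecidableEq E]

/-- One step of a chain of sets: add the random set `D ω`, where `ω` has the weight `p ω`. -/
noncomputable def S1 (p : Ω → ℝ) (D : Ω → Finset E) (φ : Finset E → ℝ) (x : Finset E) : ℝ :=
  ∑ ω, p ω * φ (x ∪ D ω)

/-- `n` steps of the chain. -/
noncomputable def Sn (p : Ω → ℝ) (D : Ω → Finset E) (n : ℕ) (φ : Finset E → ℝ) : Finset E → ℝ :=
  (S1 p D)^[n] φ

/-- Decreasing functions of sets. -/
def AntiS (φ : Finset E → ℝ) : Prop := ∀ x y : Finset E, x ⊆ y → φ y ≤ φ x

open Classical in
/-- Monotone functions satisfying the dichotomy at all scales: at every set `x`, either `2 ^ k`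
more steps make `G` true with probability `1 - ε`, or adding a random planted set `Q u` makes `G`
true with probability at most `2 / 2 ^ k`. -/
structure DichG {U : Type} [Fintype U] (p : Ω → ℝ) (D : Ω → Finset E) (K : ℕ) (ε : ℝ)
    (Q : U → Finset E) (G : Finset E → Bool) : Prop where
  mono : ∀ x y, x ⊆ y → G x = true → G y = true
  dich : ∀ k ≤ K, ∀ x, Sn p D (2 ^ k) (fun y => if G y = true then (0 : ℝ) else 1) x ≤ ε ∨
    ((univ.filter (fun u => G (x ∪ Q u) = true)).card : ℝ) / Fintype.card U ≤ 2 / 2 ^ k

end chain

section graphs

variable {V C : Type} [Fintype V] [DecidableEq V] [Fintype C] [DecidableEq C]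

/-- The weight of a state in the product measure of density `ρ`; `Ex ρ f = ∑ z, wgt ρ z * f z`. -/
noncomputable def wgt (ρ : ℝ) (z : St V C) : ℝ := ∏ a, pw C ρ (z a)

open Classical in
/-- The graph of a state of `r` layers: two vertices are adjacent iff in some layer they are both
present with different colours. -/
noncomputable def grn {r : ℕ} (z : St (V × Fin r) C) : Finset (Sym2 V) :=
  univ.filter (fun e => ∃ (i : Fin r) (a b : V), e = s(a, b) ∧ z (a, i) ≠ none ∧
    z (b, i) ≠ none ∧ z (a, i) ≠ z (b, i))

/-- `K` is a clique of the graph with the set of edges `x`. -/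
def IsCl (x : Finset (Sym2 V)) (K : Finset V) : Prop := ∀ a ∈ K, ∀ b ∈ K, a ≠ b → s(a, b) ∈ x

/-- The graph with the set of edges `x` has a clique of `k` vertices. -/
def HasCl (k : ℕ) (x : Finset (Sym2 V)) : Prop := ∃ K : Finset V, K.card = k ∧ IsCl x K

open Classical in
/-- number of vertices of `K` which are present -/
noncomputable def pres (K : Finset V) (z : St V C) : ℕ := (K.filter (fun a => z a ≠ none)).card

open Classical in
/-- the number of layers in which `x` is present and at least two vertices of `K` are present -/
noncomputable def degL {r : ℕ} (z : St (V × Fin r) C) (K : Finset V) (x : V) : ℕ :=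
  (univ.filter (fun i : Fin r => z (x, i) ≠ none ∧ 2 ≤ pres K (fun a => z (a, i)))).card

/-- the number of present vertices of `K`, or `0` if there is at most one -/
noncomputable def pres2 (K : Finset V) (z : St V C) : ℕ := if 2 ≤ pres K z then pres K z else 0

open Classical in
/-- the planted set `A` in the layer `i` -/
noncomputable def lay {r : ℕ} (A : Finset V) (i : Fin r) : Finset (V × Fin r) :=
  A.image (fun a => (a, i))

end graphs

end Pool.Agent.GR
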