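import Pool.Agent.Work.MP_71c844_lc.GR.Stmts2

/-!
# Block GR, item CmB: a clique of the union graph has a large weight
-/

namespace Pool.Agent.GR

open Finset Pool.Agent.GapLim

/-- the set `J` of the vertices with small degrees is small -/
private lemma CmB_card (hKr : StKrB) (v κ r D L k : ℕ) (z : St (Fin v × Fin r) (Fin κ))
    (K J : Finset (Fin v)) (hκ : 8 ≤ κ) (hD : 1 ≤ D) (hk : L * κ ^ D ≤ k) (hcl : IsCl (grn z) K)
    (hJK : J ⊆ K) (hJ3 : ∀ x ∈ J, dg3 z K x < D) (hJ2 : ∀ x ∈ J, dg2 z K x < 4 * L) :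
    2 * J.card ≤ k := by
  have h1 := hKr v κ r (4 * L) z K J (by omega) hcl hJK hJ2
  have hκr : (1 : ℝ) ≤ (κ : ℝ) := by
    have : 1 ≤ κ := by omega
    exact_mod_cast this
  have hκ0 : (0 : ℝ) < (κ : ℝ) := by linarith
  have hi0 : (0 : ℝ) ≤ 1 / (κ : ℝ) := by positivity
  have hi1 : 1 / (κ : ℝ) ≤ 1 := by
    rw [div_le_one hκ0]
    exact hκr
  have h2 : (J.card : ℝ) * (1 / (κ : ℝ)) ^ (D - 1) ≤ ∑ x ∈ J, (1 / (κ : ℝ)) ^ dg3 z K x := by
    rw [← nsmul_eq_mul, ← Finset.sum_const]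
    refine Finset.sum_le_sum fun x hx => ?_
    refine pow_le_pow_of_le_one hi0 hi1 ?_
    have := hJ3 x hx
    omega
  have h3 : (J.card : ℝ) * (1 / (κ : ℝ)) ^ (D - 1) ≤ ((4 * L : ℕ) : ℝ) := h2.trans h1
  have h4 : (J.card : ℝ) ≤ ((4 * L * κ ^ (D - 1) : ℕ) : ℝ) := by
    have h5 : (1 / (κ : ℝ)) ^ (D - 1) * (κ : ℝ) ^ (D - 1) = 1 := by
      rw [← mul_pow, one_div, inv_mul_cancel₀ hκ0.ne', one_pow]
    have h6 := mul_le_mul_of_nonneg_right h3 (show (0 : ℝ) ≤ (κ : ℝ) ^ (D - 1) by positivity)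
    rw [mul_assoc, h5, mul_one] at h6
    push_cast at h6 ⊢
    exact h6
  have h7 : J.card ≤ 4 * L * κ ^ (D - 1) := by exact_mod_cast h4
  have h8 : κ ^ D = κ ^ (D - 1) * κ := by
    conv_lhs => rw [← Nat.sub_add_cancel hD]
    rw [pow_succ]
  have h9 : 8 * (L * κ ^ (D - 1)) ≤ L * κ ^ D := by
    rw [h8]
    calc 8 * (L * κ ^ (D - 1)) = L * (κ ^ (D - 1) * 8) := by ring
      _ ≤ L * (κ ^ (D - 1) * κ) := Nat.mul_le_mul_left _ (Nat.mul_le_mul_left _ hκ)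
  have h10 : 4 * L * κ ^ (D - 1) = 4 * (L * κ ^ (D - 1)) := by ring
  omega

/-- CmB -/
theorem pr_CmB : StCmB := by
  classical
  intro hKr hWt v κ r D B L k z K hv hκ hD hL hk hB hKc hcl
  have hB1 : 1 ≤ B := by
    by_contra h
    have h0 : B = 0 := by omega
    rw [h0, zero_pow (by omega)] at hB
    have : 0 < v ^ 12 := Nat.pow_pos (by omega)
    omega
  have hv1 : 1 ≤ v := by omega
  have hvL : v ^ 12 ≤ 8 ^ (4 * L) := by
    calc v ^ 12 ≤ (2 ^ L) ^ 12 := Nat.pow_le_pow_left hL.le 12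
      _ = 8 ^ (4 * L) := by
        rw [show (8 : ℕ) = 2 ^ 3 by norm_num, ← pow_mul, ← pow_mul]
        congr 1
        ring
  set J : Finset (Fin v) := K.filter (fun x => dg3 z K x < D ∧ dg2 z K x < 4 * L) with hJ
  have hJK : J ⊆ K := Finset.filter_subset _ _
  have hJc : 2 * J.card ≤ k := by
    refine CmB_card hKr v κ r D L k z K J hκ hD hk hcl hJK ?_ ?_
    · intro x hx
      rw [hJ, Finset.mem_filter] at hx
      exact hx.2.1
    · intro x hx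
      rw [hJ, Finset.mem_filter] at hx
      exact hx.2.2
  have h1 : v ^ (6 * k) ≤ ∏ x ∈ K, (8 ^ dg2 z K x * B ^ dg3 z K x) := by
    rw [← Finset.prod_sdiff hJK]
    have e1 : (v ^ 12) ^ (K \ J).card ≤ ∏ x ∈ K \ J, (8 ^ dg2 z K x * B ^ dg3 z K x) := by
      rw [← Finset.prod_const]
      refine Finset.prod_le_prod' fun x hx => ?_
      rw [Finset.mem_sdiff] at hx
      have hx2 : ¬ (dg3 z K x < D ∧ dg2 z K x < 4 * L) := by
        intro h
        exact hx.2 (by rw [hJ, Finset.mem_filter]; exact ⟨hx.1, h⟩)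
      have p8 : 1 ≤ 8 ^ dg2 z K x := Nat.one_le_pow _ _ (by norm_num)
      have pB : 1 ≤ B ^ dg3 z K x := Nat.one_le_pow _ _ hB1
      by_cases h3 : dg3 z K x < D
      · have h2 : 4 * L ≤ dg2 z K x := by
          by_contra h
          exact hx2 ⟨h3, by omega⟩
        calc v ^ 12 ≤ 8 ^ (4 * L) := hvL
          _ ≤ 8 ^ dg2 z K x := Nat.pow_le_pow_right (by norm_num) h2
          _ ≤ 8 ^ dg2 z K x * B ^ dg3 z K x := Nat.le_mul_of_pos_right _ pB
      · have h4 : D ≤ dg3 z K x := by omega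
        calc v ^ 12 ≤ B ^ D := hB
          _ ≤ B ^ dg3 z K x := Nat.pow_le_pow_right hB1 h4
          _ ≤ 8 ^ dg2 z K x * B ^ dg3 z K x := Nat.le_mul_of_pos_left _ p8
    have e2 : 1 ≤ ∏ x ∈ J, (8 ^ dg2 z K x * B ^ dg3 z K x) := by
      refine Finset.one_le_prod' fun x _ => ?_
      exact Nat.mul_pos (Nat.pow_pos (by norm_num)) (Nat.pow_pos hB1)
    have e3 : (K \ J).card = k - J.card := by
      rw [Finset.card_sdiff_of_subset hJK, hKc]
    calc v ^ (6 * k) ≤ v ^ (12 * (k - J.card)) := Nat.pow_le_pow_right hv1 (by omega)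
      _ = (v ^ 12) ^ (K \ J).card := by rw [e3, ← pow_mul]
      _ ≤ ∏ x ∈ K \ J, (8 ^ dg2 z K x * B ^ dg3 z K x) := e1
      _ ≤ (∏ x ∈ K \ J, (8 ^ dg2 z K x * B ^ dg3 z K x)) *
          ∏ x ∈ J, (8 ^ dg2 z K x * B ^ dg3 z K x) := Nat.le_mul_of_pos_right _ e2
  have h2 := h1.trans (hWt v κ r B z K hB1)
  have h3 : (v ^ (2 * k)) ^ 3 = v ^ (6 * k) := by
    rw [← pow_mul]
    congr 1
    ring
  rw [← h3] at h2
  exact (Nat.pow_le_pow_iff_left (by norm_num)).1 h2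

end Pool.Agent.GR
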