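import Pool.Agent.Work.MP_71c844_lc.GR.Defs

/-!
# Block GR: statements with complete proofs

Write `pr_<name> : St<name>` in `GR/I_<name>.lean` (namespace `Pool.Agent.GR`). All types are in
`Type`. Every item is independent of the others (statements of other items may be used as
hypotheses only where the docstring says so).
-/

namespace Pool.Agent.GR

open Finset Pool.Agent.GapLim
open Pool.Agent.NegLim (Gate gval numNot size lowSets)

/-- **Kr** (EASY-MEDIUM, Kraft inequality). If `K` is a clique of the graph `grn z` of an `r` layer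
state with `κ ≥ 1` colours, then `∑ x ∈ K, (1/κ)^(degL z K x) ≤ 1`.
PROOF. For `x ∈ K` let `R x` be the set of the functions `g : Fin r → Fin κ` such that
`z (x, i) = some (g i)` for every layer `i` with `z (x, i) ≠ none ∧ 2 ≤ pres K (z (·, i))`. The
values of `g` are prescribed in exactly `degL z K x` layers, so `card (R x) = κ^(r - degL z K x)`
(`Fintype.piFinset` with the sets `{colour}` or `univ`, `Fintype.card_piFinset`,
`Finset.prod_ite`). The sets `R x` are pairwise disjoint: let `x ≠ y` in `K`; then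
`s(x, y) ∈ grn z`, so there is a layer `i` with `z (x, i)`, `z (y, i)` both `≠ none` and different
(case distinction `Sym2.eq_iff`); as `x ≠ y` are both present in the layer `i`,
`2 ≤ pres K (z (·, i))` (`Finset.one_lt_card`), so `g ∈ R x ∩ R y` would give
`z (x, i) = some (g i) = z (y, i)`. Hence `∑ x ∈ K, κ^(r - degL) = card (biUnion) ≤ κ^r`
(`Finset.card_biUnion`, `card (Fin r → Fin κ) = κ^r`), and dividing by `κ^r` (with `degL ≤ r`)
gives the claim. -/
def StKr : Prop := ∀ (v κ r : ℕ) (z : St (Fin v × Fin r) (Fin κ)) (K : Finset (Fin v)), 1 ≤ κ →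
  IsCl (grn z) K → ∑ x ∈ K, (1 / (κ : ℝ)) ^ degL z K x ≤ 1

/-- **Je** (EASY, convexity). PROOF. Suppose `∑ x ∈ K, d x < D * K.card`. By `Real.add_one_le_exp`
with `t = (D - d) log κ` (real numbers) `(1/κ)^d ≥ (1/κ)^D * (1 + (D - d) * log κ)` for all naturals
`d`. Sum over `K`, with `k = K.card`: `1 ≥ (1/κ)^D * (k + (D k - ∑ d) * log κ)`. As `log κ > 0` and
`D k - ∑ d > 0` this is `> (1/κ)^D * k ≥ 1`, a contradiction. -/
def StJe : Prop := ∀ (v κ D : ℕ) (K : Finset (Fin v)) (d : Fin v → ℕ), 2 ≤ κ → κ ^ D ≤ K.card →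
  ∑ x ∈ K, (1 / (κ : ℝ)) ^ d x ≤ 1 → D * K.card ≤ ∑ x ∈ K, d x

/-- **Dc** (EASY, double counting). PROOF. Both sides count the pairs `(x, i)` with `x ∈ K`,
`z (x, i) ≠ none` and `2 ≤ pres K (z (·, i))`: write `degL` as `∑ i, if .. then 1 else 0`
(`Finset.card_filter`), exchange the sums (`Finset.sum_comm`); for fixed `i` the inner sum is
`pres K (z (·, i))` if `2 ≤ pres`, and `0` otherwise. -/
def StDc : Prop := ∀ (v κ r : ℕ) (z : St (Fin v × Fin r) (Fin κ)) (K : Finset (Fin v)),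
  ∑ x ∈ K, degL z K x = ∑ i : Fin r, pres2 K (fun a => z (a, i))

/-- **Mo** (EASY-MEDIUM, the exponential moment in one layer). PROOF. Put `y = Z ρ`. Pointwise
`Z^(pres2 K z) ≤ 1 + ∑ A ∈ K.powerset with 2 ≤ A.card, Z^A.card * ind (∀ a ∈ A, z a ≠ none)`:
if `2 ≤ pres K z` take the term `A = K.filter (z a ≠ none)` (`Finset.single_le_sum`), otherwise the
left side is `1`. Take `Ex` (`Ex_mono`, `Ex_add`, `Ex_const`, `Ex_sum`, `Ex_smul`) and use
`Ex_dom` (`GapSun.lean`: `Ex ρ (ind (∀ a ∈ A, z a ≠ none)) = ρ ^ A.card`): the expectation is at most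
`1 + ∑ A ∈ K.powerset with 2 ≤ A.card, y^A.card = 1 + ((1+y)^k - 1 - k y)`, where
`∑ A ∈ K.powerset, y^A.card = (1+y)^k` (`Finset.sum_pow_mul_eq_add_pow` as in `GapSun.lean`), and the
terms with `A.card = 0` and `A.card = 1` give `1` and `k y` (`Finset.powersetCard_zero`,
`Finset.powersetCard_one`; or prove `∑_{A ∈ K.powerset} (y^|A| [|A| ≤ 1]) = 1 + k y` by induction on
`K`). Finally `(1+y)^k ≤ 1 + k y + (k y)^2` if `0 ≤ y`, `k y ≤ 1` (induction on `k`:
`(1 + k y + k² y²)(1+y) ≤ 1 + (k+1) y + (k+1)² y²` since `k² y ≤ k`). -/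
def StMo : Prop := ∀ (v κ : ℕ) (K : Finset (Fin v)) (ρ Z : ℝ), 1 ≤ κ → 0 ≤ ρ → ρ ≤ 1 → 1 ≤ Z →
  K.card * ρ * Z ≤ 1 →
  Ex ρ (fun z : St (Fin v) (Fin κ) => Z ^ pres2 K z) ≤ 1 + (K.card * ρ * Z) ^ 2

/-- **Ly** (MEDIUM, the product measure on the layers). One more layer: the expectation over the
states of `r + 1` layers is the iterated expectation. Here the state of `r + 1` layers made from
`z` (the layers `castSucc`) and `z'` (the last layer) is
`fun p => if h : p.2.1 < r then z (p.1, ⟨p.2.1, h⟩) else z' p.1`.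
PROOF. `Ex ρ f = ∑ z, (∏ a, pw (z a)) * f z`. The map `(z, z') ↦` the glued state is a bijection
`St (Fin v × Fin r) C × St (Fin v) C ≃ St (Fin v × Fin (r+1)) C` (inverse: restrict to
`Fin.castSucc` and `Fin.last`), and the weights multiply: `∏ over Fin v × Fin (r+1)` is
`∏ a, ∏ i : Fin (r+1)` (`Fintype.prod_prod_type`), `Fin.prod_univ_castSucc`,
`Finset.prod_mul_distrib`. Use `Fintype.sum_equiv` and `Fintype.sum_prod_type`. -/
def StLy : Prop := ∀ (v κ r : ℕ) (ρ : ℝ) (f : St (Fin v × Fin (r + 1)) (Fin κ) → ℝ),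
  Ex ρ f = Ex ρ (fun z : St (Fin v × Fin r) (Fin κ) => Ex ρ (fun z' : St (Fin v) (Fin κ) =>
    f (fun p => if h : p.2.1 < r then z (p.1, ⟨p.2.1, h⟩) else z' p.1)))

/-- **Sl** (EASY-MEDIUM; hypothesis `StLy`). `r` steps of the chain are one random state of `r`
layers. PROOF. Induction on `r`. `r = 0`: `St (Fin v × Fin 0) C` has one element, its weight is an
empty product, `grn` of it is empty. Step: `Sn (r+1) φ x = S1 (Sn r φ) x` (the iterate), but it is
easier to use `Sn (r+1) φ = Sn r (S1 φ)` (`Function.iterate_succ_apply`): by induction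
`Sn r (S1 φ) x = Ex ρ (z ↦ S1 φ (x ∪ grn z)) = Ex ρ (z ↦ Ex ρ (z' ↦ φ (x ∪ grn z ∪ gr z')))`
(`S1` with `p = wgt ρ`, `D = gr` is `Ex ρ` by definition), and `grn z ∪ gr z'` is `grn` of the glued
state of `StLy` (ext over edges: a layer of `Fin (r+1)` is a `castSucc` or the last one). -/
def StSl : Prop := StLy → ∀ (v κ r : ℕ) (ρ : ℝ) (φ : Finset (Sym2 (Fin v)) → ℝ)
  (x : Finset (Sym2 (Fin v))),
  Sn (Ω := St (Fin v) (Fin κ)) (wgt ρ) gr r φ x =
    Ex ρ (fun z : St (Fin v × Fin r) (Fin κ) => φ (x ∪ grn z))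

/-- **Pr** (EASY; hypothesis `StLy`). PROOF. Induction on `r` with `StLy`: `∏ i : Fin (r+1)` of the
glued state is `(∏ i : Fin r, g (z (·, i))) * g z'` (`Fin.prod_univ_castSucc`), then `Ex_smul` (twice)
and `pow_succ`. `r = 0`: the empty product is `1` and `Ex ρ 1 = 1` (`Ex_const`, `1 ≤ κ` gives
`Nonempty (Fin κ)`). -/
def StPr : Prop := StLy → ∀ (v κ r : ℕ) (ρ : ℝ) (g : St (Fin v) (Fin κ) → ℝ), 1 ≤ κ →
  Ex ρ (fun z : St (Fin v × Fin r) (Fin κ) => ∏ i : Fin r, g (fun a => z (a, i))) = Ex ρ g ^ r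

/-- **Cb** (EASY-MEDIUM; hypotheses `StKr`, `StJe`, `StDc`, `StMo`, `StLy`, `StPr`): the union graph
has no clique of `k = κ^D` vertices with probability at least `1/2`.
PROOF. If `K` is a clique of `grn z`, `K.card = κ^D =: k`, then by Kr and Je (with `d = degL z K`)
`D k ≤ ∑ x ∈ K, degL z K x = ∑ i, pres2 K (z (·, i))` (Dc), so
`1 ≤ (∏ i, Z^(pres2 K (z (·, i)))) / Z^(D k)` (real numbers, `Z ≥ 1`). Hence pointwise
`ind (HasCl k (grn z)) ≤ ∑ K ∈ powersetCard k univ, (∏ i, Z^pres2 ..) / Z^(D k)`. Take `Ex`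
(`Ex_mono`, `Ex_sum`, `Ex_smul`), `Pr` and `Mo` (its hypothesis `k ρ Z ≤ 1` follows from
`(k ρ Z)^2 ≤ r (k ρ Z)^2 ≤ 1` if `r ≥ 1`; for `r = 0` the product is empty):
each term is at most `(1 + (k ρ Z)^2)^r / Z^(D k) ≤ exp (r (k ρ Z)^2) / Z^(D k) ≤ exp 1 / Z^(D k) ≤
3 / Z^(D k)` (`Real.add_one_le_exp`, `Real.exp_one_lt_d9`). There are `choose v k ≤ v^k` sets
(`Nat.choose_le_pow`), and `Z^(D k) = (Z^D)^k ≥ (v^2)^k`. So the sum is at most
`v^k * 3 / v^(2k) = 3 / v^k ≤ 3/6` because `k ≥ 3` and `v ≥ 2` (`v^k ≥ 8`). -/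
def StCb : Prop := StKr → StJe → StDc → StMo → StLy → StPr → ∀ (v κ D Z r : ℕ) (ρ : ℝ),
  2 ≤ v → 2 ≤ κ → 3 ≤ κ ^ D → v ^ 2 ≤ Z ^ D → 1 ≤ Z → 0 ≤ ρ → ρ ≤ 1 →
  r * ((κ ^ D : ℕ) * ρ * Z) ^ 2 ≤ 1 →
  Ex ρ (fun z : St (Fin v × Fin r) (Fin κ) => ind (HasCl (κ ^ D) (grn z))) ≤ 1 / 2

open Classical in
/-- **Sp** (EASY, spread of the planted sets in a random layer). PROOF. Let `A' ≠ ∅`, `A'.card ≤ 2b`.
If two elements of `A'` are in different layers, no `lay (Y u) i` contains `A'` and the left side is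
`0`. Otherwise all elements of `A'` are in one layer `i₀`, `A' = lay A i₀` with `A = A'.image Prod.fst`
of the same cardinality, and `A' ⊆ lay (Y u) i ↔ i = i₀ ∧ A ⊆ Y u` (as `A'` is not empty). So the left
side is `card {u | A ⊆ Y u} ≤ card U * (1/q)^A.card`, and
`card (U × Fin r) * ((1/r) * (1/q)^A'.card)` is the same number (`r ≥ 1` because `A'` is not empty). -/
def StSp : Prop := ∀ (U : Type) [Fintype U] (v b r : ℕ) (q : ℝ) (Y : U → Finset (Fin v)),
  (∀ A : Finset (Fin v), A.card ≤ 2 * b →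
    ((univ.filter (fun u => A ⊆ Y u)).card : ℝ) ≤ Fintype.card U * (1 / q) ^ A.card) →
  ∀ A' : Finset (Fin v × Fin r), A'.Nonempty → A'.card ≤ 2 * b →
    ((univ.filter (fun p : U × Fin r => A' ⊆ lay (Y p.1) p.2)).card : ℝ) ≤
      Fintype.card (U × Fin r) * ((1 / (r : ℝ)) * (1 / q) ^ A'.card)

open Classical in
/-- **Dg** (MEDIUM, copy of `GapApprox.lean` with three changes). The approximation with a general
evaluation of the inputs. `N z` is the input (a set of true variables) of the negative test `z`,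
`Ps u` the input of the positive test `u`, `Y u` its planted set of points; `hin` gives for every
variable `e` a family `𝒢` of small sets which is an exact approximator of `e`. The bound on the
planted sets is needed only for nonempty `A` and has the factor `θ`.
PROOF. Copy the part of `GapApprox.lean` from `ScaleC` on. (1) In `ScaleC`, `planted_countC`,
`trim_countC`, `approx_stepC` replace `hY` by the hypothesis of this statement and all bounds
`Fintype.card U * (2 * (B/q)^j₀)` by `Fintype.card U * (θ * (2 * (B/q)^j₀))`; `planted_countC` is used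
for `j₀ ≥ 1` only, so that all sets `A` in it are nonempty (add `1 ≤ j₀`). (2) In `approxC` replace
`gval c j (gr x ∪ cl (fresh x (Y u)))` by `gval c j (Ps u)` and `gval c j (gr (ext x z))` by
`gval c j (N z)`; the gate `var e` is a `simple` gate with the family of `hin e`; the other gates are
word by word the same. (3) `dichotomyC` the same with these changes (in the second case `∅ ∉ 𝒱`,
`j₀ = 1`). -/
def StDg : Prop := ∀ (W C U E : Type) [Fintype W] [DecidableEq W] [Fintype C] [DecidableEq C]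
  [Nonempty C] [Fintype U] [DecidableEq E] (a B q θ : ℝ) (b R : ℕ) (Y : U → Finset W)
  (Ps : U → Finset E) (N : St W C → Finset E), 0 < a → 1 ≤ R → R * a ≤ 1 → 0 < B → 0 < q →
  B / q ≤ 1 / 2 → 2 ≤ b → 8 * b ≤ B * a → 64 * b ^ 2 ≤ Fintype.card C → 0 ≤ θ →
  (∀ A : Finset W, A.Nonempty → A.card ≤ 2 * b →
    ((univ.filter (fun u => A ⊆ Y u)).card : ℝ) ≤ Fintype.card U * (θ * (1 / q) ^ A.card)) →
  (∀ e : E, ∃ 𝒢 : Finset (Finset W), (∀ A ∈ 𝒢, A.card ≤ b) ∧
    (∀ u, e ∈ Ps u → ∃ A ∈ 𝒢, A ⊆ Y u) ∧ (∀ z, (∃ A ∈ 𝒢, Acc A z) → e ∈ N z)) →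
  ∀ (c : List (Gate E)) (_ : numNot c = 0) (j : ℕ),
    Ex (R * a) (fun z : St W C => ind (¬ gval c j (N z) = true)) ≤
        (size c + 1) * ((lowSets W b).card * epsC C b R) ∨
      ((univ.filter (fun u => gval c j (Ps u) = true)).card : ℝ) ≤
        Fintype.card U * (θ * (2 * (B / q) + size c * (2 * (B / q) ^ (b + 1))))

open Classical in
/-- **Di** (MEDIUM; hypotheses `StLy`, `StSl`, `StSp`, `StDg`): small circuits without NOT gates
satisfy the dichotomy at all scales.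
PROOF. `mono`: `NegLim.gval_mono`. Let `k ≤ K`, `r = 2^k`, `x` given. Apply `StDg` with
`W = Fin v × Fin r`, `C = Fin (64 b²)`, `U' = U × Fin r`, `E = Sym2 (Fin v)`, `a = 16 b / q`, `B = q / 2`
(so `B / q = 1/2`, `B a = 8 b`, `R a = 16 b R / q ≤ 1`), `θ = 1 / r`, `Y' p = lay (Y p.1) p.2`,
`Ps p = x ∪ cl (Y p.1)`, `N z = x ∪ grn z`. `StSp` gives the bound on the planted sets. `hin e`: if
`e ∈ x` take `𝒢 = {∅}`; otherwise `𝒢` = the set of all `{(a, i), (b, i)}` with `a ≠ b`, `s(a, b) = e`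
(`b ≥ 2`): if `e ∈ x ∪ cl (Y u)` then `e = s(a, b)`, `a ≠ b` in `Y u` and
`{(a, i), (b, i)} ⊆ lay (Y u) i`; if `Acc {(a, i), (b, i)} z` then both are present with different
colours, so `e ∈ grn z`. Result. First case: by `StSl`
`Sn (2^k) (1 - G) x = Ex ρ (ind (¬ gval c j (x ∪ grn z) = true)) ≤ (size c + 1) * W * epsC` with
`ρ = R a` (rewrite `if .. then 0 else 1` as `ind (¬ ..)`), and `W = (lowSets (Fin v × Fin r) b).card ≤
(v r + 1)^(2b) ≤ (v 2^K + 1)^(2b)` (`NegLim.card_lowSets_le`), `epsC = (lowSets C b).card (1/2)^R ≤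
(64 b² + 1)^(2b) (1/2)^R`. Second case: the number of pairs `(u, i)` with
`gval c j (x ∪ cl (Y u)) = true` is `r` times the number of such `u`, so this number is at most
`card U * (1/r) * (1 + size c * 2 * (1/2)^(b+1)) ≤ card U * (1/r) * 2` as `size c ≤ S ≤ 2^b`. -/
def StDi : Prop := StLy → StSl → StSp → StDg → ∀ (U : Type) [Fintype U] [Nonempty U]
  (v b R K q S : ℕ) (Y : U → Finset (Fin v)), 2 ≤ b → 1 ≤ R → 16 * b * R ≤ q →
  (∀ A : Finset (Fin v), A.card ≤ 2 * b →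
    ((univ.filter (fun u => A ⊆ Y u)).card : ℝ) ≤ Fintype.card U * (1 / (q : ℝ)) ^ A.card) →
  S ≤ 2 ^ b → ∀ (c : List (Gate (Sym2 (Fin v)))) (_ : numNot c = 0) (_ : size c ≤ S) (j : ℕ),
    DichG (Ω := St (Fin v) (Fin (64 * b ^ 2))) (wgt (16 * b * R / (q : ℝ))) gr K
      (((S : ℝ) + 1) * (((v * 2 ^ K + 1) ^ (2 * b) : ℕ) *
        ((((64 * b ^ 2 + 1) ^ (2 * b) : ℕ) : ℝ) * (1 / 2) ^ R)))
      (fun u => cl (Y u)) (gval c j)

/-- **Px** (EASY). PROOF. `K' = Nat.log 2 (q² / X²)` (`Nat.pow_log_le_self`,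
`Nat.lt_pow_succ_log_self`, `Nat.div_mul_le_self`, `Nat.lt_mul_div_succ`). -/
def StPx : Prop := ∀ q X : ℕ, 1 ≤ X → X ≤ q → ∃ K' : ℕ, 2 ^ K' * X ^ 2 ≤ q ^ 2 ∧
  q ^ 2 < 2 ^ (K' + 1) * X ^ 2

end Pool.Agent.GR
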