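import Pool.Agent.Work.MP_71c844_lc.GR.Chain
import Pool.Agent.Work.MP_71c844_lc.GR.Stmts
import Pool.Agent.Work.MP_71c844_lc.LayGuess

/-!
# Block GR: the bounds for circuits in terms of the parameters of the construction
-/

namespace Pool.Agent.GR

open Finset Pool.Agent.GapLim Pool.Agent.LayCirc
open Pool.Agent.NegLim (gval numNot lowSets)

/-- The planted set: one vertex in each of the `n` blocks. -/
def plant {n q v : ℕ} (ι : Fin n × Fin q ↪ Fin v) (u : Fin n → Fin q) : Finset (Fin v) :=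
  univ.image (fun i => ι (i, u i))

section planted

variable {n q v : ℕ}

lemma card_plant (ι : Fin n × Fin q ↪ Fin v) (u : Fin n → Fin q) : (plant ι u).card = n := by
  unfold plant
  rw [Finset.card_image_of_injective, Finset.card_univ, Fintype.card_fin]
  intro i j hij
  have := ι.injective hij
  rw [Prod.mk.injEq] at this
  exact this.1

open Classical in
lemma plant_spread (hq : 1 ≤ q) (ι : Fin n × Fin q ↪ Fin v) (A : Finset (Fin v)) :
    ((univ.filter (fun u : Fin n → Fin q => A ⊆ plant ι u)).card : ℝ) ≤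
      Fintype.card (Fin n → Fin q) * (1 / (q : ℝ)) ^ A.card := by
  by_cases hex : ∃ u₀ : Fin n → Fin q, A ⊆ plant ι u₀
  · obtain ⟨u₀, hu₀⟩ := hex
    set I : Finset (Fin n) := univ.filter (fun i => ι (i, u₀ i) ∈ A) with hI
    have hIcard : I.card = A.card := by
      apply Finset.card_bij (fun i _ => ι (i, u₀ i))
      · intro i hi
        rw [hI, Finset.mem_filter] at hi
        exact hi.2
      · intro i _ j _ hij
        have := ι.injective hij
        rw [Prod.mk.injEq] at this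
        exact this.1
      · intro a ha
        have h1 := hu₀ ha
        rw [plant, Finset.mem_image] at h1
        obtain ⟨i, -, hi⟩ := h1
        exact ⟨i, by rw [hI, Finset.mem_filter]; exact ⟨mem_univ _, by rw [hi]; exact ha⟩, hi⟩
    have hAn : A.card ≤ n := by
      rw [← hIcard]
      exact (Finset.card_le_univ I).trans_eq (Fintype.card_fin n)
    have hsub : univ.filter (fun u : Fin n → Fin q => A ⊆ plant ι u) ⊆
        Fintype.piFinset (fun i => if i ∈ I then ({u₀ i} : Finset (Fin q)) else univ) := by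
      intro u hu
      rw [Finset.mem_filter] at hu
      rw [Fintype.mem_piFinset]
      intro i
      split_ifs with hi
      · rw [hI, Finset.mem_filter] at hi
        have h1 := hu.2 hi.2
        rw [plant, Finset.mem_image] at h1
        obtain ⟨j, -, hj⟩ := h1
        have := ι.injective hj
        rw [Prod.mk.injEq] at this
        obtain ⟨rfl, h2⟩ := this
        rw [Finset.mem_singleton]; exact h2
      · exact mem_univ _
    have hcard : (Fintype.piFinset
        (fun i => if i ∈ I then ({u₀ i} : Finset (Fin q)) else univ)).card = q ^ (n - A.card) := by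
      rw [Fintype.card_piFinset]
      have : ∀ i : Fin n, (if i ∈ I then ({u₀ i} : Finset (Fin q)) else univ).card =
          if i ∈ univ \ I then q else 1 := by
        intro i
        by_cases hi : i ∈ I
        · simp [hi]
        · simp [hi]
      simp_rw [this]
      rw [Finset.prod_ite_mem, Finset.univ_inter, Finset.prod_const,
        Finset.card_sdiff_of_subset (Finset.subset_univ I), Finset.card_univ, Fintype.card_fin,
        hIcard]
    have h1 : (univ.filter (fun u : Fin n → Fin q => A ⊆ plant ι u)).card ≤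
        q ^ (n - A.card) := by
      rw [← hcard]; exact Finset.card_le_card hsub
    have h2 : ((univ.filter (fun u : Fin n → Fin q => A ⊆ plant ι u)).card : ℝ) ≤
        (q : ℝ) ^ (n - A.card) := by exact_mod_cast h1
    refine h2.trans (le_of_eq ?_)
    have hq' : (q : ℝ) ≠ 0 := by
      have : (1 : ℝ) ≤ q := by exact_mod_cast hq
      linarith
    rw [Fintype.card_fun, Fintype.card_fin, Fintype.card_fin, pow_sub₀ _ hq' hAn, one_div, inv_pow]
    push_cast
    rfl
  · have : univ.filter (fun u : Fin n → Fin q => A ⊆ plant ι u) = ∅ := by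
      rw [Finset.filter_eq_empty_iff]
      intro u _ hu
      exact hex ⟨u, hu⟩
    rw [this, Finset.card_empty, Nat.cast_zero]
    positivity

end planted

/-- The statements of the items, in the form in which they are used. -/
structure Items : Prop where
  Kr : StKr
  Je : StJe
  Dc : StDc
  Mo : StMo
  Ly : StLy
  Sl : StSl
  Pr : StPr
  Cb : StCb
  Sp : StSp
  Dg : StDg
  Di : StDi
  Px : StPx

/-- The parameters of the construction. -/
structure Par (v s q b R K' D Z S : ℕ) : Prop where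
  hv : 2 ≤ v
  hb : 2 ≤ b
  hR : 1 ≤ R
  hs : 1 ≤ s
  hRq : 16 * b * R ≤ q
  hsq : s * q ≤ v
  hZ : v ^ 2 ≤ Z ^ D
  hK : 2 ^ K' * (16 * b * R * (64 * b ^ 2) ^ D * Z) ^ 2 ≤ q ^ 2
  hS : S ≤ 2 ^ b
  hSR : 2 ^ K' * ((S + 1) * ((v * 2 ^ (K' + 1) + 1) ^ (2 * b) * (64 * b ^ 2 + 1) ^ (2 * b))) ≤ 2 ^ R

section par

variable {v s q b R K' D Z S : ℕ}

/-- the density of one step -/
noncomputable def rho (b R q : ℕ) : ℝ := 16 * b * R / (q : ℝ)

/-- the error -/
noncomputable def err (v b R K S : ℕ) : ℝ :=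
  ((S : ℝ) + 1) * (((v * 2 ^ K + 1) ^ (2 * b) : ℕ) *
        ((((64 * b ^ 2 + 1) ^ (2 * b) : ℕ) : ℝ) * (1 / 2) ^ R))

lemma Par.q1 (P : Par v s q b R K' D Z S) : 1 ≤ q := by
  have h1 := P.hRq
  have h2 := P.hb
  have h3 := P.hR
  have : 1 ≤ 16 * b * R := Nat.one_le_iff_ne_zero.mpr (by positivity)
  omega

lemma Par.rho0 (_ : Par v s q b R K' D Z S) : 0 ≤ rho b R q := by unfold rho; positivity

lemma Par.rho1 (P : Par v s q b R K' D Z S) : rho b R q ≤ 1 := by
  unfold rho
  have hq : (0 : ℝ) < q := by exact_mod_cast P.q1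
  rw [div_le_one hq]
  exact_mod_cast P.hRq

lemma Par.err_le (P : Par v s q b R K' D Z S) : 2 ^ K' * err v b R (K' + 1) S ≤ 1 := by
  unfold err
  have h : ((2 : ℝ) ^ K' * (((S : ℝ) + 1) * ((((v * 2 ^ (K' + 1) + 1) ^ (2 * b) : ℕ) : ℝ) *
      (((64 * b ^ 2 + 1) ^ (2 * b) : ℕ) : ℝ)))) ≤ 2 ^ R := by
    exact_mod_cast P.hSR
  have e4 : (1 / 2 : ℝ) ^ R = 1 / 2 ^ R := by rw [div_pow, one_pow]
  rw [e4]
  have : (2 : ℝ) ^ K' * (((S : ℝ) + 1) * ((((v * 2 ^ (K' + 1) + 1) ^ (2 * b) : ℕ) : ℝ) *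
        ((((64 * b ^ 2 + 1) ^ (2 * b) : ℕ) : ℝ) * (1 / 2 ^ R)))) =
      ((2 : ℝ) ^ K' * (((S : ℝ) + 1) * ((((v * 2 ^ (K' + 1) + 1) ^ (2 * b) : ℕ) : ℝ) *
      (((64 * b ^ 2 + 1) ^ (2 * b) : ℕ) : ℝ)))) / 2 ^ R := by ring
  rw [this, div_le_one (by positivity)]
  exact h

lemma Par.D1 (P : Par v s q b R K' D Z S) : 1 ≤ D := by
  by_contra h
  have hD : D = 0 := by omega
  have h1 := P.hZ
  rw [hD, pow_zero] at h1
  have h2 := P.hv
  nlinarith

lemma Par.Z1 (P : Par v s q b R K' D Z S) : 1 ≤ Z := by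
  by_contra h
  have hZ : Z = 0 := by omega
  have h1 := P.hZ
  rw [hZ, zero_pow (by have := P.D1; omega)] at h1
  have h2 := P.hv
  nlinarith

lemma Par.kap (P : Par v s q b R K' D Z S) : 3 ≤ (64 * b ^ 2) ^ D := by
  have h1 : 64 * b ^ 2 ≤ (64 * b ^ 2) ^ D := Nat.le_self_pow (by have := P.D1; omega) _
  have h2 := P.hb
  have h3 : 1 ≤ b ^ 2 := Nat.one_le_pow _ _ (by omega)
  omega

/-- the union graph has no large clique -/
lemma Par.bad (I : Items) (P : Par v s q b R K' D Z S) (i : ℕ) (hi : i < 2 ^ K') :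
    Sn (Ω := St (Fin v) (Fin (64 * b ^ 2))) (wgt (rho b R q)) gr i
      (fun x => ind (HasCl ((64 * b ^ 2) ^ D) x)) ∅ ≤ 1 / 2 := by
  rw [I.Sl I.Ly]
  simp only [Finset.empty_union]
  have hb := P.hb
  have hb2 : 1 ≤ b ^ 2 := Nat.one_le_pow _ _ (by omega)
  refine I.Cb I.Kr I.Je I.Dc I.Mo I.Ly I.Pr v (64 * b ^ 2) D Z i (rho b R q) P.hv (by omega)
    P.kap P.hZ P.Z1 P.rho0 P.rho1 ?_
  have hq : (0 : ℝ) < q := by exact_mod_cast P.q1
  have hi' : (i : ℝ) ≤ 2 ^ K' := by exact_mod_cast hi.le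
  have hK : (2 : ℝ) ^ K' * (16 * b * R * (((64 * b ^ 2) ^ D : ℕ) : ℝ) * Z) ^ 2 ≤ (q : ℝ) ^ 2 := by
    exact_mod_cast P.hK
  have e : ((((64 * b ^ 2) ^ D : ℕ) : ℝ) * rho b R q * Z) ^ 2 =
      (16 * b * R * (((64 * b ^ 2) ^ D : ℕ) : ℝ) * Z) ^ 2 / (q : ℝ) ^ 2 := by
    unfold rho
    rw [← div_pow]
    congr 1
    ring
  rw [e, ← mul_div_assoc, div_le_one (by positivity)]
  refine le_trans ?_ hK
  exact mul_le_mul_of_nonneg_right hi' (by positivity)

/-- small circuits without NOT gates satisfy the dichotomy -/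
lemma Par.dich (I : Items) (P : Par v s q b R K' D Z S) (ι : Fin s × Fin q ↪ Fin v)
    (c : List (NegLim.Gate (Sym2 (Fin v)))) (hc : numNot c = 0) (hS : NegLim.size c ≤ S) (j : ℕ) :
    DichG (Ω := St (Fin v) (Fin (64 * b ^ 2))) (wgt (rho b R q)) gr (K' + 1)
      (err v b R (K' + 1) S) (fun u : Fin s → Fin q => cl (plant ι u)) (gval c j) := by
  have : Nonempty (Fin s → Fin q) := ⟨fun _ => ⟨0, P.q1⟩⟩
  exact I.Di I.Ly I.Sl I.Sp I.Dg (Fin s → Fin q) v b R (K' + 1) q S (plant ι) P.hb P.hR P.hRq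
    (fun A _ => by convert plant_spread P.q1 ι A) P.hS c hc hS j

lemma Par.w0 (P : Par v s q b R K' D Z S) (ω : St (Fin v) (Fin (64 * b ^ 2))) :
    0 ≤ wgt (rho b R q) ω := weight_nonneg P.rho0 P.rho1 ω

lemma Par.w1 (P : Par v s q b R K' D Z S) :
    ∑ ω : St (Fin v) (Fin (64 * b ^ 2)), wgt (rho b R q) ω = 1 := by
  have hb := P.hb
  have hb2 : 1 ≤ b ^ 2 := Nat.one_le_pow _ _ (by omega)
  have : Nonempty (Fin (64 * b ^ 2)) := ⟨⟨0, by omega⟩⟩
  have h := Ex_const (V := Fin v) (C := Fin (64 * b ^ 2)) (rho b R q) 1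
  unfold Ex at h
  simp only [mul_one] at h
  exact h

lemma Par.emb (P : Par v s q b R K' D Z S) : Nonempty (Fin s × Fin q ↪ Fin v) :=
  Function.Embedding.nonempty_of_card_le (by
    rw [Fintype.card_prod, Fintype.card_fin, Fintype.card_fin, Fintype.card_fin]; exact P.hsq)

lemma hasCl_planted (x : Finset (Sym2 (Fin v))) (ι : Fin s × Fin q ↪ Fin v)
    (u : Fin s → Fin q) : HasCl s (x ∪ cl (plant ι u)) := by
  refine ⟨plant ι u, card_plant ι u, ?_⟩
  intro a ha b hb hab
  rw [Finset.mem_union]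
  right
  rw [mem_cl]
  exact ⟨a, b, rfl, ha, hb, hab⟩

/-- the trivial projection -/
def idp (v : ℕ) : Sym2 (Fin v) → Bool ⊕ Sym2 (Fin v) := Sum.inr

/-- The bound in terms of patterns. -/
theorem pat_thm (I : Items) {S' M : ℕ} (P : Par v s q b R K' D Z S) (hS' : 2 * S' ≤ S)
    (c : Circuit (Sym2 (Fin v)) S') (o : Fin S') (hM1 : 1 ≤ M)
    (hM : ∀ x : ℕ → (Sym2 (Fin v) → Bool), Monotone x →
      (Set.range (fun i => pattern c (x i))).ncard ≤ M)
    (hyes : ∀ x : Finset (Sym2 (Fin v)), HasCl s x → val c (inp (idp v) x) o = true)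
    (hno : ∀ x : Finset (Sym2 (Fin v)), ¬ HasCl ((64 * b ^ 2) ^ D) x →
      val c (inp (idp v) x) o = false) :
    2 ^ K' ≤ 22 * (K' + 1) * M := by
  classical
  obtain ⟨ι⟩ := P.emb
  have : Nonempty (Fin s → Fin q) := ⟨fun _ => ⟨0, P.q1⟩⟩
  refine main_G (Ω := St (Fin v) (Fin (64 * b ^ 2))) (E := Sym2 (Fin v)) (p := wgt (rho b R q))
    (D := gr) (U := Fin s → Fin q) (H := Fin S' → Bool) (K' := K') (P := M)
    (ε := err v b R (K' + 1) S) (Q := fun u => cl (plant ι u)) P.w0 P.w1
    (by unfold err; positivity) P.err_le hM1 (pat (idp v) c)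
    (fun h => gval (qry (idp v) c o h) 0) ?_ ?_ (fun x => HasCl ((64 * b ^ 2) ^ D) x)
    (fun i hi => P.bad I i hi) ?_
  · intro x hx m
    have h1 := hM (fun i => inp (idp v) (x i)) (by
      intro i j hij e
      show inp (idp v) (x i) e ≤ inp (idp v) (x j) e
      unfold inp NegLim.pull idp
      have := hx hij
      by_cases h : e ∈ x i
      · simp only [h, this h, le_refl]
      · simp only [h, decide_false]
        exact Bool.false_le _)
    refine le_trans ?_ h1
    rw [← Set.ncard_coe_finset]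
    let ext : ({j : Fin S' // Fed c j} → Bool) → (Fin S' → Bool) :=
      fun f j => if h : Fed c j then f ⟨j, h⟩ else false
    refine le_trans (Set.ncard_le_ncard
      (t := ext '' (Set.range (fun i => pattern c (inp (idp v) (x i))))) ?_ (Set.toFinite _))
      (Set.ncard_image_le (Set.toFinite _))
    intro f hf
    obtain ⟨i, _, rfl⟩ := (@Finset.mem_image _ _
      (fun a b => Classical.propDecidable (a = b)) _ _ _).mp (Finset.mem_coe.mp hf)
    refine ⟨pattern c (inp (idp v) (x i)), ⟨i, rfl⟩, ?_⟩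
    funext j
    simp only [ext, pattern, pat]
    by_cases h : Fed c j
    · rw [dif_pos h, if_pos h]
    · rw [dif_neg h, if_neg h]
  · intro h
    exact P.dich I ι (qry (idp v) c o h) (numNot_qry (idp v) c o h)
      ((size_qry (idp v) c o h).trans hS') 0
  · intro x hx
    have hX := hno x hx
    refine ⟨(pat_cover (idp v) c o x x (Finset.Subset.refl _) hX).1, fun u => ?_⟩
    exact (pat_cover (idp v) c o x (x ∪ cl (plant ι u)) Finset.subset_union_left hX).2
      (hyes _ (hasCl_planted x ι u))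

/-- The bound for families. -/
theorem fam_thm (I : Items) {T : Type} [Fintype T] (P : Par v s q b R K' D Z S)
    (g : T → List (NegLim.Gate (Sym2 (Fin v)))) (hg : ∀ t, numNot (g t) = 0)
    (hgS : ∀ t, NegLim.size (g t) ≤ S)
    (hout : ∀ x y : Finset (Sym2 (Fin v)), ¬ HasCl ((64 * b ^ 2) ^ D) x → HasCl s y →
      ∃ t, gval (g t) 0 x ≠ gval (g t) 0 y) :
    2 ^ K' ≤ 22 * (K' + 1) * Fintype.card T := by
  classical
  obtain ⟨ι⟩ := P.emb
  have : Nonempty (Fin s → Fin q) := ⟨fun _ => ⟨0, P.q1⟩⟩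
  refine main_F (Ω := St (Fin v) (Fin (64 * b ^ 2))) (E := Sym2 (Fin v)) (p := wgt (rho b R q))
    (D := gr) (U := Fin s → Fin q) (K' := K')
    (ε := err v b R (K' + 1) S) (Q := fun u => cl (plant ι u)) P.w0 P.w1
    (by unfold err; positivity) P.err_le (fun t => gval (g t) 0)
    (fun t => P.dich I ι (g t) (hg t) (hgS t) 0) (fun x => HasCl ((64 * b ^ 2) ^ D) x)
    (fun i hi => P.bad I i hi) ?_
  intro x hx u
  obtain ⟨t, ht⟩ := hout x (x ∪ cl (plant ι u)) hx (hasCl_planted x ι u)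
  refine ⟨t, ?_⟩
  rcases h1 : gval (g t) 0 x with _ | _
  · refine ⟨rfl, ?_⟩
    rw [h1] at ht
    cases h2 : gval (g t) 0 (x ∪ cl (plant ι u)) with
    | false => exact absurd h2.symm (by simpa using ht)
    | true => rfl
  · exfalso
    apply ht
    rw [h1]
    exact (NegLim.gval_mono _ (hg t) 0 Finset.subset_union_left h1).symm

/-- The bound for circuits with few mixing gates. -/
theorem mix_thm (I : Items) {S' M : ℕ} (P : Par v s q b R K' D Z S)
    (c : Circuit (Sym2 (Fin v)) S') (hS' : LayCirc.size c ≤ S) (o : Fin S')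
    (hM : wires c + numMixing c + 1 ≤ M)
    (hyes : ∀ x : Finset (Sym2 (Fin v)), HasCl s x → val c (inp (idp v) x) o = true)
    (hno : ∀ x : Finset (Sym2 (Fin v)), ¬ HasCl ((64 * b ^ 2) ^ D) x →
      val c (inp (idp v) x) o = false) :
    2 ^ K' ≤ 22 * (K' + 1) * (4 * M) := by
  classical
  let T : Type := {i : Fin S' // i ∈ tgt c o} × Bool
  have hT : Fintype.card T ≤ 4 * M := by
    have h1 := card_tgt c o
    have h2 : Fintype.card T = (tgt c o).card * 2 := by
      rw [Fintype.card_prod, Fintype.card_coe, Fintype.card_bool]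
    rw [h2]
    omega
  refine (fam_thm (T := T) I P (fun t => mono c t.1.1 t.2) (fun t => numNot_mono _ _ _)
    (fun t => (size_mono c t.1.1 t.2).trans hS') ?_).trans (Nat.mul_le_mul_left _ hT)
  intro x y hx hy
  by_contra hcon
  push Not at hcon
  have hdet := det c o (inp (idp v) x) (inp (idp v) y) (by
    intro i hi b'
    have h1 := hcon (⟨i, hi⟩, b')
    have e : ∀ z : Finset (Sym2 (Fin v)), gval (mono c i b') 0 z =
        val (fz c b') (inp (idp v) z) i := fun z => output_mono c i b' (inp (idp v) z)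
    rw [← e, ← e]
    exact h1)
  rw [hno x hx, hyes y hy] at hdet
  cases hdet

end par

end Pool.Agent.GR
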