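import Pool.Agent.Work.MP_71c844_lc.GR.Stmts

/-!
# Block GR, second version of the clique bound: statements with complete proofs

The union of `r` layers has no clique of `k ≥ L κ^D` vertices as long as `6 r k ρ² ≤ 1` (no loss of a
factor `v^δ`). Layers in which exactly two vertices of `K` are present and layers in which at least
three are present are treated differently.

Write `pr_<name> : St<name>` in `GR/I_<name>.lean` (namespace `Pool.Agent.GR`).
-/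

namespace Pool.Agent.GR

open Finset Pool.Agent.GapLim

section graphs

variable {V C : Type} [Fintype V] [DecidableEq V] [Fintype C] [DecidableEq C]

open Classical in
/-- the number of layers in which `x` is present and exactly two vertices of `K` are present -/
noncomputable def dg2 {r : ℕ} (z : St (V × Fin r) C) (K : Finset V) (x : V) : ℕ :=
  (univ.filter (fun i : Fin r => z (x, i) ≠ none ∧ pres K (fun a => z (a, i)) = 2)).card

open Classical in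
/-- the number of layers in which `x` is present and at least three vertices of `K` are present -/
noncomputable def dg3 {r : ℕ} (z : St (V × Fin r) C) (K : Finset V) (x : V) : ℕ :=
  (univ.filter (fun i : Fin r => z (x, i) ≠ none ∧ 3 ≤ pres K (fun a => z (a, i)))).card

end graphs

/-- the weight of a layer in which `t` vertices of `K` are present -/
def wt (B t : ℕ) : ℕ := if t ≤ 1 then 1 else if t = 2 then 4 else B ^ (t - 2)

/-- **KrB** (EASY-MEDIUM, variant of `I_Kr.lean`, Kraft inequality with multiplicity). Let `K` be a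
clique of the graph `grn z` of an `r` layer state with `κ ≥ 1` colours and `J ⊆ K` a set of vertices
with `dg2 z K x < H` for all `x ∈ J`. Then `∑ x ∈ J, (1/κ)^(dg3 z K x) ≤ H`.
PROOF. For `x ∈ K` let `R x` be the set of the functions `g : Fin r → Fin κ` such that
`z (x, i) = some (g i)` for every layer `i` with `z (x, i) ≠ none ∧ 3 ≤ pres K (z (·, i))`;
`card (R x) = κ^(r - dg3 z K x)` (word by word as in `I_Kr.lean` with `3` in place of `2`). Claim: every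
`g` is in `R x` for at most `H` vertices `x ∈ J`. Let `S = J.filter (g ∈ R x)`, and suppose `x ∈ S`.
For `y ∈ S`, `y ≠ x`, there is (as `s(x, y) ∈ grn z`) a layer `i` with `z (x, i)`, `z (y, i)` both
`≠ none` and different; `pres K (z (·, i)) ≥ 2` (two elements), and it is not `≥ 3` since otherwise
`z (x, i) = some (g i) = z (y, i)`; so it is `2`, the layer `i` is counted in `dg2 z K x`, and the
vertices of `K` present in the layer `i` are exactly `x` and `y`. So the map `y ↦ i` (choice) is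
injective on `S \ {x}` (`Finset.card_eq_two`, or: if `y ≠ y'` had the same layer, `x, y, y'` would be
three present vertices, `Finset.two_lt_card`), hence `S.card - 1 ≤ dg2 z K x < H`, `S.card ≤ H`
(`Finset.card_le_card_of_injOn`). If `S = ∅`, trivial. Now count the pairs `(x, g)`, `x ∈ J`,
`g ∈ R x`, in two ways (`Finset.sum_card_bipartiteAbove_eq_sum_card_bipartiteBelow` or
`Finset.card_eq_sum_ones`, `Finset.sum_comm`): `∑ x ∈ J, κ^(r - dg3) ≤ H * κ^r`; divide by `κ^r`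
(`dg3 ≤ r`). -/
def StKrB : Prop := ∀ (v κ r H : ℕ) (z : St (Fin v × Fin r) (Fin κ)) (K J : Finset (Fin v)),
  1 ≤ κ → IsCl (grn z) K → J ⊆ K → (∀ x ∈ J, dg2 z K x < H) →
  ∑ x ∈ J, (1 / (κ : ℝ)) ^ dg3 z K x ≤ H

/-- **WtB** (EASY, double counting as in `I_Dc.lean`). PROOF. Write `t i = pres K (z (·, i))`. As in
`I_Dc.lean`, `∑ x ∈ K, dg2 z K x = ∑ i, (if t i = 2 then 2 else 0)` and
`∑ x ∈ K, dg3 z K x = ∑ i, (if 3 ≤ t i then t i else 0)` (exchange the sums; the number of `x ∈ K`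
with `z (x, i) ≠ none` is `t i`). So the left side is `8^(∑ ..) * B^(∑ ..) =
∏ i, 8^(if t i = 2 then 2 else 0) * B^(if 3 ≤ t i then t i else 0)` (`Finset.prod_pow_eq_pow_sum`,
`Finset.prod_mul_distrib`), and termwise this is at most `(wt B (t i))^3`: `1 ≤ 1` if `t i ≤ 1`,
`64 = 4^3` if `t i = 2`, and `B^t ≤ B^(3 (t - 2)) = (B^(t-2))^3` if `t ≥ 3` (`Finset.prod_le_prod'`,
`Finset.prod_pow`). -/
def StWtB : Prop := ∀ (v κ r B : ℕ) (z : St (Fin v × Fin r) (Fin κ)) (K : Finset (Fin v)), 1 ≤ B →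
  ∏ x ∈ K, (8 ^ dg2 z K x * B ^ dg3 z K x) ≤ (∏ i : Fin r, wt B (pres K (fun a => z (a, i)))) ^ 3

/-- **CmB** (EASY-MEDIUM; hypotheses `StKrB`, `StWtB`). PROOF. Let
`J = K.filter (dg3 z K x < D ∧ dg2 z K x < 4 L)`. By `StKrB` with `H = 4 L` and
`(1/κ)^(dg3) ≥ (1/κ)^(D-1)` on `J` (`pow_le_pow_of_le_one`):
`J.card * (1/κ)^(D-1) ≤ 4 L`, so `J.card ≤ 4 L κ^(D-1)` and `2 * J.card ≤ 8 L κ^(D-1) ≤ L κ^D ≤ k`.
For `x ∈ K \ J` the factor `8^dg2 * B^dg3` is at least `v^12`: if `dg2 ≥ 4 L` it is at least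
`8^(4 L) = 2^(12 L) ≥ v^12` (`B^dg3 ≥ 1` as `B ≥ 1`, which follows from `v^12 ≤ B^D`), if `dg3 ≥ D` it is
at least `B^D ≥ v^12`. For `x ∈ J` it is at least `1`. So `∏ x ∈ K, .. ≥ (v^12)^(k - J.card) ≥ v^(6 k)`
(`Finset.prod_le_prod'` with the function `if x ∈ J then 1 else v^12`; `Finset.prod_ite`,
`Finset.prod_const`), and by `StWtB` `(v^(2 k))^3 ≤ (∏ i, wt ..)^3`, hence the claim
(`lt_of_pow_lt_pow_left`, `Nat.pow_le_pow_iff_left`). -/
def StCmB : Prop := StKrB → StWtB → ∀ (v κ r D B L k : ℕ) (z : St (Fin v × Fin r) (Fin κ))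
  (K : Finset (Fin v)), 2 ≤ v → 8 ≤ κ → 1 ≤ D → v < 2 ^ L → L * κ ^ D ≤ k → v ^ 12 ≤ B ^ D →
  K.card = k → IsCl (grn z) K → v ^ (2 * k) ≤ ∏ i : Fin r, wt B (pres K (fun a => z (a, i)))

/-- **MoB** (EASY, variant of `I_Mo.lean`). PROOF. Pointwise, with `t = pres K z`,
`wt B t ≤ 1 + ∑ A ∈ K.powerset with 2 ≤ A.card, 3 * B^(A.card - 2) * ind (∀ a ∈ A, z a ≠ none)`:
for `t ≤ 1` clear; for `t ≥ 2` take the term `A = K.filter (z a ≠ none)`: `4 = 1 + 3` if `t = 2`,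
`B^(t-2) ≤ 1 + 3 B^(t-2)` if `t ≥ 3`. Take `Ex` (`Ex_dom` as in `I_Mo.lean`): the expectation is at most
`1 + 3 * ∑ A ∈ K.powerset with 2 ≤ A.card, B^(A.card-2) ρ^A.card`, and with `y = B ρ` we have
`B^(j-2) ρ^j = y^j / B^2`; so it is `1 + 3 / B^2 * ((1+y)^k - 1 - k y) ≤ 1 + 3 / B^2 * (k y)^2 =
1 + 3 (k ρ)^2` (the last part of `I_Mo.lean`: `(1+y)^k ≤ 1 + k y + (k y)^2` if `k y ≤ 1`). -/
def StMoB : Prop := ∀ (v κ B : ℕ) (K : Finset (Fin v)) (ρ : ℝ), 1 ≤ κ → 0 ≤ ρ → ρ ≤ 1 → 1 ≤ B →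
  K.card * ρ * B ≤ 1 →
  Ex ρ (fun z : St (Fin v) (Fin κ) => ((wt B (pres K z) : ℕ) : ℝ)) ≤ 1 + 3 * (K.card * ρ) ^ 2

/-- **CbB** (EASY-MEDIUM, variant of `I_Cb.lean`; hypotheses `StKrB`, `StWtB`, `StCmB`, `StMoB`, `StLy`,
`StPr`). PROOF. If `K` is a clique of `grn z`, `K.card = k`, then `v^(2k) ≤ ∏ i, wt B (pres ..)` by
`StCmB`. Hence pointwise
`ind (HasCl k (grn z)) ≤ ∑ K ∈ powersetCard k univ, (∏ i, wt B (pres K (z (·, i)))) / v^(2k)`. Take `Ex`
(`Ex_mono`, `Ex_sum`, `Ex_smul`), `StPr` and `StMoB` (`K.card * ρ * B ≤ 1` is the hypothesis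
`B * k * ρ ≤ 1`): each term is at most
`(1 + 3 (k ρ)^2)^r / v^(2k) ≤ exp (3 r (k ρ)^2) / v^(2k) ≤ exp (k / 2) / v^(2k)` because
`3 r (k ρ)^2 = (k/2) * (6 r k ρ^2) ≤ k/2`. There are at most `v^k` sets (`Nat.choose_le_pow`), so the sum
is at most `exp (k/2) / v^k = (exp (1/2) / v)^k ≤ (exp (1/2) / 2)^k`; here
`exp (1/2) ≤ 1.65` (`(exp (1/2))^2 = exp 1 < 2.7182818286 < 1.65^2`, `Real.exp_one_lt_d9`), and
`0.825^k ≤ 0.825^8 ≤ 1/2` since `k ≥ 8` (`k ≥ L κ^D ≥ 8`; `L ≥ 1` as `2 ≤ v < 2^L`). -/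
def StCbB : Prop := StKrB → StWtB → StCmB → StMoB → StLy → StPr → ∀ (v κ D B L k r : ℕ) (ρ : ℝ),
  2 ≤ v → 8 ≤ κ → 1 ≤ D → v < 2 ^ L → L * κ ^ D ≤ k → v ^ 12 ≤ B ^ D → 0 ≤ ρ → ρ ≤ 1 →
  B * k * ρ ≤ 1 → 6 * r * k * ρ ^ 2 ≤ 1 →
  Ex ρ (fun z : St (Fin v × Fin r) (Fin κ) => ind (HasCl k (grn z))) ≤ 1 / 2

end Pool.Agent.GR
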