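import Pool.Agent.Work.MP_71c844_lc.GR.Main
import Pool.Agent.Work.MP_71c844_lc.GR.Stmts2

/-!
# Block GR: the bounds for circuits with the sharp clique bound
-/

namespace Pool.Agent.GR

open Finset Pool.Agent.GapLim Pool.Agent.LayCirc
open Pool.Agent.NegLim (gval numNot lowSets)

/-- The statements of the items, in the form in which they are used. -/
structure ItemsB : Prop where
  Ly : StLy
  Sl : StSl
  Pr : StPr
  Sp : StSp
  Dg : StDg
  Di : StDi
  KrB : StKrB
  WtB : StWtB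
  CmB : StCmB
  MoB : StMoB
  CbB : StCbB

/-- The parameters of the construction. -/
structure ParB (v s q b R K' D B L k S : ℕ) : Prop where
  hv : 2 ≤ v
  hb : 2 ≤ b
  hR : 1 ≤ R
  hs : 1 ≤ s
  hD : 1 ≤ D
  hRq : 16 * b * R ≤ q
  hsq : s * q ≤ v
  hL : v < 2 ^ L
  hk : L * (64 * b ^ 2) ^ D ≤ k
  hB : B * k * (16 * b * R) ≤ q
  hZ : v ^ 12 ≤ B ^ D
  hK : 2 ^ K' * (6 * k * (16 * b * R) ^ 2) ≤ q ^ 2
  hS : S ≤ 2 ^ b
  hSR : 2 ^ K' * ((S + 1) * ((v * 2 ^ (K' + 1) + 1) ^ (2 * b) * (64 * b ^ 2 + 1) ^ (2 * b))) ≤ 2 ^ R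

section par

variable {v s q b R K' D B L k S : ℕ}

lemma ParB.q1 (P : ParB v s q b R K' D B L k S) : 1 ≤ q := by
  have h1 := P.hRq
  have h2 := P.hb
  have h3 := P.hR
  have : 1 ≤ 16 * b * R := Nat.one_le_iff_ne_zero.mpr (by positivity)
  omega

lemma ParB.rho0 (_ : ParB v s q b R K' D B L k S) : 0 ≤ rho b R q := by unfold rho; positivity

lemma ParB.rho1 (P : ParB v s q b R K' D B L k S) : rho b R q ≤ 1 := by
  unfold rho
  have hq : (0 : ℝ) < q := by exact_mod_cast P.q1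
  rw [div_le_one hq]
  exact_mod_cast P.hRq

lemma ParB.err_le (P : ParB v s q b R K' D B L k S) : 2 ^ K' * err v b R (K' + 1) S ≤ 1 := by
  unfold err
  have h : ((2 : ℝ) ^ K' * (((S : ℝ) + 1) * ((((v * 2 ^ (K' + 1) + 1) ^ (2 * b) : ℕ) : ℝ) *
      (((64 * b ^ 2 + 1) ^ (2 * b) : ℕ) : ℝ)))) ≤ 2 ^ R := by
    exact_mod_cast P.hSR
  have e4 : (1 / 2 : ℝ) ^ R = 1 / 2 ^ R := by rw [div_pow, one_pow]
  rw [e4]
  have : (2 : ℝ) ^ K' * (((S : ℝ) + 1) * ((((v * 2 ^ (K' + 1) + 1) ^ (2 * b) : ℕ) : ℝ) *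
        ((((64 * b ^ 2 + 1) ^ (2 * b) : ℕ) : ℝ) * (1 / 2 ^ R)))) =
      ((2 : ℝ) ^ K' * (((S : ℝ) + 1) * ((((v * 2 ^ (K' + 1) + 1) ^ (2 * b) : ℕ) : ℝ) *
      (((64 * b ^ 2 + 1) ^ (2 * b) : ℕ) : ℝ)))) / 2 ^ R := by ring
  rw [this, div_le_one (by positivity)]
  exact h

/-- the union graph has no large clique -/
lemma ParB.bad (I : ItemsB) (P : ParB v s q b R K' D B L k S) (i : ℕ) (hi : i < 2 ^ K') :
    Sn (Ω := St (Fin v) (Fin (64 * b ^ 2))) (wgt (rho b R q)) gr i
      (fun x => ind (HasCl k x)) ∅ ≤ 1 / 2 := by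
  rw [I.Sl I.Ly]
  simp only [Finset.empty_union]
  have hb := P.hb
  have hb2 : 1 ≤ b ^ 2 := Nat.one_le_pow _ _ (by omega)
  have hq : (0 : ℝ) < q := by exact_mod_cast P.q1
  refine I.CbB I.KrB I.WtB I.CmB I.MoB I.Ly I.Pr v (64 * b ^ 2) D B L k i (rho b R q) P.hv
    (by omega) P.hD P.hL P.hk P.hZ P.rho0 P.rho1 ?_ ?_
  · have h : (B : ℝ) * k * (16 * b * R) ≤ q := by exact_mod_cast P.hB
    unfold rho
    rw [← mul_div_assoc, div_le_one hq]
    exact h
  · have hi' : (i : ℝ) ≤ 2 ^ K' := by exact_mod_cast hi.le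
    have hK : (2 : ℝ) ^ K' * (6 * k * (16 * b * R) ^ 2) ≤ (q : ℝ) ^ 2 := by
      exact_mod_cast P.hK
    have e : 6 * (i : ℝ) * k * rho b R q ^ 2 = i * (6 * k * (16 * b * R) ^ 2) / (q : ℝ) ^ 2 := by
      unfold rho
      rw [div_pow]
      ring
    rw [e, div_le_one (by positivity)]
    refine le_trans ?_ hK
    exact mul_le_mul_of_nonneg_right hi' (by positivity)

/-- small circuits without NOT gates satisfy the dichotomy -/
lemma ParB.dich (I : ItemsB) (P : ParB v s q b R K' D B L k S) (ι : Fin s × Fin q ↪ Fin v)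
    (c : List (NegLim.Gate (Sym2 (Fin v)))) (hc : numNot c = 0) (hS : NegLim.size c ≤ S) (j : ℕ) :
    DichG (Ω := St (Fin v) (Fin (64 * b ^ 2))) (wgt (rho b R q)) gr (K' + 1)
      (err v b R (K' + 1) S) (fun u : Fin s → Fin q => cl (plant ι u)) (gval c j) := by
  have : Nonempty (Fin s → Fin q) := ⟨fun _ => ⟨0, P.q1⟩⟩
  exact I.Di I.Ly I.Sl I.Sp I.Dg (Fin s → Fin q) v b R (K' + 1) q S (plant ι) P.hb P.hR P.hRq
    (fun A _ => by convert plant_spread P.q1 ι A) P.hS c hc hS j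

lemma ParB.w0 (P : ParB v s q b R K' D B L k S) (ω : St (Fin v) (Fin (64 * b ^ 2))) :
    0 ≤ wgt (rho b R q) ω := weight_nonneg P.rho0 P.rho1 ω

lemma ParB.w1 (P : ParB v s q b R K' D B L k S) :
    ∑ ω : St (Fin v) (Fin (64 * b ^ 2)), wgt (rho b R q) ω = 1 := by
  have hb := P.hb
  have hb2 : 1 ≤ b ^ 2 := Nat.one_le_pow _ _ (by omega)
  have : Nonempty (Fin (64 * b ^ 2)) := ⟨⟨0, by omega⟩⟩
  have h := Ex_const (V := Fin v) (C := Fin (64 * b ^ 2)) (rho b R q) 1
  unfold Ex at h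
  simp only [mul_one] at h
  exact h

lemma ParB.emb (P : ParB v s q b R K' D B L k S) : Nonempty (Fin s × Fin q ↪ Fin v) :=
  Function.Embedding.nonempty_of_card_le (by
    rw [Fintype.card_prod, Fintype.card_fin, Fintype.card_fin, Fintype.card_fin]; exact P.hsq)

/-- The bound in terms of patterns. -/
theorem pat_thmB (I : ItemsB) {S' M : ℕ} (P : ParB v s q b R K' D B L k S) (hS' : 2 * S' ≤ S)
    (c : Circuit (Sym2 (Fin v)) S') (o : Fin S') (hM1 : 1 ≤ M)
    (hM : ∀ x : ℕ → (Sym2 (Fin v) → Bool), Monotone x →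
      (Set.range (fun i => pattern c (x i))).ncard ≤ M)
    (hyes : ∀ x : Finset (Sym2 (Fin v)), HasCl s x → val c (inp (idp v) x) o = true)
    (hno : ∀ x : Finset (Sym2 (Fin v)), ¬ HasCl k x →
      val c (inp (idp v) x) o = false) :
    2 ^ K' ≤ 22 * (K' + 1) * M := by
  classical
  obtain ⟨ι⟩ := P.emb
  have : Nonempty (Fin s → Fin q) := ⟨fun _ => ⟨0, P.q1⟩⟩
  refine main_G (Ω := St (Fin v) (Fin (64 * b ^ 2))) (E := Sym2 (Fin v)) (p := wgt (rho b R q))
    (D := gr) (U := Fin s → Fin q) (H := Fin S' → Bool) (K' := K') (P := M)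
    (ε := err v b R (K' + 1) S) (Q := fun u => cl (plant ι u)) P.w0 P.w1
    (by unfold err; positivity) P.err_le hM1 (pat (idp v) c)
    (fun h => gval (qry (idp v) c o h) 0) ?_ ?_ (fun x => HasCl k x)
    (fun i hi => P.bad I i hi) ?_
  · intro x hx m
    have h1 := hM (fun i => inp (idp v) (x i)) (by
      intro i j hij e
      show inp (idp v) (x i) e ≤ inp (idp v) (x j) e
      unfold inp NegLim.pull idp
      have := hx hij
      by_cases h : e ∈ x i
      · simp only [h, this h, le_refl]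
      · simp only [h, decide_false]
        exact Bool.false_le _)
    refine le_trans ?_ h1
    rw [← Set.ncard_coe_finset]
    let ext : ({j : Fin S' // Fed c j} → Bool) → (Fin S' → Bool) :=
      fun f j => if h : Fed c j then f ⟨j, h⟩ else false
    refine le_trans (Set.ncard_le_ncard
      (t := ext '' (Set.range (fun i => pattern c (inp (idp v) (x i))))) ?_ (Set.toFinite _))
      (Set.ncard_image_le (Set.toFinite _))
    intro f hf
    obtain ⟨i, _, rfl⟩ := (@Finset.mem_image _ _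
      (fun a b => Classical.propDecidable (a = b)) _ _ _).mp (Finset.mem_coe.mp hf)
    refine ⟨pattern c (inp (idp v) (x i)), ⟨i, rfl⟩, ?_⟩
    funext j
    simp only [ext, pattern, pat]
    by_cases h : Fed c j
    · rw [dif_pos h, if_pos h]
    · rw [dif_neg h, if_neg h]
  · intro h
    exact P.dich I ι (qry (idp v) c o h) (numNot_qry (idp v) c o h)
      ((size_qry (idp v) c o h).trans hS') 0
  · intro x hx
    have hX := hno x hx
    refine ⟨(pat_cover (idp v) c o x x (Finset.Subset.refl _) hX).1, fun u => ?_⟩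
    exact (pat_cover (idp v) c o x (x ∪ cl (plant ι u)) Finset.subset_union_left hX).2
      (hyes _ (hasCl_planted x ι u))

/-- The bound for families. -/
theorem fam_thmB (I : ItemsB) {T : Type} [Fintype T] (P : ParB v s q b R K' D B L k S)
    (g : T → List (NegLim.Gate (Sym2 (Fin v)))) (hg : ∀ t, numNot (g t) = 0)
    (hgS : ∀ t, NegLim.size (g t) ≤ S)
    (hout : ∀ x y : Finset (Sym2 (Fin v)), ¬ HasCl k x → HasCl s y →
      ∃ t, gval (g t) 0 x ≠ gval (g t) 0 y) :
    2 ^ K' ≤ 22 * (K' + 1) * Fintype.card T := by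
  classical
  obtain ⟨ι⟩ := P.emb
  have : Nonempty (Fin s → Fin q) := ⟨fun _ => ⟨0, P.q1⟩⟩
  refine main_F (Ω := St (Fin v) (Fin (64 * b ^ 2))) (E := Sym2 (Fin v)) (p := wgt (rho b R q))
    (D := gr) (U := Fin s → Fin q) (K' := K')
    (ε := err v b R (K' + 1) S) (Q := fun u => cl (plant ι u)) P.w0 P.w1
    (by unfold err; positivity) P.err_le (fun t => gval (g t) 0)
    (fun t => P.dich I ι (g t) (hg t) (hgS t) 0) (fun x => HasCl k x)
    (fun i hi => P.bad I i hi) ?_
  intro x hx u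
  obtain ⟨t, ht⟩ := hout x (x ∪ cl (plant ι u)) hx (hasCl_planted x ι u)
  refine ⟨t, ?_⟩
  rcases h1 : gval (g t) 0 x with _ | _
  · refine ⟨rfl, ?_⟩
    rw [h1] at ht
    cases h2 : gval (g t) 0 (x ∪ cl (plant ι u)) with
    | false => exact absurd h2.symm (by simpa using ht)
    | true => rfl
  · exfalso
    apply ht
    rw [h1]
    exact (NegLim.gval_mono _ (hg t) 0 Finset.subset_union_left h1).symm

/-- The bound for circuits with few mixing gates. -/
theorem mix_thmB (I : ItemsB) {S' M : ℕ} (P : ParB v s q b R K' D B L k S)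
    (c : Circuit (Sym2 (Fin v)) S') (hS' : LayCirc.size c ≤ S) (o : Fin S')
    (hM : wires c + numMixing c + 1 ≤ M)
    (hyes : ∀ x : Finset (Sym2 (Fin v)), HasCl s x → val c (inp (idp v) x) o = true)
    (hno : ∀ x : Finset (Sym2 (Fin v)), ¬ HasCl k x →
      val c (inp (idp v) x) o = false) :
    2 ^ K' ≤ 22 * (K' + 1) * (4 * M) := by
  classical
  let T : Type := {i : Fin S' // i ∈ tgt c o} × Bool
  have hT : Fintype.card T ≤ 4 * M := by
    have h1 := card_tgt c o
    have h2 : Fintype.card T = (tgt c o).card * 2 := by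
      rw [Fintype.card_prod, Fintype.card_coe, Fintype.card_bool]
    rw [h2]
    omega
  refine (fam_thmB (T := T) I P (fun t => mono c t.1.1 t.2) (fun t => numNot_mono _ _ _)
    (fun t => (size_mono c t.1.1 t.2).trans hS') ?_).trans (Nat.mul_le_mul_left _ hT)
  intro x y hx hy
  by_contra hcon
  push Not at hcon
  have hdet := det c o (inp (idp v) x) (inp (idp v) y) (by
    intro i hi b'
    have h1 := hcon (⟨i, hi⟩, b')
    have e : ∀ z : Finset (Sym2 (Fin v)), gval (mono c i b') 0 z =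
        val (fz c b') (inp (idp v) z) i := fun z => output_mono c i b' (inp (idp v) z)
    rw [← e, ← e]
    exact h1)
  rw [hno x hx, hyes y hy] at hdet
  cases hdet

end par

end Pool.Agent.GR
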